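import Pool.Agent.H18.PB.Clg
import Pool.Agent.H18.PB.Defs
import Pool.Agent.H35.K2S.Prod
import Pool.Agent.H13.K2S.Rows

/-!
# Counting the values of the rows of the position

Family side of own-visibility, hypothesis (U): upper bounds for the entropies of the rows on all
events, from the hereditary properties `Cnt`.
-/

set_option autoImplicit false

namespace Pool.OVN

open Finset Real
open Pool.Agent.H49.Ent Pool.Agent.H32.Dense Pool.STK Pool.KA Pool.KSAT Pool.K2S Pool.PB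

section pure

variable {Ω S T : Type} [Fintype Ω]

/-- On `A` the variable `X` has at most `exp h` values given `Y`. -/
def Cn (X : Ω → S) (Y : Ω → T) (h : ℝ) (A : Ω → Prop) : Prop :=
  ∀ ω, A ω → ∃ s : Finset S, (s.card : ℝ) ≤ Real.exp h ∧ ∀ ω', A ω' → Y ω' = Y ω → X ω' ∈ s

omit [Fintype Ω] in
theorem Cn.hered (X : Ω → S) (Y : Ω → T) (h : ℝ) : Hered (Cn X Y h) := by
  intro A B hB hA ω hω
  obtain ⟨s, h1, h2⟩ := hA ω (hB ω hω)
  exact ⟨s, h1, fun ω' h' => h2 ω' (hB ω' h')⟩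

omit [Fintype Ω] in
theorem Cn.mono {X : Ω → S} {Y : Ω → T} {h h' : ℝ} {A : Ω → Prop} (hh : h ≤ h')
    (hc : Cn X Y h A) : Cn X Y h' A := by
  intro ω hω
  obtain ⟨s, h1, h2⟩ := hc ω hω
  exact ⟨s, h1.trans (Real.exp_le_exp.2 hh), h2⟩

/-- The entropy is at most the logarithm of the number of values. -/
theorem Cn.CH {p : Ω → ℝ} (hp : IsLaw p) {X : Ω → S} {Y : Ω → T} {h : ℝ} {A : Ω → Prop}
    (hc : Cn X Y h A) (hA : ∀ ω, 0 < p ω → A ω) :
    Pool.Agent.H49.Ent.CH p X Y ≤ h := by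
  classical
  have key : ∀ y : T, ∃ s : Finset S, ∀ ω, A ω → Y ω = y → (s.card : ℝ) ≤ Real.exp h ∧
      X ω ∈ s := by
    intro y
    by_cases hy : ∃ ω, A ω ∧ Y ω = y
    · obtain ⟨ω, hω, e⟩ := hy
      obtain ⟨s, h1, h2⟩ := hc ω hω
      exact ⟨s, fun ω' h' e' => ⟨h1, h2 ω' h' (e'.trans e.symm)⟩⟩
    · exact ⟨∅, fun ω hω e => absurd ⟨ω, hω, e⟩ hy⟩
  choose s hs using key
  have h1 := CH_le_card hp.nonneg hp.sum_one X Y s (fun ω hω => (hs (Y ω) ω (hA ω hω) rfl).2)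
  refine h1.trans ?_
  have h2 : Ex p (fun ω => Real.log ((s (Y ω)).card)) ≤ Ex p (fun _ => h) := by
    refine Ex_mono hp.nonneg fun ω hω => ?_
    obtain ⟨a1, a2⟩ := hs (Y ω) ω (hA ω hω) rfl
    have a3 : 0 < ((s (Y ω)).card : ℝ) := by exact_mod_cast Finset.card_pos.2 ⟨_, a2⟩
    calc Real.log ((s (Y ω)).card) ≤ Real.log (Real.exp h) := Real.log_le_log a3 a1
      _ = h := Real.log_exp h
  rwa [Ex_const hp.sum_one] at h2

/-- On a large part of `A` there are few values. -/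
theorem cn_of_CH {p : Ω → ℝ} (hp : IsLaw p) {A : Ω → Prop} (hA : 0 < Pe p A) (X : Ω → S)
    (Y : Ω → T) {H₀ L : ℝ} (hL : 0 < L)
    (h : Pool.Agent.H49.Ent.CH (Pool.Agent.H49.Ent.cond p A True) X Y ≤ H₀) :
    ∃ B : Ω → Prop, Sub B A ∧ (1 - H₀ / L) * Pe p A ≤ Pe p B ∧ Cn X Y L B := by
  classical
  obtain ⟨q, hq⟩ : ∃ q, q = Pool.Agent.H49.Ent.cond p A True := ⟨_, rfl⟩
  rw [← hq] at h
  have hql : IsLaw q := by rw [hq]; exact isLaw_cond hp hA
  have h1 := Pe_dens_le hql X Y hL h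
  obtain ⟨G, hG⟩ : ∃ G : Ω → Prop, G = fun ω => 0 < p ω ∧ Real.exp (-L) * law q Y (Y ω) ≤
    law q (fun ω => (X ω, Y ω)) (X ω, Y ω) := ⟨_, rfl⟩
  have hpc : ∀ ω, 0 < q ω → 0 < p ω ∧ A ω := by
    intro ω hω
    rw [hq] at hω
    unfold Pool.Agent.H49.Ent.cond at hω
    split_ifs at hω with h2
    · refine ⟨?_, by simpa using h2⟩
      by_contra h0
      have : p ω = 0 := le_antisymm (not_lt.1 h0) (hp.nonneg ω)
      rw [this, zero_div] at hω
      exact lt_irrefl _ hω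
    · exact absurd hω (lt_irrefl _)
  have hPG : 1 - H₀ / L ≤ Pe q G := by
    have h2 : (1 : ℝ) ≤ Pe q G + Pe q (fun ω => law q (fun ω => (X ω, Y ω)) (X ω, Y ω) <
        Real.exp (-L) * law q Y (Y ω)) := by
      rw [← hql.sum_one, Pe_eq, Pe_eq, ← Finset.sum_add_distrib]
      refine Finset.sum_le_sum fun ω _ => ?_
      rcases (hql.nonneg ω).eq_or_lt with h0 | h0
      · rw [← h0]
        simp
      · by_cases h3 : law q (fun ω => (X ω, Y ω)) (X ω, Y ω) < Real.exp (-L) * law q Y (Y ω)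
        · rw [if_pos h3]
          split_ifs <;> linarith
        · rw [if_neg h3, if_pos]
          · linarith
          · rw [hG]
            exact ⟨(hpc ω h0).1, not_lt.1 h3⟩
    linarith
  refine ⟨fun ω => A ω ∧ G ω, fun ω hω => hω.1, ?_, ?_⟩
  · rw [hq, Pe_cond, le_div_iff₀ hA] at hPG
    exact hPG
  · intro ω hω
    have hqpos : ∀ ω', A ω' → G ω' → 0 < q ω' := by
      intro ω' h1 h2
      rw [hG] at h2
      rw [hq]
      unfold Pool.Agent.H49.Ent.cond
      rw [if_pos (by simpa using h1)]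
      exact div_pos h2.1 hA
    refine ⟨(univ.filter fun ω' => (A ω' ∧ G ω') ∧ Y ω' = Y ω).image X, ?_,
      fun ω' h' e => Finset.mem_image.2 ⟨ω', Finset.mem_filter.2 ⟨Finset.mem_univ _, h', e⟩, rfl⟩⟩
    obtain ⟨s, hs⟩ : ∃ s, s = (univ.filter fun ω' => (A ω' ∧ G ω') ∧ Y ω' = Y ω).image X := ⟨_, rfl⟩
    rw [← hs]
    have hly : 0 < law q Y (Y ω) := law_pos hql.nonneg Y (hqpos ω hω.1 hω.2)
    have h3 : ∀ x ∈ s, Real.exp (-L) * law q Y (Y ω) ≤ law q (fun ω => (X ω, Y ω)) (x, Y ω) := by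
      intro x hx
      rw [hs, Finset.mem_image] at hx
      obtain ⟨ω', h', rfl⟩ := hx
      obtain ⟨-, h'1, h'2⟩ := Finset.mem_filter.1 h'
      have h4 := h'1.2
      rw [hG] at h4
      rw [← h'2]
      exact h4.2
    have h5 : ∑ x ∈ s, law q (fun ω => (X ω, Y ω)) (x, Y ω) ≤ law q Y (Y ω) := by
      unfold law
      rw [Finset.sum_comm]
      refine Finset.sum_le_sum fun ω' _ => ?_
      by_cases h6 : Y ω' = Y ω
      · rw [if_pos h6]
        by_cases h7 : X ω' ∈ s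
        · rw [Finset.sum_eq_single (X ω')]
          · rw [if_pos (show (fun ω => (X ω, Y ω)) ω' = (X ω', Y ω) from Prod.ext rfl h6)]
          · intro x _ hx
            rw [if_neg]
            intro h8
            exact hx (Prod.ext_iff.mp h8).1.symm
          · intro h8
            exact absurd h7 h8
        · refine le_trans (le_of_eq (Finset.sum_eq_zero fun x hx => ?_)) (hql.nonneg ω')
          rw [if_neg]
          intro h8
          have : X ω' = x := (Prod.ext_iff.mp h8).1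
          rw [this] at h7
          exact h7 hx
      · rw [if_neg h6]
        refine le_of_eq (Finset.sum_eq_zero fun x _ => ?_)
        rw [if_neg]
        intro h8
        exact h6 (Prod.ext_iff.mp h8).2
    have h6 : (s.card : ℝ) * (Real.exp (-L) * law q Y (Y ω)) ≤ law q Y (Y ω) := by
      refine le_trans ?_ h5
      rw [← nsmul_eq_mul]
      exact Finset.card_nsmul_le_sum _ _ _ h3
    have h7 : (s.card : ℝ) * Real.exp (-L) ≤ 1 := by
      by_contra hcon
      push Not at hcon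
      have := mul_lt_mul_of_pos_right hcon hly
      linarith only [h6, this]
    rw [Real.exp_neg, ← div_eq_mul_inv, div_le_one (Real.exp_pos _)] at h7
    exact h7

/-- Few values on a stable event. -/
theorem cn_stb {p : Ω → ℝ} (hp : IsLaw p) {A : Ω → Prop} (hA : 0 < Pe p A) (X : Ω → S)
    (Y : Ω → T) {H₀ L κ : ℝ} (hL : 0 < L)
    (h : Pool.Agent.H49.Ent.CH (Pool.Agent.H49.Ent.cond p A True) X Y ≤ H₀)
    (hs : Stb p κ A (Cn X Y L)) (hκ : Real.exp (-κ) ≤ 1 - H₀ / L) : Cn X Y L A := by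
  obtain ⟨B, h1, h2, h3⟩ := cn_of_CH hp hA X Y hL h
  exact hs.of_sub h1 ((mul_le_mul_of_nonneg_right hκ hA.le).trans h2) h3

end pure

variable {m J : ℕ}

/-- The list with one property: few values in the rows `(a J, b J]`. -/
def cnL (m : ℕ) (a b : ℕ → ℕ) (L : ℕ → ℝ) : PList m where
  n := 1
  Q := fun J F _ => Cn (F.X (b J)) (ptr F (a J)) (L J)
  her := fun _ _ _ => Cn.hered _ _ _

/-- The claim: an upper bound for the entropy of the rows `(a J, b J]` gives an upper bound for the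
number of values. -/
theorem clg_cn (S : FCl m) {θ : ℝ} (hθ : 0 < θ) (a b : ℕ → ℕ) (L : ℕ → ℝ) (J₀ : ℕ)
    (hL : ∀ J ≥ J₀, 0 < L J) :
    Clg S (fun J F A => ∀ H₀ : ℝ, 0 ≤ H₀ → CH (Pool.Agent.H49.Ent.cond F.p A True) (F.X (b J))
      (ptr F (a J)) ≤ H₀ → (1 + θ) * H₀ ≤ L J → Cn (F.X (b J)) (ptr F (a J)) (L J) A) := by
  refine Clg.one (cnL m a b L) fun κ hκ => ?_
  obtain ⟨J₁, hJ₁⟩ := exists_nat_gt ((Real.log ((1 + θ) / θ)) / κ)
  refine ⟨1, one_pos, max J₀ J₁, ?_⟩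
  intro J hJ F A hSt hSb H₀ hH0 hH hHL
  have hA : 0 < Pe F.p A := lt_of_lt_of_le (Real.exp_pos _) hSt.2
  have hLp := hL J ((le_max_left _ _).trans hJ)
  have h1 : Stb F.p (κ * J) A (Cn (F.X (b J)) (ptr F (a J)) (L J)) := hSb (0 : Fin 1)
  refine cn_stb F.isLaw hA _ _ hLp hH h1 ?_
  have h2 : H₀ / L J ≤ 1 / (1 + θ) := by
    rw [div_le_div_iff₀ hLp (by linarith only [hθ])]
    linarith only [hHL]
  have h3 : Real.log ((1 + θ) / θ) < κ * J := by
    have h4 : (J₁ : ℝ) ≤ J := by exact_mod_cast (le_max_right _ _).trans hJ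
    rw [div_lt_iff₀ hκ] at hJ₁
    nlinarith only [hJ₁, hκ, h4]
  have h4 : Real.exp (-(κ * J)) ≤ θ / (1 + θ) := by
    rw [← Real.log_le_log_iff (Real.exp_pos _) (by positivity), Real.log_exp,
      ← inv_div (1 + θ) θ, Real.log_inv]
    linarith only [h3]
  have h5 : θ / (1 + θ) = 1 - 1 / (1 + θ) := by
    have : (1 + θ) ≠ 0 := by linarith only [hθ]
    field_simp
    ring
  linarith only [h2, h4, h5]

/-- The rows in one block: at most `m (b - a)` bits. -/
theorem CH_rows_le {F : Fam m J} {q : F.Ω → ℝ} (hq : IsLaw q) {a b : ℕ} (hab : a ≤ b) :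
    CH q (F.X b) (ptr F a) ≤ m * (((b : ℝ) - a) * Real.log 2) := by
  have h3 := Pool.KA.TRC.CH_floor hq F.x F.W a (b - a)
  have e : a + (b - a) = b := by omega
  rw [e] at h3
  have e2 : ((b - a : ℕ) : ℝ) = (b : ℝ) - a := by
    rw [Nat.cast_sub hab]
  rw [e2] at h3
  exact h3

/-- Telescoping of the rows for any law. -/
theorem CH_rows_eq {F : Fam m J} {q : F.Ω → ℝ} (hq : IsLaw q) {a b : ℕ} (hab : a ≤ b) :
    CH q (F.X b) (ptr F a) = CH q (F.X b) F.W - CH q (F.X a) F.W := by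
  have h1 := Rows.chain_det hq.nonneg (F.X b) (F.X a) F.W fun ω ω' _ _ e =>
    Pool.STK.B58.fl_fine hab e
  have h2 : CH q (F.X b) (ptr F a) = CH q (F.X b) (fun ω => (F.X a ω, F.W ω)) := rfl
  rw [h2]
  linarith only [h1]

/-- **Few values in the blocks of a zone which is not full.** The zone `(p₁ / N, p₂ / N]` is
divided in `n` blocks. -/
theorem zone_cn (S : FCl m) (hm : 0 < m) {c : ℝ} (hc : 0 < c) (hcm : c ≤ m) (N p₁ p₂ n : ℕ)
    (hN : 0 < N) (hp : p₁ < p₂) (hn : 0 < n) :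
    Clg S (fun J F A => ∀ P₁ P₂ u : ℕ, P₁ = p₁ * (J / N) → P₂ = p₂ * (J / N) →
      u = (P₂ - P₁) / n → Zm F c P₁ P₂ A →
      ∃ h : ℕ → ℝ, (∀ i < n, 0 ≤ h i ∧
        Cn (F.X (P₁ + (i + 1) * u)) (ptr F (P₁ + i * u)) (h i) A) ∧
        ∑ i ∈ range n, h i ≤ (m - c / 2) * (n * (u * Real.log 2))) := by
  have hl2 : 0 < Real.log 2 := Real.log_pos (by norm_num)
  have hm0 : (0 : ℝ) < m := by exact_mod_cast hm
  have hn0 : (0 : ℝ) < n := by exact_mod_cast hn
  obtain ⟨θ, hθ⟩ : ∃ θ : ℝ, θ = c / (8 * m) := ⟨_, rfl⟩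
  have hθ0 : 0 < θ := by rw [hθ]; positivity
  obtain ⟨η, hη⟩ : ∃ η : ℝ, η = c * Real.log 2 / 16 := ⟨_, rfl⟩
  have hη0 : 0 < η := by rw [hη]; positivity
  obtain ⟨P₁, hP₁⟩ : ∃ P₁ : ℕ → ℕ, P₁ = fun J => p₁ * (J / N) := ⟨_, rfl⟩
  obtain ⟨P₂, hP₂⟩ : ∃ P₂ : ℕ → ℕ, P₂ = fun J => p₂ * (J / N) := ⟨_, rfl⟩
  obtain ⟨u, hu⟩ : ∃ u : ℕ → ℕ, u = fun J => (P₂ J - P₁ J) / n := ⟨_, rfl⟩
  obtain ⟨K, hK⟩ := exists_nat_gt ((1 + θ) * (m * Real.log 2) / η + 2)
  -- the blocks become long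
  obtain ⟨U₀, hU₀⟩ := exists_nat_ge ((8 * (1 + θ) * m) / c + 1)
  have hlong : ∀ J ≥ N * (n * U₀), U₀ ≤ u J := by
    intro J hJ
    rw [hu]
    simp only
    rw [Nat.le_div_iff_mul_le hn, hP₁, hP₂]
    simp only
    have h1 : n * U₀ ≤ J / N := (Nat.le_div_iff_mul_le hN).2 (by rw [Nat.mul_comm]; exact hJ)
    have h2 : p₁ * (J / N) + J / N ≤ p₂ * (J / N) := by
      have : (p₁ + 1) * (J / N) ≤ p₂ * (J / N) := Nat.mul_le_mul_right _ hp
      rwa [Nat.add_mul, Nat.one_mul] at this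
    have h3 : U₀ * n ≤ J / N := by rw [Nat.mul_comm]; exact h1
    omega
  have hU1 : (1 : ℝ) ≤ U₀ := by
    have : 0 ≤ (8 * (1 + θ) * m) / c := by positivity
    linarith only [hU₀, this]
  have hclaim : ∀ v : Fin n × Fin K, Clg S (fun J F A => ∀ H₀ : ℝ, 0 ≤ H₀ →
      CH (Pool.Agent.H49.Ent.cond F.p A True) (F.X (P₁ J + ((v.1 : ℕ) + 1) * u J))
      (ptr F (P₁ J + (v.1 : ℕ) * u J)) ≤ H₀ → (1 + θ) * H₀ ≤ ((v.2 : ℕ) + 1) * (η * u J) →
      Cn (F.X (P₁ J + ((v.1 : ℕ) + 1) * u J)) (ptr F (P₁ J + (v.1 : ℕ) * u J))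
        (((v.2 : ℕ) + 1) * (η * u J)) A) := by
    intro v
    refine clg_cn S hθ0 (fun J => P₁ J + (v.1 : ℕ) * u J)
      (fun J => P₁ J + ((v.1 : ℕ) + 1) * u J) (fun J => ((v.2 : ℕ) + 1) * (η * u J))
      (N * (n * U₀)) fun J hJ => ?_
    have h1 : (1 : ℝ) ≤ u J := hU1.trans (by exact_mod_cast hlong J hJ)
    positivity
  refine Clg.mono (J₂ := N * (n * U₀) + 1) ((Clg.finite hclaim).and
    (Clg.of (τ := 1) one_pos 0 (fun J _ F A hSt => (show 0 < Pe F.p A from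
      lt_of_lt_of_le (Real.exp_pos _) hSt.2)))) ?_
  rintro J hJ F A ⟨hv, hA⟩ Q₁ Q₂ u' hQ₁ hQ₂ hu' hZ
  have e1 : Q₁ = P₁ J := by rw [hQ₁, hP₁]
  have e2 : Q₂ = P₂ J := by rw [hQ₂, hP₂]
  have e3 : u' = u J := by rw [hu', e1, e2, hu]
  rw [e1, e2] at hZ
  rw [e1, e3]
  have hq := isLaw_cond F.isLaw hA
  have hlg := hlong J (by omega)
  have hur : (U₀ : ℝ) ≤ u J := by exact_mod_cast hlg
  have hu1 : (1 : ℝ) ≤ u J := hU1.trans hur
  have hu0 : 0 < η * u J := by positivity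
  obtain ⟨H, hH⟩ : ∃ H : ℕ → ℝ, H = fun i => CH (Pool.Agent.H49.Ent.cond F.p A True)
    (F.X (P₁ J + (i + 1) * u J)) (ptr F (P₁ J + i * u J)) := ⟨_, rfl⟩
  have hH0 : ∀ i, 0 ≤ H i := fun i => by rw [hH]; exact CH_nonneg hq.nonneg _ _
  have hHle : ∀ i, H i ≤ m * (u J * Real.log 2) := by
    intro i
    rw [hH]
    refine (CH_rows_le hq (show P₁ J + i * u J ≤ P₁ J + (i + 1) * u J by
      have : i * u J ≤ (i + 1) * u J := Nat.mul_le_mul_right _ (by omega)
      omega)).trans (le_of_eq ?_)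
    push_cast
    ring
  obtain ⟨k, hk⟩ : ∃ k : ℕ → ℕ, k = fun i => ⌈(1 + θ) * H i / (η * u J)⌉₊ := ⟨_, rfl⟩
  have hkK : ∀ i, k i < K := by
    intro i
    have h1 : (k i : ℝ) < (1 + θ) * H i / (η * u J) + 1 := by
      rw [hk]
      exact Nat.ceil_lt_add_one (by have := hH0 i; positivity)
    have h2 : (1 + θ) * H i / (η * u J) ≤ (1 + θ) * (m * Real.log 2) / η := by
      rw [div_le_div_iff₀ hu0 hη0]
      have := mul_le_mul_of_nonneg_left (hHle i) (show 0 ≤ (1 + θ) * η by positivity)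
      nlinarith only [this]
    have h3 : (k i : ℝ) < K := by linarith only [hK, h1, h2]
    exact_mod_cast h3
  refine ⟨fun i => ((k i : ℕ) + 1) * (η * u J), fun i hi => ⟨by positivity, ?_⟩, ?_⟩
  · refine hv (⟨i, hi⟩, ⟨k i, hkK i⟩) (H i) (hH0 i) (le_of_eq (by rw [hH])) ?_
    have h1 : (1 + θ) * H i / (η * u J) ≤ k i := by rw [hk]; exact Nat.le_ceil _
    rw [div_le_iff₀ hu0] at h1
    simp only
    linarith only [hu0, h1]
  · have h1 : ∀ i ∈ range n, ((k i : ℕ) + 1 : ℝ) * (η * u J) ≤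
        (1 + θ) * H i + 2 * (η * u J) := by
      intro i _
      have h2 : (k i : ℝ) < (1 + θ) * H i / (η * u J) + 1 := by
        rw [hk]
        exact Nat.ceil_lt_add_one (by have := hH0 i; positivity)
      have h3 : ((k i : ℝ) + 1) * (η * u J) ≤ ((1 + θ) * H i / (η * u J) + 2) * (η * u J) :=
        mul_le_mul_of_nonneg_right (by linarith only [h2]) hu0.le
      have h4 : ((1 + θ) * H i / (η * u J) + 2) * (η * u J) =
          (1 + θ) * H i + 2 * (η * u J) := by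
        field_simp
      linarith only [h3, h4]
    refine (Finset.sum_le_sum h1).trans ?_
    rw [Finset.sum_add_distrib, ← Finset.mul_sum, Finset.sum_const, Finset.card_range,
      nsmul_eq_mul]
    -- the sum of the entropies
    have h2 : ∑ i ∈ range n, H i ≤ (m - c) * ((((P₂ J : ℕ) : ℝ) - P₁ J) * Real.log 2) := by
      have h3 : ∀ k : ℕ, ∑ i ∈ range k, H i =
          CH (Pool.Agent.H49.Ent.cond F.p A True) (F.X (P₁ J + k * u J)) (ptr F (P₁ J)) := by
        intro k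
        induction k with
        | zero =>
          rw [Finset.sum_range_zero, Nat.zero_mul, Nat.add_zero, CH_rows_eq hq le_rfl, sub_self]
        | succ k ih =>
          have h4 : k * u J ≤ (k + 1) * u J := Nat.mul_le_mul_right _ (by omega)
          have h5 : H k = CH (Pool.Agent.H49.Ent.cond F.p A True)
            (F.X (P₁ J + (k + 1) * u J)) (ptr F (P₁ J + k * u J)) := by rw [hH]
          rw [Finset.sum_range_succ, ih, h5, CH_rows_eq hq (by omega),
            CH_rows_eq hq (show P₁ J + k * u J ≤ P₁ J + (k + 1) * u J by omega),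
            CH_rows_eq hq (show P₁ J ≤ P₁ J + (k + 1) * u J by omega)]
          ring
      rw [h3 n]
      refine le_trans ?_ hZ
      refine CH_mono_left hq.nonneg fun ω ω' _ _ e => ?_
      have e1 := (Prod.ext_iff.mp e).1
      refine Pool.STK.B58.fl_fine ?_ e1
      have h4 : n * u J ≤ P₂ J - P₁ J := by
        rw [hu]
        exact Nat.mul_div_le _ _
      have h5 : P₁ J ≤ P₂ J := by
        rw [hP₁, hP₂]
        exact Nat.mul_le_mul_right _ hp.le
      omega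
    have h5 : ((P₂ J : ℕ) : ℝ) - P₁ J ≤ n * (u J + 1) := by
      have h6 : P₂ J - P₁ J < n * (u J + 1) := by
        rw [hu]
        simp only
        have := Nat.lt_div_mul_add (a := P₂ J - P₁ J) hn
        rw [Nat.mul_add, Nat.mul_one, Nat.mul_comm]
        exact this
      have h7 : P₁ J ≤ P₂ J := by
        rw [hP₁, hP₂]
        exact Nat.mul_le_mul_right _ hp.le
      have h8 : ((P₂ J - P₁ J : ℕ) : ℝ) ≤ n * (u J + 1) := by exact_mod_cast h6.le
      rwa [Nat.cast_sub h7] at h8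
    have h9 : 0 ≤ (m : ℝ) - c := by linarith only [hcm]
    have h10 : ∑ i ∈ range n, H i ≤ (m - c) * ((n * (u J + 1)) * Real.log 2) :=
      h2.trans (mul_le_mul_of_nonneg_left (mul_le_mul_of_nonneg_right h5 hl2.le) h9)
    have h11 : (1 + θ) * ∑ i ∈ range n, H i ≤
        (1 + θ) * ((m - c) * ((n * (u J + 1)) * Real.log 2)) :=
      mul_le_mul_of_nonneg_left h10 (by linarith only [hθ0])
    -- arithmetic
    have g1 : 8 * (1 + θ) * m ≤ c * u J := by
      have h12 : (8 * (1 + θ) * m) / c ≤ u J := by linarith only [hU₀, hur]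
      rw [div_le_iff₀ hc] at h12
      linarith only [h12]
    have g2 : θ * m = c / 8 := by rw [hθ]; field_simp
    have g3 : (1 + θ) * (m - c) ≤ m - 7 * c / 8 := by nlinarith only [g2, hc, hθ0]
    have g4 : (1 + θ) * (m - c) * (u J + 1) ≤ (m - 5 * c / 8) * u J := by
      have a1 : (1 + θ) * (m - c) ≤ (1 + θ) * m := mul_le_mul_of_nonneg_left (by linarith only [hc])
        (by linarith only [hθ0])
      have a2 : (1 + θ) * (m - c) * u J ≤ (m - 7 * c / 8) * u J :=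
        mul_le_mul_of_nonneg_right g3 (by linarith only [hU1, hur])
      nlinarith only [hc, hcm, g1, g2, g3, a2]
    have g5 : (1 + θ) * ((m - c) * ((n * (u J + 1)) * Real.log 2)) ≤
        (m - 5 * c / 8) * u J * (n * Real.log 2) := by
      have a3 : (1 + θ) * ((m - c) * ((n * (u J + 1)) * Real.log 2)) =
          (1 + θ) * (m - c) * (u J + 1) * (n * Real.log 2) := by ring
      rw [a3]
      exact mul_le_mul_of_nonneg_right g4 (by positivity)
    have g6 : (n : ℝ) * (2 * (η * u J)) = c / 8 * u J * (n * Real.log 2) := by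
      rw [hη]; ring
    rw [g6]
    have g7 : (m - c / 2) * (n * (u J * Real.log 2)) =
        (m - 5 * c / 8) * u J * (n * Real.log 2) + c / 8 * u J * (n * Real.log 2) := by ring
    rw [g7]
    linarith only [h11, g5]

end Pool.OVN
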