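import Pool.Agent.H62.OVN.Lbl
import Pool.Agent.H62.OVN.Cnt

/-!
# Rows of points with the time as a base coordinate

Family side of own-visibility: (U), (F) and the mutual informations for `sdt`.
-/

set_option autoImplicit false

namespace Pool.OVN

open Finset Real MvPolynomial
open Pool.Agent.H49.Ent Pool.Agent.H32.Dense Pool.STK Pool.KA Pool.KSAT Pool.K2S Pool.KS3
open Pool.KAL Pool.PB Pool.KST Pool.FLF Pool.KA.TRC

variable {m J : ℕ}

/-- The point of the random sheet. -/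
theorem sdt_pnt (F : Fam m J) (i₁ : Fin m) (w r P : ℕ)
    (G : (Fin m → ℤ) × (ℕ × F.ζ) → MvPolynomial (Fin m) ℝ) {b : ℕ} (hb : b ≤ J) (ω : F.Ω) :
    (sdt F i₁ w r P G).pnt b ω = (Function.update (F.X b ω) i₁ (F.T1 b ω : ℤ), F.X b ω i₁) := by
  unfold SDat.pnt
  refine Prod.ext ?_ rfl
  exact fl_bp F i₁ hb ω

/-- Position and time from the point of the random sheet. -/
theorem pnt_inj {F : Fam m J} {i₁ : Fin m} {w r P : ℕ}
    {G : (Fin m → ℤ) × (ℕ × F.ζ) → MvPolynomial (Fin m) ℝ} {b : ℕ} (hb : b ≤ J) {ω ω' : F.Ω} :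
    (sdt F i₁ w r P G).pnt b ω = (sdt F i₁ w r P G).pnt b ω' ↔
      F.X b ω = F.X b ω' ∧ F.T1 b ω = F.T1 b ω' := by
  rw [sdt_pnt F i₁ w r P G hb, sdt_pnt F i₁ w r P G hb]
  constructor
  · intro h
    have h1 := (Prod.ext_iff.mp h).1
    have h2 : F.X b ω i₁ = F.X b ω' i₁ := (Prod.ext_iff.mp h).2
    simp only at h1
    have h3 : F.T1 b ω = F.T1 b ω' := by
      have := congrFun h1 i₁
      rw [Function.update_self, Function.update_self] at this
      exact_mod_cast this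
    refine ⟨?_, h3⟩
    funext j
    by_cases hj : j = i₁
    · rw [hj]; exact h2
    · have := congrFun h1 j
      rwa [Function.update_of_ne hj, Function.update_of_ne hj] at this
  · rintro ⟨h1, h2⟩
    rw [h1, h2]

/-- **The rows of the points, with the time as a coordinate.** -/
theorem pnt_le (F : Fam m J) (i₁ : Fin m) (w r P : ℕ)
    (G : (Fin m → ℤ) × (ℕ × F.ζ) → MvPolynomial (Fin m) ℝ) {a b : ℕ} (hab : a ≤ b) (hb : b ≤ J)
    {e : ℝ} (he : F.Tm e) :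
    CH F.p ((sdt F i₁ w r P G).pnt b) (fun ω => ((sdt F i₁ w r P G).pnt a ω, F.Z ω)) ≤
      ((b : ℝ) - a) * Real.log 2 + CH F.p (F.X b) (ptr F a) + (e + 4 * cc m) := by
  have hp := F.isLaw.nonneg
  have haJ : a ≤ J := hab.trans hb
  -- the time
  have hT : ∀ ω, F.T1 a ω = F.T1 b ω / 2 ^ (b - a) := by
    intro ω
    obtain ⟨k, rfl⟩ := Nat.exists_eq_add_of_le hab
    rw [T1_div F hb ω]
    congr 2
    omega
  have h1 := CH_le_add hp ((sdt F i₁ w r P G).pnt b) (F.T1 b)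
    (fun ω => ((sdt F i₁ w r P G).pnt a ω, F.Z ω))
  have h2 : CH F.p (F.T1 b) (fun ω => ((sdt F i₁ w r P G).pnt a ω, F.Z ω)) ≤
      ((b : ℝ) - a) * Real.log 2 := by
    have a1 := CH_div F.isLaw (F.T1 b) (fun ω => ((sdt F i₁ w r P G).pnt a ω, F.Z ω)) (b - a)
    have a2 : CH F.p (F.T1 b) (fun ω => ((sdt F i₁ w r P G).pnt a ω, F.Z ω)) ≤
        CH F.p (F.T1 b) (fun ω => (F.T1 b ω / 2 ^ (b - a),
          ((sdt F i₁ w r P G).pnt a ω, F.Z ω))) := by
      refine CH_mono_cond hp fun ω ω' _ _ h => ?_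
      refine Prod.ext ?_ h
      have h3 := (pnt_inj haJ).1 (Prod.ext_iff.mp h).1
      rw [← hT, ← hT]
      exact h3.2
    rw [Nat.cast_sub hab] at a1
    exact a2.trans a1
  -- the position
  have h3 : CH F.p ((sdt F i₁ w r P G).pnt b)
      (fun ω => (F.T1 b ω, ((sdt F i₁ w r P G).pnt a ω, F.Z ω))) ≤
      CH F.p (F.X b) (fun ω => (F.T1 b ω, (F.X a ω, F.Z ω))) := by
    have a1 : CH F.p ((sdt F i₁ w r P G).pnt b)
        (fun ω => (F.T1 b ω, ((sdt F i₁ w r P G).pnt a ω, F.Z ω))) ≤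
        CH F.p ((sdt F i₁ w r P G).pnt b) (fun ω => (F.T1 b ω, (F.X a ω, F.Z ω))) := by
      refine CH_mono_cond hp fun ω ω' _ _ h => ?_
      obtain ⟨b1, b2⟩ := Prod.ext_iff.mp h
      obtain ⟨b3, b4⟩ := Prod.ext_iff.mp b2
      simp only at b1 b3 b4
      have b5 := (pnt_inj haJ).1 b3
      exact Prod.ext b1 (Prod.ext b5.1 b4)
    refine a1.trans ?_
    refine CH_mono_left hp fun ω ω' _ _ h => ?_
    obtain ⟨b1, b2⟩ := Prod.ext_iff.mp h
    simp only at b1 b2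
    exact (pnt_inj hb).2 ⟨b1, (Prod.ext_iff.mp b2).1⟩
  -- the label of the window
  have h4 := CH_le_add hp (F.X b) (F.c a) (fun ω => (F.T1 b ω, (F.X a ω, F.Z ω)))
  have h5 : CH F.p (F.c a) (fun ω => (F.T1 b ω, (F.X a ω, F.Z ω))) ≤ cc m := by
    have a1 := CH_le_add hp (F.c a) (fun ω => fl a (F.x1 a ω))
      (fun ω => (F.T1 b ω, (F.X a ω, F.Z ω)))
    have a2 : CH F.p (F.c a) (fun ω => (fl a (F.x1 a ω), (F.T1 b ω, (F.X a ω, F.Z ω)))) = 0 := by
      refine CH_eq_zero hp fun ω ω' _ _ e => ?_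
      obtain ⟨b1, b2⟩ := Prod.ext_iff.mp e
      obtain ⟨b3, b4⟩ := Prod.ext_iff.mp b2
      simp only at b1 b3 b4
      exact Prod.ext (Prod.ext (Rows.T1_det F hab hb b3) b1) (Prod.ext_iff.mp b4).2
    have a3 := Rows.CH_x1_X F haJ (fun ω => (F.T1 b ω, (F.X a ω, F.Z ω)))
    have a4 : CH F.p (F.X a) (fun ω => (F.T1 b ω, (F.X a ω, F.Z ω))) = 0 := by
      refine CH_eq_zero hp fun ω ω' _ _ e => ?_
      exact (Prod.ext_iff.mp (Prod.ext_iff.mp e).2).1
    linarith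
  have h6 := Rows.row_le F hab hb he (fun ω => (F.X a ω, F.Z ω))
  have h7 : CH F.p (F.X b) (fun ω => (F.c a ω, (F.T1 b ω, (F.X a ω, F.Z ω)))) =
      CH F.p (F.X b) (fun ω => (F.T1 b ω, (F.X a ω, F.Z ω), F.c a ω)) := by
    refine CH_congr hp ?_ ?_ ?_ ?_
    · intro ω ω' _ _ hh
      exact (Prod.ext_iff.mp hh).1
    · intro ω ω' _ _ hh
      exact (Prod.ext_iff.mp hh).1
    · intro ω ω' _ _ hh
      simp only [Prod.mk.injEq] at hh ⊢
      tauto
    · intro ω ω' _ _ hh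
      simp only [Prod.mk.injEq] at hh ⊢
      tauto
  have h8 : CH F.p (F.X b) (ptr F a) = CH F.p (F.X b) (fun ω => (F.X a ω, F.W ω)) := rfl
  rw [h8]
  linarith

/-- The time deficit of the conditional law. -/
theorem res_Tm_of_event {F : Fam m J} {A : F.Ω → Prop} {e : ℝ} (he : F.Tm e)
    (hA : 0 < Pe F.p A) :
    (F.res A True (isLaw_cond F.isLaw hA)).Tm ((e + Real.log 2) / Pe F.p A) := by
  have h1 := Tm_of_event he hA
  unfold Fam.Tm at h1 ⊢
  refine h1.trans (le_of_eq ?_)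
  exact sub_CH F.T (fun ω => (F.l ω, F.Z ω))

/-- A monotone function which grows by at least `v` over the blocks. -/
theorem incr_le {D : ℕ → ℝ} {P h q a b : ℕ} {v : ℝ} (hv : 0 ≤ v) (hh : 0 < h)
    (hD : ∀ x y, P ≤ x → x ≤ y → y ≤ P + q * h → D x ≤ D y)
    (hblk : ∀ j < q, v ≤ D (P + (j + 1) * h) - D (P + j * h)) (ha : P ≤ a) (hab : a ≤ b)
    (hb : b ≤ P + q * h) : (((b : ℝ) - a) / h - 2) * v ≤ D b - D a := by
  have hr : (0 : ℝ) < h := by exact_mod_cast hh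
  obtain ⟨j₁, hj₁⟩ : ∃ j₁, j₁ = (a - P) / h + 1 := ⟨_, rfl⟩
  obtain ⟨j₂, hj₂⟩ : ∃ j₂, j₂ = (b - P) / h := ⟨_, rfl⟩
  have h1 : a < P + j₁ * h := by
    have := Nat.lt_div_mul_add (a := a - P) hh
    rw [hj₁, Nat.add_mul, Nat.one_mul]
    omega
  have h2 : P + j₂ * h ≤ b := by
    have := Nat.div_mul_le_self (b - P) h
    rw [hj₂]
    omega
  have h3 : (j₁ : ℝ) ≤ ((a : ℝ) - P) / h + 1 := by
    rw [hj₁]
    push_cast
    have := Nat.cast_div_le (α := ℝ) (m := a - P) (n := h)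
    rw [Nat.cast_sub ha] at this
    linarith
  have h4 : ((b : ℝ) - P) / h < j₂ + 1 := by
    rw [div_lt_iff₀ hr]
    have h5 := Nat.lt_div_mul_add (a := b - P) hh
    have h6 : b - P < (j₂ + 1) * h := by
      rw [hj₂, Nat.add_mul, Nat.one_mul]
      exact h5
    have h7 : ((b - P : ℕ) : ℝ) < ((j₂ + 1) * h : ℕ) := by exact_mod_cast h6
    rw [Nat.cast_sub (ha.trans hab)] at h7
    push_cast at h7
    exact h7
  have e1 : ((b : ℝ) - a) / h = ((b : ℝ) - P) / h - ((a : ℝ) - P) / h := by ring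
  by_cases hj : j₁ ≤ j₂
  · have h5 : ∀ k, j₁ + k ≤ q → (k : ℝ) * v ≤ D (P + (j₁ + k) * h) - D (P + j₁ * h) := by
      intro k
      induction k with
      | zero =>
        intro _
        simp
      | succ k ih =>
        intro hk
        have h6 := ih (by omega)
        have h7 := hblk (j₁ + k) (by omega)
        have e2 : j₁ + k + 1 = j₁ + (k + 1) := by omega
        rw [e2] at h7
        push_cast
        linarith
    have hjq : j₂ ≤ q := by
      by_contra hcon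
      have : (q + 1) * h ≤ j₂ * h := Nat.mul_le_mul_right _ (by omega)
      rw [Nat.add_mul, Nat.one_mul] at this
      omega
    have h6 := h5 (j₂ - j₁) (by omega)
    have e3 : j₁ + (j₂ - j₁) = j₂ := by omega
    rw [e3, Nat.cast_sub hj] at h6
    have hj1q : P + j₁ * h ≤ P + j₂ * h := by
      have : j₁ * h ≤ j₂ * h := Nat.mul_le_mul_right _ hj
      omega
    have h7 := hD a (P + j₁ * h) ha h1.le (hj1q.trans (h2.trans hb))
    have h8 := hD (P + j₂ * h) b (by omega) h2 hb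
    have h9 : (((b : ℝ) - a) / h - 2) * v ≤ ((j₂ : ℝ) - j₁) * v :=
      mul_le_mul_of_nonneg_right (by linarith) hv
    linarith
  · have h5 : (((b : ℝ) - a) / h - 2) * v ≤ 0 := by
      refine mul_nonpos_of_nonpos_of_nonneg ?_ hv
      have : (j₂ : ℝ) + 1 ≤ j₁ := by
        have : j₂ + 1 ≤ j₁ := by omega
        exact_mod_cast this
      linarith
    have h6 := hD a b ha hab hb
    linarith

/-- **(U)** for the random sheet of a family: the rows of the blocks of length `h` are not full on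
any event. -/
theorem sdt_nf (F : Fam m J) (i₁ : Fin m) (w r P' : ℕ)
    (G : (Fin m → ℤ) × (ℕ × F.ζ) → MvPolynomial (Fin m) ℝ) {c e₁ π₀ : ℝ} {P q h k : ℕ}
    (hc : 0 < c) (hh : 0 < h) (he : F.Tm e₁) (he0 : 0 ≤ e₁) (hπ : 0 < π₀) (hPJ : P + q * h ≤ J)
    (hrow : ∀ E : F.Ω → Prop, 0 < Pe F.p E → ∀ j < q,
      CH (Pool.Agent.H49.Ent.cond F.p E True) (F.X (P + (j + 1) * h)) (ptr F (P + j * h)) ≤
        (m - c) * (h * Real.log 2))
    (hk : 8 * h ≤ k) (hek : (e₁ + Real.log 2) / π₀ + 4 * cc m ≤ c / 4 * (k * Real.log 2)) :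
    (sdt F i₁ w r P' G).NF (c / 2) k P (q * h) π₀ := by
  have hl2 : 0 < Real.log 2 := Real.log_pos (by norm_num)
  have hm0 : (0 : ℝ) ≤ m := Nat.cast_nonneg m
  have hhr : (0 : ℝ) < h := by exact_mod_cast hh
  intro j hj E hE
  have hE' : π₀ ≤ Pe F.p (fun ω => ω ∈ E) := hE
  have hEpos : 0 < Pe F.p (fun ω => ω ∈ E) := lt_of_lt_of_le hπ hE'
  have hql := isLaw_cond F.isLaw hEpos
  obtain ⟨a, ha⟩ : ∃ a, a = P + j * k := ⟨_, rfl⟩
  obtain ⟨b, hb⟩ : ∃ b, b = P + (j + 1) * k := ⟨_, rfl⟩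
  have hjk : (j + 1) * k = j * k + k := by ring
  have hab : a ≤ b := by rw [ha, hb, hjk]; omega
  have hbJ : b ≤ J := by omega
  have hba : (b : ℝ) - a = k := by
    rw [ha, hb]
    push_cast
    ring
  rw [← ha, ← hb]
  -- the time deficit
  have hTm := res_Tm_of_event he hEpos
  have hTm2 : (F.res (fun ω => ω ∈ E) True hql).Tm ((e₁ + Real.log 2) / π₀) := by
    unfold Fam.Tm at hTm ⊢
    have h1 : (e₁ + Real.log 2) / Pe F.p (fun ω => ω ∈ E) ≤ (e₁ + Real.log 2) / π₀ :=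
      div_le_div_of_nonneg_left (by linarith) hπ hE'
    linarith
  have h1 := pnt_le (F.res (fun ω => ω ∈ E) True hql) i₁ w r P' G hab hbJ hTm2
  have h1' : CH (Pool.Agent.H49.Ent.cond F.p (fun ω => ω ∈ E) True)
      ((sdt F i₁ w r P' G).pnt b) (fun ω => ((sdt F i₁ w r P' G).pnt a ω, F.Z ω)) ≤
      ((b : ℝ) - a) * Real.log 2 + CH (Pool.Agent.H49.Ent.cond F.p (fun ω => ω ∈ E) True) (F.X b)
        (ptr F a) + ((e₁ + Real.log 2) / π₀ + 4 * cc m) := h1
  -- the deficits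
  obtain ⟨D, hD⟩ : ∃ D : ℕ → ℝ, D = fun x => m * (x * Real.log 2) -
    CH (Pool.Agent.H49.Ent.cond F.p (fun ω => ω ∈ E) True) (F.X x) F.W := ⟨_, rfl⟩
  have hDD : ∀ x y : ℕ, x ≤ y → D y - D x = m * (((y : ℝ) - x) * Real.log 2) -
      CH (Pool.Agent.H49.Ent.cond F.p (fun ω => ω ∈ E) True) (F.X y) (ptr F x) := by
    intro x y hxy
    rw [CH_rows_eq hql hxy, hD]
    ring
  have h2 := incr_le (D := D) (P := P) (h := h) (q := q) (a := a) (b := b)
    (v := c * (h * Real.log 2)) (by positivity) hh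
    (fun x y _ hxy _ => by
      have h3 := hDD x y hxy
      have h4 := CH_rows_le (F := F) hql hxy
      linarith)
    (fun j hj => by
      have h5 : j * h ≤ (j + 1) * h := Nat.mul_le_mul_right _ (by omega)
      rw [hDD _ _ (by omega : P + j * h ≤ P + (j + 1) * h)]
      have h6 := hrow (fun ω => ω ∈ E) hEpos j hj
      have e1 : (m : ℝ) * (((P + (j + 1) * h : ℕ) - (P + j * h : ℕ) : ℝ) * Real.log 2) =
          m * (h * Real.log 2) := by
        push_cast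
        ring
      rw [e1]
      have e2 : (m - c) * (h * Real.log 2) = m * (h * Real.log 2) - c * (h * Real.log 2) := by
        ring
      linarith)
    (by omega) hab (by omega)
  rw [hDD a b hab, hba] at h2
  rw [hba] at h1'
  have h3 : ((k : ℝ) / h - 2) * (c * (h * Real.log 2)) =
      c * (k * Real.log 2) - 2 * c * (h * Real.log 2) := by
    field_simp
  have h4 : 2 * c * (h * Real.log 2) ≤ c / 4 * (k * Real.log 2) := by
    have h5 : (8 : ℝ) * h ≤ k := by exact_mod_cast hk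
    have h6 := mul_le_mul_of_nonneg_right h5 (show 0 ≤ c / 4 * Real.log 2 by positivity)
    nlinarith
  rw [h3] at h2
  refine h1'.trans ?_
  have e3 : (m + 1 - c / 2) * (k * Real.log 2) = k * Real.log 2 +
      (m * (k * Real.log 2) - c * (k * Real.log 2) + c / 4 * (k * Real.log 2)) +
      c / 4 * (k * Real.log 2) := by ring
  rw [e3]
  linarith

/-! ### Fullness -/

/-- Deficits of smaller ranges. -/
theorem sdt_full_sub {F : Fam m J} {i₁ : Fin m} {w r P : ℕ}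
    {G : (Fin m → ℤ) × (ℕ × F.ζ) → MvPolynomial (Fin m) ℝ} {δ : ℝ}
    (h : (sdt F i₁ w r P G).Full w P δ) {a b : ℕ} (ha : w ≤ a) (hab : a ≤ b) (hb : b ≤ P) :
    (sdt F i₁ w r P G).Full a b δ := by
  obtain ⟨d, hd⟩ : ∃ d, d = sdt F i₁ w r P G := ⟨_, rfl⟩
  rw [← hd] at h ⊢
  have hl : IsLaw d.P := by rw [hd]; exact F.isLaw
  have hp := hl.nonneg
  have hfl : ∀ {x y : ℕ}, x ≤ y → ∀ ω ω' : d.Om, d.cel y ω = d.cel y ω' →
      d.cel x ω = d.cel x ω' := fun hxy ω ω' e => Pool.STK.B58.fl_fine hxy e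
  obtain ⟨V, hV⟩ : ∃ V : d.Om → d.Lam × d.Wt, V = fun ω => (d.L ω, d.W ω) := ⟨_, rfl⟩
  have hch : ∀ {x y : ℕ}, x ≤ y → CH d.P (d.cel y) (fun ω => (V ω, d.cel x ω)) =
      CH d.P (d.cel y) V - CH d.P (d.cel x) V := by
    intro x y hxy
    have h1 := Rows.chain_det hp (d.cel y) (d.cel x) V fun ω ω' _ _ e => hfl hxy ω ω' e
    have h2 : CH d.P (d.cel y) (fun ω => (V ω, d.cel x ω)) =
        CH d.P (d.cel y) (fun ω => (d.cel x ω, V ω)) := by
      refine CH_congr hp ?_ ?_ ?_ ?_ <;> intro ω ω' _ _ hh <;>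
        simp only [Prod.mk.injEq] at hh ⊢ <;> tauto
    linarith
  have hle : ∀ {x y : ℕ}, x ≤ y → CH d.P (d.cel y) V - CH d.P (d.cel x) V ≤
      m * (((y : ℝ) - x) * Real.log 2) := by
    intro x y hxy
    rw [← hch hxy]
    have h2 : CH d.P (d.cel y) (fun ω => (V ω, d.cel x ω)) =
        CH d.P (d.cel y) (fun ω => (d.cel x ω, V ω)) := by
      refine CH_congr hp ?_ ?_ ?_ ?_ <;> intro ω ω' _ _ hh <;>
        simp only [Prod.mk.injEq] at hh ⊢ <;> tauto
    rw [h2]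
    have h3 := CH_floor hl d.y V x (y - x)
    have e : x + (y - x) = y := by omega
    rw [e, Nat.cast_sub hxy] at h3
    exact h3
  unfold SDat.Full at h ⊢
  have h1 : CH d.P (d.cel P) (fun ω => ((d.L ω, d.W ω), d.cel w ω)) =
      CH d.P (d.cel P) V - CH d.P (d.cel w) V := by
    rw [← hch (ha.trans (hab.trans hb)), hV]
  have h2 : CH d.P (d.cel b) (fun ω => ((d.L ω, d.W ω), d.cel a ω)) =
      CH d.P (d.cel b) V - CH d.P (d.cel a) V := by
    rw [← hch hab, hV]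
  rw [h1] at h
  rw [h2]
  have h3 := hle ha
  have h4 := hle hb
  linarith

/-- The mutual informations are at most the deficit. -/
theorem sdt_mi {F : Fam m J} {i₁ : Fin m} {w r P : ℕ}
    {G : (Fin m → ℤ) × (ℕ × F.ζ) → MvPolynomial (Fin m) ℝ} {δ : ℝ}
    (h : (sdt F i₁ w r P G).Full w P δ) {a P₀ X : ℕ} (ha : w ≤ a) (haP : a ≤ P₀)
    (hb : P₀ + X ≤ P) : (sdt F i₁ w r P G).Mi a P₀ X ≤ δ := by
  have h1 := sdt_full_sub h ha (show a ≤ P₀ + X by omega) hb
  obtain ⟨d, hd⟩ : ∃ d, d = sdt F i₁ w r P G := ⟨_, rfl⟩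
  rw [← hd] at h1 ⊢
  have hl : IsLaw d.P := by rw [hd]; exact F.isLaw
  have hp := hl.nonneg
  unfold SDat.Full at h1
  unfold SDat.Mi Pool.KVA.MI
  have h2 := CH_chain hp (d.cel (P₀ + X)) (d.ctx a (P₀ + X)) (d.ctx a P₀)
  have h3 : CH d.P (d.cel (P₀ + X)) (d.ctx a P₀) ≤
      m * (((P₀ + X : ℕ) - (a : ℝ)) * Real.log 2) := by
    have h4 : CH d.P (d.cel (P₀ + X)) (d.ctx a P₀) ≤
        CH d.P (d.cel (P₀ + X)) (fun ω => (d.cel a ω, ())) := by
      refine CH_mono_cond hp fun ω ω' _ _ e => ?_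
      have e1 : d.ctx a P₀ ω = d.ctx a P₀ ω' := e
      exact Prod.ext (Prod.ext_iff.mp (Prod.ext_iff.mp e1).2).1 rfl
    have h5 := CH_floor hl d.y (fun _ => ()) a (P₀ + X - a)
    have e : a + (P₀ + X - a) = P₀ + X := by omega
    rw [e, Nat.cast_sub (by omega)] at h5
    exact h4.trans h5
  have h4 : CH d.P (d.cel (P₀ + X)) (fun ω => ((d.L ω, d.W ω), d.cel a ω)) ≤
      CH d.P (d.cel (P₀ + X)) (fun ω => (d.ctx a (P₀ + X) ω, d.ctx a P₀ ω)) := by
    refine CH_mono_cond hp fun ω ω' _ _ e => ?_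
    obtain ⟨e1, e2⟩ := Prod.ext_iff.mp e
    obtain ⟨e3, e4⟩ := Prod.ext_iff.mp e1
    simp only at e2 e3 e4
    unfold SDat.ctx SDat.ger
    rw [e2, e3, e4]
  push_cast at h1 h3
  linarith

end Pool.OVN
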