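import Pool.Agent.H18.PB.Defs
import Pool.Agent.H35.K2S.Prod
import Pool.Agent.H78.KST.JetA

/-!
# From a code of small entropy to a visible label

If a code of the polynomial of a label has small entropy given the point of resolution `r'`, then
(stability) the label is visible at the resolution `r'`. The new polynomial is the polynomial of a
representative, contracted a little about the base point of the representative.
-/

set_option autoImplicit false

namespace Pool.OVN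

open Finset Real MvPolynomial
open Pool.Agent.H49.Ent Pool.Agent.H32.Dense Pool.STK Pool.KA Pool.KSAT Pool.K2S Pool.PB

section poly

variable {σ : Type} [Fintype σ] [DecidableEq σ]

/-- The derivative along a line. -/
theorem hasDerivAt_lin62 (P : MvPolynomial σ ℝ) (x v : σ → ℝ) (t : ℝ) :
    HasDerivAt (fun s : ℝ => eval (fun i => x i + s * v i) P)
      (∑ j, v j * eval (fun i => x i + t * v i) (pderiv j P)) t := by
  induction P using MvPolynomial.induction_on with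
  | C a =>
    simp only [eval_C, pderiv_C, map_zero, mul_zero, Finset.sum_const_zero]
    exact hasDerivAt_const t a
  | add p q hp hq =>
    simp only [map_add, mul_add, Finset.sum_add_distrib]
    exact hp.add hq
  | mul_X p i hp =>
    have h1 : HasDerivAt (fun s : ℝ => x i + s * v i) (v i) t := by
      have := ((hasDerivAt_id t).mul_const (v i)).const_add (x i)
      simpa using this
    have h2 := hp.mul h1
    have e : (∑ j, v j * eval (fun k => x k + t * v k) (pderiv j (p * X i))) =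
        (∑ j, v j * eval (fun k => x k + t * v k) (pderiv j p)) * (x i + t * v i) +
        eval (fun k => x k + t * v k) p * v i := by
      have e1 : ∀ j, v j * eval (fun k => x k + t * v k) (pderiv j (p * X i)) =
          v j * eval (fun k => x k + t * v k) (pderiv j p) * (x i + t * v i) +
          eval (fun k => x k + t * v k) p * (if i = j then v j else 0) := by
        intro j
        rw [pderiv_mul, pderiv_X]
        simp only [map_add, map_mul, eval_X, Pi.single_apply]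
        by_cases hij : i = j
        · simp only [hij, if_true, map_one]
          ring
        · simp only [hij, if_false, map_zero]
          ring
      rw [Finset.sum_congr rfl fun j _ => e1 j, Finset.sum_add_distrib, ← Finset.sum_mul,
        ← Finset.mul_sum, Finset.sum_ite_eq]
      simp
    rw [e]
    simp only [map_mul, eval_X]
    exact h2

/-- The mean value inequality. -/
theorem eval_sub_le (P : MvPolynomial σ ℝ) (x v : σ → ℝ) {M δ : ℝ} (hM : 0 ≤ M)
    (hP : ∀ s : ℝ, 0 ≤ s → s ≤ 1 → ∀ j, |eval (fun i => x i + s * v i) (pderiv j P)| ≤ M)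
    (hv : ∀ j, |v j| ≤ δ) :
    |eval (fun i => x i + v i) P - eval x P| ≤ Fintype.card σ * (M * δ) := by
  have h := Convex.norm_image_sub_le_of_norm_hasDerivWithin_le (𝕜 := ℝ)
    (f := fun s : ℝ => eval (fun i => x i + s * v i) P)
    (f' := fun t => ∑ j, v j * eval (fun i => x i + t * v i) (pderiv j P))
    (C := Fintype.card σ * (M * δ)) (s := Set.Icc (0 : ℝ) 1) (x := 0) (y := 1)
    (fun t _ => (hasDerivAt_lin62 P x v t).hasDerivWithinAt) ?_ (convex_Icc 0 1)
    (by simp) (by simp)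
  · simp only [zero_mul, add_zero, one_mul, sub_zero, norm_one, mul_one] at h
    exact h
  · intro t ht
    rw [Real.norm_eq_abs]
    refine (Finset.abs_sum_le_sum_abs _ _).trans ?_
    calc ∑ j, |v j * eval (fun i => x i + t * v i) (pderiv j P)|
        ≤ ∑ _j : σ, M * δ := by
          refine Finset.sum_le_sum fun j _ => ?_
          rw [abs_mul, mul_comm]
          exact mul_le_mul (hP t ht.1 ht.2 j) (hv j) (abs_nonneg _) hM
      _ = _ := by rw [Finset.sum_const, Finset.card_univ, nsmul_eq_mul]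

/-- The partial derivatives of the polynomial `u ↦ P (x + h u)`. -/
theorem eval_pderiv_shA (P : MvPolynomial σ ℝ) (hs x u : σ → ℝ) (j : σ) :
    eval u (pderiv j (Pool.KST.shA P hs x)) =
      hs j * eval (fun i => x i + hs i * u i) (pderiv j P) := by
  induction P using MvPolynomial.induction_on with
  | C a =>
    unfold Pool.KST.shA
    rw [aeval_C, pderiv_C, algebraMap_eq, pderiv_C]
    simp
  | add p q hp hq =>
    rw [Pool.KST.shA_add, map_add, map_add, hp, hq, map_add, map_add]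
    ring
  | mul_X p i hp =>
    have e : Pool.KST.shA (p * X i) hs x = Pool.KST.shA p hs x * (C (x i) + C (hs i) * X i) := by
      unfold Pool.KST.shA
      rw [map_mul, aeval_X]
    have e2 : pderiv j (C (x i) + C (hs i) * X i : MvPolynomial σ ℝ) =
        C (hs i) * Pi.single (M := fun _ => MvPolynomial σ ℝ) j 1 i := by
      rw [map_add, pderiv_C, pderiv_C_mul, pderiv_X, zero_add]
    have e3 : eval u (pderiv j (Pool.KST.shA p hs x * (C (x i) + C (hs i) * X i))) =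
        eval u (pderiv j (Pool.KST.shA p hs x)) * (x i + hs i * u i) +
          eval u (Pool.KST.shA p hs x) *
            (hs i * eval u (Pi.single (M := fun _ => MvPolynomial σ ℝ) j 1 i)) := by
      rw [pderiv_mul, e2]
      simp only [map_add, map_mul, eval_C, eval_X]
    have e4 : eval (fun i => x i + hs i * u i) (pderiv j (p * X i)) =
        eval (fun i => x i + hs i * u i) (pderiv j p) * (x i + hs i * u i) +
          eval (fun i => x i + hs i * u i) p *
            eval (fun i => x i + hs i * u i)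
              (Pi.single (M := fun _ => MvPolynomial σ ℝ) j 1 i) := by
      rw [pderiv_mul, pderiv_X]
      simp only [map_add, map_mul, eval_X]
    rw [e, e3, e4, hp, Pool.KST.eval_shA]
    by_cases hij : i = j
    · subst hij
      simp only [Pi.single_eq_same, map_one]
      ring
    · simp only [Pi.single_apply, hij, if_false, map_zero]
      ring

end poly

variable {m J : ℕ}

/-- **From codes to labels.** The polynomials of a label are contracted about representatives. -/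
theorem lab_of_code {F : Fam m J} {i₁ : Fin m} {r r' K a w P' P : ℕ} {A B : F.Ω → Prop}
    {G : (Fin m → ℤ) × (ℕ × F.ζ) → MvPolynomial (Fin m) ℝ}
    {H : ((Fin m → ℝ) × (Fin m → ℝ)) × F.ζ × ℕ → MvPolynomial (Fin m) ℝ}
    (hG : ∀ y, (G y).totalDegree ≤ K) (hH : ∀ s, (H s).totalDegree ≤ K)
    (hl : ∀ ω, A ω → |F.x ω i₁ - eval (bp F i₁ ω) (G (ptr F r ω))| ≤ 1 / 2 ^ P' ∧
      ∀ b : Fin m → ℝ, (∀ j, |b j - bp F i₁ ω j| ≤ 1 / 2 ^ a) →
        (∀ j, |eval b (pderiv j (G (ptr F r ω)))| ≤ 2 * m) ∧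
        |eval b (G (ptr F r ω)) - eval b (H (slam F w ω))| ≤ 1 / 2 ^ P')
    (har : a ≤ r') {ε : ℝ} {S : Type} (q : F.Ω → S)
    (hcode : ∀ ω ω', A ω → A ω' → ptr F r' ω = ptr F r' ω' → q ω = q ω' →
      ∀ b : Fin m → ℝ, (∀ j, |b j - bp F i₁ ω j| ≤ 1 / 2 ^ a) →
        (∀ j, |b j - bp F i₁ ω' j| ≤ 1 / 2 ^ a) →
        |eval b (G (ptr F r ω)) - eval b (G (ptr F r ω'))| ≤ ε)
    (hBA : Sub B A) (hB : Fn q (ptr F r') Eq B)
    (hP : ε + 4 * m ^ 2 / 2 ^ r' + 1 / 2 ^ P' ≤ 1 / 2 ^ P) : Lab F i₁ r' K a w P B := by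
  classical
  have hm0 : (0 : ℝ) ≤ m := Nat.cast_nonneg m
  have hr0 : (0 : ℝ) < 1 / 2 ^ r' := by positivity
  have ha0 : (0 : ℝ) < 1 / 2 ^ a := by positivity
  have hra : (1 : ℝ) / 2 ^ r' ≤ 1 / 2 ^ a := inv_mono har
  obtain ⟨ζ, hζ⟩ := hB
  -- the contraction factor
  obtain ⟨θ, hθ⟩ : ∃ θ : ℝ, θ = 2 ^ a / 2 ^ r' := ⟨_, rfl⟩
  have hθ0 : 0 < θ := by rw [hθ]; positivity
  have hθ1 : θ ≤ 1 := by
    rw [hθ, div_le_one (by positivity)]
    exact pow_le_pow_right₀ (by norm_num) har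
  have hθa : θ * (1 / 2 ^ a) = 1 / 2 ^ r' := by
    rw [hθ]
    field_simp
  -- representatives
  obtain ⟨rep, hrep⟩ : ∃ rep : (Fin m → ℤ) × (ℕ × F.ζ) → Option F.Ω, ∀ ω, B ω →
      ∃ ω₀, B ω₀ ∧ ptr F r' ω₀ = ptr F r' ω ∧ rep (ptr F r' ω) = some ω₀ := by
    refine ⟨fun y => if h : ∃ ω, B ω ∧ ptr F r' ω = y then some h.choose else none,
      fun ω hω => ?_⟩
    have hex : ∃ ω', B ω' ∧ ptr F r' ω' = ptr F r' ω := ⟨ω, hω, rfl⟩
    exact ⟨hex.choose, hex.choose_spec.1, hex.choose_spec.2, dif_pos hex⟩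
  refine ⟨fun y => (rep y).elim 0 fun ω₀ => Pool.KST.shA (G (ptr F r ω₀)) (fun _ => 1 - θ)
    (fun i => θ * bp F i₁ ω₀ i), H, fun y => ?_, hH, fun ω hω => ?_⟩
  · change ((rep y).elim (0 : MvPolynomial (Fin m) ℝ) fun ω₀ => Pool.KST.shA (G (ptr F r ω₀))
      (fun _ => 1 - θ) (fun i => θ * bp F i₁ ω₀ i)).totalDegree ≤ K
    cases h : rep y with
    | none =>
      change (0 : MvPolynomial (Fin m) ℝ).totalDegree ≤ K
      rw [totalDegree_zero]
      exact Nat.zero_le _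
    | some ω₀ =>
      exact (Pool.KST.totalDegree_shA_le (G (ptr F r ω₀)) (fun _ => 1 - θ)
        (fun i => θ * bp F i₁ ω₀ i)).trans (hG _)
  obtain ⟨ω₀, hω₀, hpt, hre⟩ := hrep ω hω
  simp only [hre, Option.elim]
  obtain ⟨g1, g2⟩ := hl ω (hBA ω hω)
  obtain ⟨g3, g4⟩ := hl ω₀ (hBA ω₀ hω₀)
  -- the base points are near
  have hbp : ∀ j, |bp F i₁ ω₀ j - bp F i₁ ω j| ≤ 1 / 2 ^ r' := by
    intro j
    unfold bp
    have hX : F.X r' ω₀ = F.X r' ω := (Prod.ext_iff.mp hpt).1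
    have hW : F.W ω₀ = F.W ω := (Prod.ext_iff.mp hpt).2
    by_cases hj : j = i₁
    · subst hj
      rw [Function.update_self, Function.update_self]
      have hT : F.T ω₀ = F.T ω := (Prod.ext_iff.mp hW).1
      unfold Fam.t
      rw [hT, sub_self, abs_zero]
      exact hr0.le
    · rw [Function.update_of_ne hj, Function.update_of_ne hj]
      have h1 : ⌊(2 : ℝ) ^ r' * F.x ω₀ j⌋ = ⌊(2 : ℝ) ^ r' * F.x ω j⌋ := congrFun hX j
      have h2 := Int.abs_sub_lt_one_of_floor_eq_floor h1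
      rw [← mul_sub, abs_mul, abs_of_pos (by positivity)] at h2
      rw [le_div_iff₀ (by positivity)]
      linarith
  have hq : q ω₀ = q ω := by
    rw [hζ ω₀ hω₀, hζ ω hω, hpt]
  -- the contracted point
  have key : ∀ b : Fin m → ℝ, (∀ j, |b j - bp F i₁ ω j| ≤ 1 / 2 ^ a) →
      (∀ j, |(θ * bp F i₁ ω₀ j + (1 - θ) * b j) - bp F i₁ ω₀ j| ≤ 1 / 2 ^ a) ∧
      (∀ j, |(θ * bp F i₁ ω₀ j + (1 - θ) * b j) - bp F i₁ ω j| ≤ 1 / 2 ^ a) ∧
      (∀ j, |(θ * bp F i₁ ω₀ j + (1 - θ) * b j) - b j| ≤ 2 / 2 ^ r') := by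
    intro b hb
    have hb0 : ∀ j, |b j - bp F i₁ ω₀ j| ≤ 1 / 2 ^ a + 1 / 2 ^ r' := by
      intro j
      have e : b j - bp F i₁ ω₀ j = (b j - bp F i₁ ω j) - (bp F i₁ ω₀ j - bp F i₁ ω j) := by ring
      rw [e]
      exact (abs_sub _ _).trans (add_le_add (hb j) (hbp j))
    refine ⟨fun j => ?_, fun j => ?_, fun j => ?_⟩
    · have e : (θ * bp F i₁ ω₀ j + (1 - θ) * b j) - bp F i₁ ω₀ j =
          (1 - θ) * (b j - bp F i₁ ω₀ j) := by ring
      rw [e, abs_mul, abs_of_nonneg (by linarith)]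
      have h1 : (1 - θ) * |b j - bp F i₁ ω₀ j| ≤ (1 - θ) * (1 / 2 ^ a + 1 / 2 ^ r') :=
        mul_le_mul_of_nonneg_left (hb0 j) (by linarith)
      have h2 : (1 - θ) * (1 / 2 ^ a + 1 / 2 ^ r') = (1 - θ ^ 2) * (1 / 2 ^ a) := by
        rw [← hθa]
        ring
      have h3 : (1 - θ ^ 2) * (1 / 2 ^ a) ≤ 1 * (1 / 2 ^ a) :=
        mul_le_mul_of_nonneg_right (by nlinarith) ha0.le
      linarith
    · have e : (θ * bp F i₁ ω₀ j + (1 - θ) * b j) - bp F i₁ ω j =
          θ * (bp F i₁ ω₀ j - bp F i₁ ω j) + (1 - θ) * (b j - bp F i₁ ω j) := by ring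
      rw [e]
      refine (abs_add_le _ _).trans ?_
      rw [abs_mul, abs_mul, abs_of_pos hθ0, abs_of_nonneg (by linarith : (0 : ℝ) ≤ 1 - θ)]
      have h1 : θ * |bp F i₁ ω₀ j - bp F i₁ ω j| ≤ θ * (1 / 2 ^ a) :=
        mul_le_mul_of_nonneg_left ((hbp j).trans hra) hθ0.le
      have h2 : (1 - θ) * |b j - bp F i₁ ω j| ≤ (1 - θ) * (1 / 2 ^ a) :=
        mul_le_mul_of_nonneg_left (hb j) (by linarith)
      linarith
    · have e : (θ * bp F i₁ ω₀ j + (1 - θ) * b j) - b j = -(θ * (b j - bp F i₁ ω₀ j)) := by ring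
      rw [e, abs_neg, abs_mul, abs_of_pos hθ0]
      have h1 : θ * |b j - bp F i₁ ω₀ j| ≤ θ * (1 / 2 ^ a + 1 / 2 ^ a) :=
        mul_le_mul_of_nonneg_left ((hb0 j).trans (by linarith)) hθ0.le
      have h2 : θ * (1 / 2 ^ a + 1 / 2 ^ a) = 2 / 2 ^ r' := by
        have : (2 : ℝ) / 2 ^ r' = 1 / 2 ^ r' + 1 / 2 ^ r' := by ring
        rw [this, ← hθa]
        ring
      linarith
  -- the values
  have hval : ∀ b : Fin m → ℝ, (∀ j, |b j - bp F i₁ ω j| ≤ 1 / 2 ^ a) →
      |eval b (Pool.KST.shA (G (ptr F r ω₀)) (fun _ => 1 - θ) (fun i => θ * bp F i₁ ω₀ i)) -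
        eval b (G (ptr F r ω))| ≤ ε + 4 * m ^ 2 / 2 ^ r' := by
    intro b hb
    obtain ⟨k1, k2, k3⟩ := key b hb
    rw [Pool.KST.eval_shA]
    have h1 := hcode ω ω₀ (hBA ω hω) (hBA ω₀ hω₀) hpt.symm hq.symm
      (fun i => θ * bp F i₁ ω₀ i + (1 - θ) * b i) k2 k1
    have h2 := eval_sub_le (G (ptr F r ω)) b
      (fun j => (θ * bp F i₁ ω₀ j + (1 - θ) * b j) - b j) (M := 2 * m) (δ := 2 / 2 ^ r')
      (by positivity) (fun s hs0 hs1 j => ?_) k3
    · have e : (fun i => b i + ((θ * bp F i₁ ω₀ i + (1 - θ) * b i) - b i)) =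
          fun i => θ * bp F i₁ ω₀ i + (1 - θ) * b i := by
        funext i
        ring
      rw [e, Fintype.card_fin] at h2
      have h3 : (m : ℝ) * (2 * m * (2 / 2 ^ r')) = 4 * m ^ 2 / 2 ^ r' := by ring
      rw [h3] at h2
      rw [abs_sub_comm] at h1
      have e2 : eval (fun i => θ * bp F i₁ ω₀ i + (1 - θ) * b i) (G (ptr F r ω₀)) -
          eval b (G (ptr F r ω)) =
          (eval (fun i => θ * bp F i₁ ω₀ i + (1 - θ) * b i) (G (ptr F r ω₀)) -
            eval (fun i => θ * bp F i₁ ω₀ i + (1 - θ) * b i) (G (ptr F r ω))) +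
          (eval (fun i => θ * bp F i₁ ω₀ i + (1 - θ) * b i) (G (ptr F r ω)) -
            eval b (G (ptr F r ω))) := by ring
      rw [e2]
      exact (abs_add_le _ _).trans (add_le_add h1 h2)
    · refine (g2 (fun i => b i + s * ((θ * bp F i₁ ω₀ i + (1 - θ) * b i) - b i))
        (fun i => ?_)).1 j
      have e : b i + s * ((θ * bp F i₁ ω₀ i + (1 - θ) * b i) - b i) - bp F i₁ ω i =
          (1 - s) * (b i - bp F i₁ ω i) +
            s * ((θ * bp F i₁ ω₀ i + (1 - θ) * b i) - bp F i₁ ω i) := by ring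
      rw [e]
      refine (abs_add_le _ _).trans ?_
      rw [abs_mul, abs_mul, abs_of_nonneg (by linarith : (0 : ℝ) ≤ 1 - s), abs_of_nonneg hs0]
      have h1 : (1 - s) * |b i - bp F i₁ ω i| ≤ (1 - s) * (1 / 2 ^ a) :=
        mul_le_mul_of_nonneg_left (hb i) (by linarith)
      have h2 : s * |(θ * bp F i₁ ω₀ i + (1 - θ) * b i) - bp F i₁ ω i| ≤ s * (1 / 2 ^ a) :=
        mul_le_mul_of_nonneg_left (k2 i) hs0
      linarith
  have hself : ∀ j, |bp F i₁ ω j - bp F i₁ ω j| ≤ 1 / 2 ^ a := fun j => by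
    rw [sub_self, abs_zero]
    exact ha0.le
  refine ⟨?_, fun b hb => ⟨fun j => ?_, ?_⟩⟩
  · have h1 := hval (bp F i₁ ω) hself
    rw [abs_sub_comm] at h1
    have e : F.x ω i₁ - eval (bp F i₁ ω) (Pool.KST.shA (G (ptr F r ω₀)) (fun _ => 1 - θ)
        (fun i => θ * bp F i₁ ω₀ i)) =
        (F.x ω i₁ - eval (bp F i₁ ω) (G (ptr F r ω))) +
        (eval (bp F i₁ ω) (G (ptr F r ω)) - eval (bp F i₁ ω) (Pool.KST.shA (G (ptr F r ω₀))
          (fun _ => 1 - θ) (fun i => θ * bp F i₁ ω₀ i))) := by ring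
    rw [e]
    refine (abs_add_le _ _).trans ?_
    linarith
  · rw [eval_pderiv_shA, abs_mul, abs_of_nonneg (by linarith : (0 : ℝ) ≤ 1 - θ)]
    have h1 := (g4 (fun i => θ * bp F i₁ ω₀ i + (1 - θ) * b i) (key b hb).1).1 j
    calc (1 - θ) * |eval (fun i => θ * bp F i₁ ω₀ i + (1 - θ) * b i)
          (pderiv j (G (ptr F r ω₀)))| ≤ 1 * (2 * m) :=
          mul_le_mul (by linarith) h1 (abs_nonneg _) zero_le_one
      _ = _ := one_mul _
  · have h1 := hval b hb
    have h2 := (g2 b hb).2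
    have e : eval b (Pool.KST.shA (G (ptr F r ω₀)) (fun _ => 1 - θ)
        (fun i => θ * bp F i₁ ω₀ i)) - eval b (H (slam F w ω)) =
        (eval b (Pool.KST.shA (G (ptr F r ω₀)) (fun _ => 1 - θ)
          (fun i => θ * bp F i₁ ω₀ i)) - eval b (G (ptr F r ω))) +
        (eval b (G (ptr F r ω)) - eval b (H (slam F w ω))) := by ring
    rw [e]
    refine (abs_add_le _ _).trans ?_
    linarith

/-- **From a small entropy to a label.** -/
theorem lab_of_CH {F : Fam m J} {i₁ : Fin m} {r r' K a w P' P : ℕ} {A : F.Ω → Prop}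
    {G : (Fin m → ℤ) × (ℕ × F.ζ) → MvPolynomial (Fin m) ℝ}
    {H : ((Fin m → ℝ) × (Fin m → ℝ)) × F.ζ × ℕ → MvPolynomial (Fin m) ℝ}
    (hG : ∀ y, (G y).totalDegree ≤ K) (hH : ∀ s, (H s).totalDegree ≤ K)
    (hl : ∀ ω, A ω → |F.x ω i₁ - eval (bp F i₁ ω) (G (ptr F r ω))| ≤ 1 / 2 ^ P' ∧
      ∀ b : Fin m → ℝ, (∀ j, |b j - bp F i₁ ω j| ≤ 1 / 2 ^ a) →
        (∀ j, |eval b (pderiv j (G (ptr F r ω)))| ≤ 2 * m) ∧
        |eval b (G (ptr F r ω)) - eval b (H (slam F w ω))| ≤ 1 / 2 ^ P')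
    (har : a ≤ r') {ε : ℝ} {S : Type} [Nonempty S] (q : F.Ω → S)
    (hcode : ∀ ω ω', A ω → A ω' → ptr F r' ω = ptr F r' ω' → q ω = q ω' →
      ∀ b : Fin m → ℝ, (∀ j, |b j - bp F i₁ ω j| ≤ 1 / 2 ^ a) →
        (∀ j, |b j - bp F i₁ ω' j| ≤ 1 / 2 ^ a) →
        |eval b (G (ptr F r ω)) - eval b (G (ptr F r ω'))| ≤ ε)
    (hP : ε + 4 * m ^ 2 / 2 ^ r' + 1 / 2 ^ P' ≤ 1 / 2 ^ P) {κ δ : ℝ} (hA : 0 < Pe F.p A)
    (hδ : 0 < δ) (hCH : CH (Pool.Agent.H49.Ent.cond F.p A True) q (ptr F r') ≤ δ)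
    (hκ : 2 * δ + Real.log 2 ≤ κ) (hs : Stb F.p κ A (Lab F i₁ r' K a w P)) :
    Lab F i₁ r' K a w P A := by
  have hp := F.isLaw
  obtain ⟨ζ, hζ⟩ := exists_fns_of_CH (n := 1) (S := fun _ => S)
    (T := fun _ => (Fin m → ℤ) × (ℕ × F.ζ))
    (isLaw_cond hp hA) (fun _ => q) (fun _ => ptr F r') hδ (fun _ => hCH)
  rw [Pe_cond, le_div_iff₀ hA] at hζ
  refine hs.of_sub (B := fun ω => A ω ∧ ∀ i : Fin 1, q ω = ζ i (ptr F r' ω))
    (fun ω hω => hω.1) ?_
    (lab_of_code hG hH hl har q hcode (fun ω hω => hω.1) ⟨ζ 0, fun ω hω => hω.2 0⟩ hP)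
  refine le_trans ?_ hζ
  refine mul_le_mul_of_nonneg_right ?_ hA.le
  have e : Real.exp (-(2 * ((1 : ℕ) : ℝ) ^ 2 * δ)) / 2 = Real.exp (-(2 * δ + Real.log 2)) := by
    rw [neg_add, Real.exp_add, Real.exp_neg (Real.log 2), Real.exp_log (by norm_num : (0:ℝ) < 2)]
    push_cast
    rw [one_pow, mul_one]
    rfl
  rw [e]
  exact Real.exp_le_exp.2 (by linarith)

end Pool.OVN
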