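import Pool.Agent.H4.KJ.J1A
import Pool.Agent.H50.K2.Piece
import Pool.Agent.H18.PB.Defs

/-!
# Exhaustion of an event by parts with small entropy
-/

set_option autoImplicit false

namespace Pool.OVN

open Finset Real
open Pool.Agent.H49.Ent Pool.Agent.H32.Dense Pool.STK Pool.KA Pool.KSAT Pool.K2S

variable {Ω S T : Type} [Fintype Ω]

theorem CH_split {p : Ω → ℝ} (hp : IsLaw p) {B B' : Ω → Prop} (hs : Sub B' B) (hB : 0 < Pe p B)
    (X : Ω → S) (Y : Ω → T) :
    Pe p B * CH (Pool.Agent.H49.Ent.cond p B True) X Y ≤ Pe p B * Real.log 2 +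
      Pe p B' * CH (Pool.Agent.H49.Ent.cond p B' True) X Y +
      Pe p (fun ω => B ω ∧ ¬ B' ω) *
        CH (Pool.Agent.H49.Ent.cond p (fun ω => B ω ∧ ¬ B' ω) True) X Y := by
  classical
  obtain ⟨q, hq⟩ : ∃ q, q = Pool.Agent.H49.Ent.cond p B True := ⟨_, rfl⟩
  have hql : IsLaw q := by rw [hq]; exact isLaw_cond hp hB
  have h1 := Pool.KJ.CH_two hql.nonneg X Y B'
  have h2 := CH_le_add hql.nonneg X (fun ω => decide (B' ω)) Y
  have h3 : CH q (fun ω => decide (B' ω)) Y ≤ Real.log 2 := by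
    have h4 := CH_le_card hql.nonneg hql.sum_one (fun ω => decide (B' ω)) Y
      (fun _ => (univ : Finset Bool)) (fun ω _ => Finset.mem_univ _)
    refine h4.trans (le_of_eq ?_)
    simp only [Finset.card_univ, Fintype.card_bool, Nat.cast_ofNat]
    exact Ex_const hql.sum_one _
  have h4 : CH q X (fun ω => (decide (B' ω), Y ω)) = CH q X (fun ω => (Y ω, decide (B' ω))) := by
    refine CH_congr hql.nonneg (fun _ _ _ _ h => (Prod.ext_iff.1 h).1)
      (fun _ _ _ _ h => (Prod.ext_iff.1 h).1) ?_ ?_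
    · intro ω ω' _ _ h
      exact Prod.ext (Prod.ext_iff.1 h).2 (Prod.ext_iff.1 h).1
    · intro ω ω' _ _ h
      exact Prod.ext (Prod.ext_iff.1 h).2 (Prod.ext_iff.1 h).1
  have hqB : ∀ ω, q ω ≠ 0 → B ω := by
    intro ω hω
    rw [hq] at hω
    unfold Pool.Agent.H49.Ent.cond at hω
    by_contra hcon
    exact hω (if_neg (fun h => hcon (of_eq_true h)))
  have e1 : Pool.Agent.H49.Ent.cond q B' False =
      Pool.Agent.H49.Ent.cond q (fun ω => B ω ∧ ¬ B' ω) True := by
    have hl : law q B' False = law q (fun ω => B ω ∧ ¬ B' ω) True := by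
      unfold law
      refine Finset.sum_congr rfl fun ω _ => ?_
      by_cases h0 : q ω = 0
      · rw [h0, ite_self, ite_self]
      · have hB0 := hqB ω h0
        by_cases h5 : B' ω <;> simp [h5, hB0]
    funext ω
    unfold Pool.Agent.H49.Ent.cond
    rw [hl]
    by_cases h0 : q ω = 0
    · rw [h0, zero_div, ite_self, ite_self]
    · have hB0 := hqB ω h0
      by_cases h5 : B' ω <;> simp [h5, hB0]
  have hs2 : Sub (fun ω => B ω ∧ ¬ B' ω) B := fun ω hω => hω.1
  have e2 := Piece.cond_cond hs hB.ne'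
  have e3 := Piece.cond_cond hs2 hB.ne'
  rw [← hq] at e2 e3
  have l1 : law q B' True = Pe p B' / Pe p B := by
    rw [hq]
    refine (Pe_cond (p := p) (A := B) B').trans ?_
    congr 1
    congr 1
    funext ω
    exact propext ⟨fun h' => h'.2, fun h' => ⟨hs ω h', h'⟩⟩
  have l2 : law q B' False = Pe p (fun ω => B ω ∧ ¬ B' ω) / Pe p B := by
    have h6 : law q B' True + law q B' False = 1 := by
      rw [← hql.sum_one]
      unfold law
      rw [← Finset.sum_add_distrib]
      refine Finset.sum_congr rfl fun ω _ => ?_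
      by_cases h : B' ω <;> simp [h]
    have h7 : Pe p B = Pe p B' + Pe p (fun ω => B ω ∧ ¬ B' ω) := by
      rw [Pe_eq, Pe_eq, Pe_eq, ← Finset.sum_add_distrib]
      refine Finset.sum_congr rfl fun ω _ => ?_
      by_cases h8 : B ω
      · by_cases h9 : B' ω <;> simp [h8, h9]
      · have h9 : ¬ B' ω := fun h => h8 (hs ω h)
        simp [h8, h9]
    rw [l1] at h6
    have h8 : law q B' False = 1 - Pe p B' / Pe p B := by linarith
    rw [h8, eq_div_iff hB.ne', sub_mul, div_mul_cancel₀ _ hB.ne', one_mul]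
    linarith
  rw [e1, e2, e3, l1, l2] at h1
  rw [← hq]
  have h5 : CH q X Y ≤ Real.log 2 + (Pe p B' / Pe p B * CH (Pool.Agent.H49.Ent.cond p B' True) X Y +
      Pe p (fun ω => B ω ∧ ¬ B' ω) / Pe p B *
        CH (Pool.Agent.H49.Ent.cond p (fun ω => B ω ∧ ¬ B' ω) True) X Y) := by
    linarith
  refine (mul_le_mul_of_nonneg_left h5 hB.le).trans (le_of_eq ?_)
  have h6 := hB.ne'
  field_simp
  ring

/-- **Exhaustion.** If each large part of `A` has a part of proportion `c` with the entropy at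
most `E`, then the entropy given `A` is at most `E` up to a constant. -/
theorem CH_exhaust {p : Ω → ℝ} (hp : IsLaw p) {A : Ω → Prop} (hA : 0 < Pe p A) (X : Ω → S)
    (Y : Ω → T) {c η E M : ℝ} (hc : 0 < c) (hc1 : c ≤ 1) (hη : 0 < η) (hM0 : 0 ≤ M)
    (hE0 : 0 ≤ E)
    (hM : ∀ B : Ω → Prop, Sub B A → 0 < Pe p B → CH (Pool.Agent.H49.Ent.cond p B True) X Y ≤ M)
    (hE : ∀ B : Ω → Prop, Sub B A → η * Pe p A ≤ Pe p B → ∃ B' : Ω → Prop, Sub B' B ∧
      c * Pe p B ≤ Pe p B' ∧ CH (Pool.Agent.H49.Ent.cond p B' True) X Y ≤ E) :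
    CH (Pool.Agent.H49.Ent.cond p A True) X Y ≤ E + Real.log 2 / c + η * M := by
  classical
  have hl2 : 0 < Real.log 2 := Real.log_pos (by norm_num)
  have key : ∀ n : ℕ, ∀ B : Ω → Prop, Sub B A → 0 < Pe p B →
      Pe p B * CH (Pool.Agent.H49.Ent.cond p B True) X Y ≤
        Pe p B * E + Pe p B * (Real.log 2 / c) + max ((1 - c) ^ n * Pe p B) (η * Pe p A) * M := by
    intro n
    induction n with
    | zero =>
      intro B hB hPB
      have h1 := mul_le_mul_of_nonneg_left (hM B hB hPB) hPB.le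
      have h2 : Pe p B * M ≤ max ((1 - c) ^ 0 * Pe p B) (η * Pe p A) * M :=
        mul_le_mul_of_nonneg_right (by rw [pow_zero, one_mul]; exact le_max_left _ _) hM0
      have h3 : 0 ≤ Pe p B * E := mul_nonneg hPB.le hE0
      have h4 : 0 ≤ Pe p B * (Real.log 2 / c) := mul_nonneg hPB.le (div_nonneg hl2.le hc.le)
      linarith
    | succ n ih =>
      intro B hB hPB
      by_cases hsm : Pe p B < η * Pe p A
      · have h1 := mul_le_mul_of_nonneg_left (hM B hB hPB) hPB.le
        have h2 : Pe p B * M ≤ max ((1 - c) ^ (n + 1) * Pe p B) (η * Pe p A) * M :=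
          mul_le_mul_of_nonneg_right (hsm.le.trans (le_max_right _ _)) hM0
        have h3 : 0 ≤ Pe p B * E := mul_nonneg hPB.le hE0
        have h4 : 0 ≤ Pe p B * (Real.log 2 / c) := mul_nonneg hPB.le (div_nonneg hl2.le hc.le)
        linarith
      · obtain ⟨B', hs, hPB', hEB'⟩ := hE B hB (not_lt.1 hsm)
        have h7 : Pe p B = Pe p B' + Pe p (fun ω => B ω ∧ ¬ B' ω) := by
          rw [Pe_eq, Pe_eq, Pe_eq, ← Finset.sum_add_distrib]
          refine Finset.sum_congr rfl fun ω _ => ?_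
          by_cases h8 : B ω
          · by_cases h9 : B' ω <;> simp [h8, h9]
          · have h9 : ¬ B' ω := fun h => h8 (hs ω h)
            simp [h8, h9]
        have h8 : Pe p (fun ω => B ω ∧ ¬ B' ω) ≤ (1 - c) * Pe p B := by linarith
        have h9 : 0 ≤ Pe p (fun ω => B ω ∧ ¬ B' ω) := Pe_nonneg hp _
        have h10 : 0 ≤ Pe p B' := Pe_nonneg hp _
        have h11 := CH_split hp hs hPB X Y
        have h12 : Pe p B' * CH (Pool.Agent.H49.Ent.cond p B' True) X Y ≤ Pe p B' * E :=
          mul_le_mul_of_nonneg_left hEB' h10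
        have h13 : Pe p (fun ω => B ω ∧ ¬ B' ω) *
            CH (Pool.Agent.H49.Ent.cond p (fun ω => B ω ∧ ¬ B' ω) True) X Y ≤
            Pe p (fun ω => B ω ∧ ¬ B' ω) * E +
            Pe p (fun ω => B ω ∧ ¬ B' ω) * (Real.log 2 / c) +
            max ((1 - c) ^ (n + 1) * Pe p B) (η * Pe p A) * M := by
          rcases h9.eq_or_lt with h0 | h0
          · rw [← h0, zero_mul, zero_mul, zero_mul, zero_add, zero_add]
            refine mul_nonneg (le_max_of_le_right ?_) hM0
            positivity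
          · refine (ih _ (fun ω hω => hB ω hω.1) h0).trans ?_
            have h14 : (1 - c) ^ n * Pe p (fun ω => B ω ∧ ¬ B' ω) ≤ (1 - c) ^ (n + 1) * Pe p B := by
              have h15 : (0 : ℝ) ≤ (1 - c) ^ n := pow_nonneg (by linarith) _
              refine (mul_le_mul_of_nonneg_left h8 h15).trans (le_of_eq ?_)
              ring
            have h16 : max ((1 - c) ^ n * Pe p (fun ω => B ω ∧ ¬ B' ω)) (η * Pe p A) * M ≤
                max ((1 - c) ^ (n + 1) * Pe p B) (η * Pe p A) * M :=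
              mul_le_mul_of_nonneg_right (max_le_max h14 le_rfl) hM0
            linarith
        have h17 : Pe p (fun ω => B ω ∧ ¬ B' ω) * (Real.log 2 / c) ≤
            Pe p B * (Real.log 2 / c) - Pe p B * Real.log 2 := by
          have h18 := mul_le_mul_of_nonneg_right h8 (div_nonneg hl2.le hc.le)
          refine h18.trans (le_of_eq ?_)
          field_simp
        have h19 : Pe p B * E = Pe p B' * E + Pe p (fun ω => B ω ∧ ¬ B' ω) * E := by
          rw [← add_mul, ← h7]
        linarith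
  obtain ⟨n, hn⟩ := exists_pow_lt_of_lt_one hη (show 1 - c < 1 by linarith)
  have h1 := key n A (fun ω h => h) hA
  have h2 : max ((1 - c) ^ n * Pe p A) (η * Pe p A) = η * Pe p A :=
    max_eq_right (mul_le_mul_of_nonneg_right hn.le hA.le)
  rw [h2] at h1
  have h3 : Pe p A * CH (Pool.Agent.H49.Ent.cond p A True) X Y ≤
      Pe p A * (E + Real.log 2 / c + η * M) := by
    refine h1.trans (le_of_eq ?_)
    ring
  exact le_of_mul_le_mul_left h3 hA

end Pool.OVN
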