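import Pool.Agent.H62.OVN.Ev2

/-!
# Own-visibility of the ball labels: `OVF` from `OV0Stmt`
-/

set_option autoImplicit false

namespace Pool.OVN

open Finset Real MvPolynomial
open Pool.Agent.H49.Ent Pool.Agent.H32.Dense Pool.STK Pool.KA Pool.KSAT Pool.K2S Pool.KS3
open Pool.KAL Pool.PB Pool.KST Pool.FLF

variable {m : ℕ}

/-- **(OVF) with one scale**, with the spread as a hypothesis of the family. -/
theorem ovf2_of_ov0 (hOV : OV0Stmt) (m K : ℕ) (c h₁ x ε : ℝ) (hc : 0 < c) (hh₁ : 0 < h₁)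
    (hx : 0 < x) (hε : 0 < ε) :
    ∃ g : ℝ, 0 < g ∧ ∀ (S : FCl m) (ψ : ℝ), 0 < ψ → ∀ i₁ : Fin m,
      Clg S (fun J F A => Sp F (m - 2) ψ g A → Ch F i₁ ⌊h₁ * J⌋₊ A →
        ∀ (r w P P₁ P₂ : ℕ) (G : (Fin m → ℤ) × (ℕ × F.ζ) → MvPolynomial (Fin m) ℝ)
          (H : ((Fin m → ℝ) × (Fin m → ℝ)) × F.ζ × ℕ → MvPolynomial (Fin m) ℝ),
          LabW F i₁ r K w w P G H A → w ≤ P₁ → P₁ + x * J ≤ P₂ → P₂ ≤ P → P ≤ r → r ≤ J →
          Zm F c P₁ P₂ A →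
          CH (Pool.Agent.H49.Ent.cond F.p A True)
            (fun ω => Pool.OVN.hz P₁ (Pool.OVN.pul w (bcel F i₁ w ω) (G (ptr F r ω))))
            (ptr F P₂) ≤ ε * J) := by
  classical
  rcases Nat.eq_zero_or_pos m with h0 | hm
  · subst h0
    exact ⟨1, one_pos, fun _ _ _ i₁ => i₁.elim0⟩
  have hl2 : 0 < Real.log 2 := Real.log_pos (by norm_num)
  have hm0 : (0 : ℝ) < m := by exact_mod_cast hm
  obtain ⟨c', hc'⟩ : ∃ c' : ℝ, c' = min c m := ⟨_, rfl⟩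
  have hc'0 : 0 < c' := by rw [hc']; exact lt_min hc hm0
  have hc'm : c' ≤ m := by rw [hc']; exact min_le_right _ _
  have hc'c : c' ≤ c := by rw [hc']; exact min_le_left _ _
  obtain ⟨D, c₀, hOK⟩ := sdt_ok m K
  obtain ⟨κ, π₀, δ₀, C, X₀, hκ, hκ1, hπ₀, hδ₀, hOV'⟩ := hOV m K (c' / 8 / 2) (ε / 8) D
    (by positivity) (by positivity)
  obtain ⟨q, hq⟩ := exists_nat_ge (16 / κ)
  have hqκ : 16 ≤ κ * q := by
    rw [div_le_iff₀ hκ] at hq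
    linarith
  have hq1 : 1 ≤ q := by
    by_contra hcon
    have : q = 0 := by omega
    rw [this] at hqκ
    norm_num at hqκ
  obtain ⟨M, hM⟩ := exists_scales q hq1 (c' / 4 / m) (by positivity)
  have hM := hM M le_rfl
  obtain ⟨R, hR⟩ := exists_nat_ge (max 1 (8 * |C| / ε))
  have hR0 : 0 < R := by
    have : (1 : ℝ) ≤ R := (le_max_left _ _).trans hR
    exact_mod_cast this
  have hRC : 8 * |C| ≤ ε * R := by
    have h := (le_max_right _ _).trans hR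
    rw [div_le_iff₀ hε] at h
    linarith
  obtain ⟨n, hn⟩ : ∃ n, n = R * q ^ M := ⟨_, rfl⟩
  have hn0 : 0 < n := by
    rw [hn]
    have : 0 < q ^ M := by positivity
    positivity
  obtain ⟨N, hN⟩ := exists_nat_ge (max 1 (max (16 * m / (c' * x)) (8 / x)))
  have hN0 : 0 < N := by
    have : (1 : ℝ) ≤ N := (le_max_left _ _).trans hN
    exact_mod_cast this
  have hN1 : 16 * m ≤ c' * x * N := by
    have h := ((le_max_left _ _).trans (le_max_right _ _)).trans hN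
    rw [div_le_iff₀ (by positivity)] at h
    linarith
  have hN2 : 8 ≤ x * N := by
    have h := ((le_max_right _ _).trans (le_max_right _ _)).trans hN
    rw [div_le_iff₀ hx] at h
    linarith
  obtain ⟨x₂, hx₂⟩ : ∃ x₂ : ℝ, x₂ = x / (4 * n) := ⟨_, rfl⟩
  have hx₂0 : 0 < x₂ := by rw [hx₂]; positivity
  obtain ⟨c₁, hc₁, hex⟩ := exact_lab m K
  obtain ⟨C₂, hC₂, hcode⟩ := code_le m K
  obtain ⟨C₃, hC₃, hful⟩ := full_event m
  obtain ⟨c₃, hc₃⟩ : ∃ c₃ : ℝ, c₃ = min c₁ 1 := ⟨_, rfl⟩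
  have hc₃0 : 0 < c₃ := by rw [hc₃]; exact lt_min hc₁ one_pos
  have hc₃1 : c₃ ≤ 1 := by rw [hc₃]; exact min_le_right _ _
  have hc₃c : c₃ ≤ c₁ := by rw [hc₃]; exact min_le_left _ _
  obtain ⟨η, hη⟩ : ∃ η : ℝ, η = ε / (16 * (C₂ + 1)) := ⟨_, rfl⟩
  have hη0 : 0 < η := by rw [hη]; positivity
  have hηC : η * C₂ ≤ ε / 16 := by
    rw [hη, div_mul_eq_mul_div, div_le_div_iff₀ (by positivity) (by norm_num)]
    nlinarith only [hε, hC₂]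
  obtain ⟨κf, hκf⟩ := exists_nat_ge (max 1 (C₃ / (δ₀ * x₂ / 8)))
  have hκf1 : 1 ≤ κf := by
    have : (1 : ℝ) ≤ κf := (le_max_left _ _).trans hκf
    exact_mod_cast this
  have hκfC : C₃ ≤ δ₀ * x₂ / 8 * κf := by
    have h := (le_max_right _ _).trans hκf
    rw [div_le_iff₀ (by positivity)] at h
    linarith
  obtain ⟨g, hg⟩ : ∃ g : ℝ, g = min (h₁ / 2) (δ₀ * x₂ / 8 / (C₃ * m + 1)) := ⟨_, rfl⟩
  have hg0 : 0 < g := by rw [hg]; exact lt_min (by positivity) (by positivity)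
  have hgh : g ≤ h₁ / 2 := by rw [hg]; exact min_le_left _ _
  have hgC : C₃ * m * g ≤ δ₀ * x₂ / 8 := by
    have h : g ≤ δ₀ * x₂ / 8 / (C₃ * m + 1) := by rw [hg]; exact min_le_right _ _
    rw [le_div_iff₀ (by positivity)] at h
    nlinarith only [h, hg0]
  obtain ⟨g₁, hg₁, hg₁m⟩ : ∃ g₁ : ℕ, 2 ≤ g₁ ∧ 4 * (m : ℝ) ≤ 2 ^ g₁ := by
    refine ⟨4 * m + 2, by omega, ?_⟩
    have h : ((4 * m + 2 : ℕ) : ℝ) ≤ 2 ^ (4 * m + 2) := by
      exact_mod_cast Nat.lt_two_pow_self.le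
    push_cast at h
    linarith
  obtain ⟨g₂, hg₂⟩ : ∃ g₂ : ℕ, (m.factorial : ℝ) * 2 ^ m ≤ 2 ^ g₂ := by
    refine ⟨m.factorial * 2 ^ m, ?_⟩
    have h : ((m.factorial * 2 ^ m : ℕ) : ℝ) ≤ 2 ^ (m.factorial * 2 ^ m) := by
      exact_mod_cast Nat.lt_two_pow_self.le
    push_cast at h
    exact h
  refine ⟨g, hg0, ?_⟩
  rintro S ψ hψ i₁
  obtain ⟨ρ₀, hρ₀⟩ : ∃ ρ₀ : ℝ, ρ₀ = c' * κ * x₂ * Real.log 2 / 128 := ⟨_, rfl⟩
  have hρ₀0 : 0 < ρ₀ := by rw [hρ₀]; positivity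
  obtain ⟨τ, hτ⟩ : ∃ τ : ℝ, τ = min (δ₀ * x₂ / 8 / (6 * m)) (ρ₀ * π₀ / 6) := ⟨_, rfl⟩
  have hτ0 : 0 < τ := by rw [hτ]; exact lt_min (by positivity) (by positivity)
  have hτ1 : 6 * m * τ ≤ δ₀ * x₂ / 8 := by
    have h : τ ≤ δ₀ * x₂ / 8 / (6 * m) := by rw [hτ]; exact min_le_left _ _
    rw [le_div_iff₀ (by positivity)] at h
    linarith
  have hτ2 : 6 * τ / π₀ ≤ ρ₀ := by
    have h : τ ≤ ρ₀ * π₀ / 6 := by rw [hτ]; exact min_le_right _ _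
    rw [div_le_iff₀ hπ₀]
    linarith
  obtain ⟨lc, hlc⟩ : ∃ lc : ℝ, lc = Real.log (1 / (c₃ * η)) := ⟨_, rfl⟩
  have hlce : Real.exp (-lc) = c₃ * η := by
    rw [hlc, ← Real.log_inv, one_div, inv_inv, Real.exp_log (by positivity)]
  -- large `J`
  have hev : ∀ a : ℝ, ∀ᶠ J : ℕ in Filter.atTop, a ≤ (J : ℝ) := fun a =>
    tendsto_natCast_atTop_atTop.eventually_ge_atTop a
  obtain ⟨J₂, hJ₂⟩ := Filter.eventually_atTop.1
    ((hev (2 * N * (c₀ + 1))).and ((hev (4 * n / x)).and ((hev (X₀ / x₂)).and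
    ((hev (4 / h₁)).and ((hev ((m * |lc| + C₃ * (m * g₁ + g₂ + κf + 1)) / (δ₀ * x₂ / 8))).and
    ((hev (64 * C₃ / (ψ * (δ₀ * x₂)))).and
    ((hev (((|lc| + Real.log 2) / π₀ + 4 * cc m) / ρ₀)).and
    ((hev (2 * |lc| / ψ)).and ((hev (Real.log 2 / c₃ / (ε / 8))).and
    ((hev (2 / (κ * x₂))).and (hev 1)))))))))))
  refine Clg.mono (J₂ := J₂) ((Clg.finite (ι := Fin (2 * N) × Fin (2 * N)) (fun v =>
    Clg.cnd (P := (v.1 : ℕ) < v.2) (fun hv => zone_cn S hm (c := c' / 2) (by positivity)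
    (by linarith only [hc'0, hc'm]) N v.1 v.2 n hN0 hv hn0))).and (Clg.of hτ0 0
    (fun J _ F A (hSt : S.St τ F A) => hSt))) ?_
  rintro J hJ F A ⟨hzone, hSt⟩ hSp hCh r w P P₁ P₂ G H hlab hwP₁ h12 hP₂P hPr hrJ hZ
  obtain ⟨j1, j2, j3, j4, j5, j6, j7, j8, j9, j10, j11⟩ := hJ₂ J hJ
  have hJ0 : (0 : ℝ) < J := by linarith only [j11]
  have hA : 0 < Pe F.p A := lt_of_lt_of_le (Real.exp_pos _) hSt.2
  have hP₂J : P₂ ≤ J := by omega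
  have hP₁P₂ : P₁ ≤ P₂ := by
    have h : 0 ≤ x * (J : ℝ) := by positivity
    have : (P₁ : ℝ) ≤ P₂ := by linarith only [h, h12]
    exact_mod_cast this
  have hwJ : w ≤ J := by omega
  have hwr : w ≤ r := by omega
  have hZ' : Zm F c' P₁ P₂ A := by
    unfold Zm at hZ ⊢
    refine hZ.trans (mul_le_mul_of_nonneg_right (by linarith only [hc'c]) ?_)
    have : (P₁ : ℝ) ≤ P₂ := by exact_mod_cast hP₁P₂
    exact mul_nonneg (by linarith only [this]) hl2.le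
  have hJN : 2 * N * (c₀ + 1) ≤ J := by exact_mod_cast j1
  obtain ⟨p₁, p₂, hp, hp2, ha1, ha2, hΔ, hZm⟩ :=
    zm_mesh hA hc'0 hc'm hx hN0 hN1 hN2 hJN h12 hP₂J hZ'
  obtain ⟨Q₁, hQ₁⟩ : ∃ Q₁, Q₁ = p₁ * (J / N) := ⟨_, rfl⟩
  obtain ⟨Q₂, hQ₂⟩ : ∃ Q₂, Q₂ = p₂ * (J / N) := ⟨_, rfl⟩
  rw [← hQ₁, ← hQ₂] at hΔ hZm
  rw [← hQ₁] at ha1
  rw [← hQ₂] at ha2
  obtain ⟨u, hu⟩ : ∃ u, u = (Q₂ - Q₁) / n := ⟨_, rfl⟩
  obtain ⟨hf, hf1, hf2⟩ := hzone (⟨p₁, by omega⟩, ⟨p₂, hp2⟩) hp Q₁ Q₂ u hQ₁ hQ₂ hu hZm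
  have hQ12 : Q₁ ≤ Q₂ := by
    have h : 0 ≤ x / 2 * (J : ℝ) := by positivity
    have : (Q₁ : ℝ) ≤ Q₂ := by linarith only [h, hΔ]
    exact_mod_cast this
  have hux : x₂ * J ≤ u := num_u hx hn0 hx₂ hu hQ12 hΔ j2
  have hx₂J : 0 < x₂ * J := by positivity
  have hur : (0 : ℝ) < u := lt_of_lt_of_le hx₂J hux
  have hu0 : 0 < u := by exact_mod_cast hur
  have hnu : R * q ^ M * u ≤ Q₂ - Q₁ := by
    rw [← hn, hu]
    exact Nat.mul_div_le _ _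
  obtain ⟨ρ, hρ, n', hn', k, hk, hblk⟩ := pig_zone (c := c' / 4) (R := R) (u := u) hm hq1 hR0 hu0
    (by positivity) hM hf (fun i hi => (hf1 i (by rw [hn]; exact hi)).1) (by
      rw [← hn]
      refine hf2.trans (le_of_eq ?_)
      ring)
  obtain ⟨P₀, hP₀⟩ : ∃ P₀, P₀ = Q₁ + (ρ * q ^ M + k * q * q ^ n') * u := ⟨_, rfl⟩
  obtain ⟨h', hh'⟩ : ∃ h', h' = q ^ n' * u := ⟨_, rfl⟩
  have hend : P₀ + q * h' ≤ Q₂ := by
    rw [hP₀, hh']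
    exact blk_le hn' hk hρ hnu hQ12
  have hP₀1 : P₁ ≤ P₀ := by omega
  have hqn : 1 ≤ q ^ n' := Nat.one_le_pow _ _ hq1
  have hh'0 : 0 < h' := by
    rw [hh']
    positivity
  have hXu : u ≤ q * h' := by
    rw [hh']
    calc u = 1 * (1 * u) := by ring
      _ ≤ _ := Nat.mul_le_mul hq1 (Nat.mul_le_mul_right _ hqn)
  have hXr : x₂ * J ≤ ((q * h' : ℕ) : ℝ) := by
    have : (u : ℝ) ≤ ((q * h' : ℕ) : ℝ) := by exact_mod_cast hXu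
    linarith only [this, hux]
  have hRX : (R : ℝ) * ((q * h' : ℕ) : ℝ) ≤ J := by
    have h1 : R * (q * h') ≤ J := by
      rw [hh']
      have := len_le (R := R) (u := u) hn' hq1
      omega
    exact_mod_cast h1
  have hCX : C * ((q * h' : ℕ) : ℝ) ≤ ε / 8 * J := by
    obtain ⟨X, hX⟩ : ∃ X : ℝ, X = ((q * h' : ℕ) : ℝ) := ⟨_, rfl⟩
    rw [← hX] at hRX hXr ⊢
    have hX0 : (0 : ℝ) < X := by linarith only [hXr, hx₂J]
    have h1 : C * X ≤ |C| * X := mul_le_mul_of_nonneg_right (le_abs_self _) hX0.le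
    have h2 : 8 * |C| * X ≤ ε * R * X := mul_le_mul_of_nonneg_right hRC hX0.le
    have h3 : ε * (R * X) ≤ ε * J := mul_le_mul_of_nonneg_left hRX hε.le
    linarith only [h1, h2, h3]
  have hk8 : 8 * h' ≤ ⌊κ * ((q * h' : ℕ) : ℝ)⌋₊ := by
    refine Nat.le_floor ?_
    have h1 : (0 : ℝ) < h' := by exact_mod_cast hh'0
    push_cast
    have := mul_le_mul_of_nonneg_right hqκ h1.le
    linarith only [h1, this]
  have hcnbl : ∀ j < q, ∀ i < q ^ n', Cn (F.X (Q₁ + ((ρ * q ^ M + (k * q + j) * q ^ n') + i + 1) * u))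
      (ptr F (Q₁ + ((ρ * q ^ M + (k * q + j) * q ^ n') + i) * u))
      (hf ((ρ * q ^ M + (k * q + j) * q ^ n') + i)) A := by
    intro j hj i hi
    refine (hf1 _ ?_).2
    rw [hn]
    exact idx_lt hn' hk hρ hj hi
  -- the exhaustion
  have hexh := CH_exhaust F.isLaw hA
    (fun ω => hz P₁ (pul w (bcel F i₁ w ω) (G (ptr F r ω)))) (ptr F P₂)
    (c := c₃) (η := η) (E := ε / 8 * J + ε / 8 * J) (M := C₂ * (P₁ + 1)) hc₃0 hc₃1 hη0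
    (by positivity) (by positivity)
    (fun B hB hPB => hcode J F i₁ r w P P₁ P₂ G H B (hlab.sub hB) (by omega) hP₂J hPB) ?_
  · refine hexh.trans ?_
    have h1 : Real.log 2 / c₃ ≤ ε / 8 * J := by
      rw [div_le_iff₀ (by positivity)] at j9
      linarith only [j9]
    have h2 : η * (C₂ * ((P₁ : ℝ) + 1)) ≤ ε / 16 * (2 * J) := by
      rw [← mul_assoc]
      have h3 : (P₁ : ℝ) ≤ J := by exact_mod_cast (by omega : P₁ ≤ J)
      exact mul_le_mul hηC (by linarith only [h3, j11]) (by positivity) (by positivity)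
    have h4 : 0 < ε * J := mul_pos hε hJ0
    linarith only [h1, h2, h4]
  · intro B hB hPB
    obtain ⟨B', hs', hP', cl, v, hcl, hzz⟩ := hex J F i₁ r w P B G H hwJ hwr (hlab.sub hB)
    have hPA : Real.exp (-lc) * Pe F.p A ≤ Pe F.p B' := by
      rw [hlce]
      have h1 : c₃ * (η * Pe F.p A) ≤ c₁ * Pe F.p B :=
        mul_le_mul hc₃c hPB (by positivity) hc₁.le
      linarith only [h1, hP']
    have hB'pos : 0 < Pe F.p B' := lt_of_lt_of_le (mul_pos (Real.exp_pos _) hA) hPA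
    have hBpos : 0 ≤ Pe F.p B := Pe_nonneg F.isLaw _
    refine ⟨B', hs', (mul_le_mul_of_nonneg_right hc₃c hBpos).trans hP', ?_⟩
    have hsA : Sub B' A := hs'.trans hB
    have hlab' : LabW F i₁ r K w w P G H B' := hlab.sub hsA
    -- the rows
    have hrow : ∀ E : (Fam.sub F B' hB'pos).Ω → Prop, 0 < Pe (Fam.sub F B' hB'pos).p E →
        ∀ j < q, CH (Pool.Agent.H49.Ent.cond (Fam.sub F B' hB'pos).p E True)
          ((Fam.sub F B' hB'pos).X (P₀ + (j + 1) * h'))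
          (ptr (Fam.sub F B' hB'pos) (P₀ + j * h')) ≤ (m - c' / 8) * (h' * Real.log 2) := by
      intro E hE j hj
      have h1 := hrow_of_cn hsA hB'pos (P₁ := Q₁) (u := u)
        (a := ρ * q ^ M + (k * q + j) * q ^ n') (n := q ^ n') (h := hf) (hcnbl j hj) E hE
      have e1 : Q₁ + (ρ * q ^ M + (k * q + j) * q ^ n') * u = P₀ + j * h' := by
        rw [hP₀, hh']
        ring
      have e2 : Q₁ + (ρ * q ^ M + (k * q + j) * q ^ n') * u + q ^ n' * u = P₀ + (j + 1) * h' := by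
        rw [e1, hh']
        ring
      rw [e2, e1] at h1
      refine h1.trans ((hblk j hj).trans (le_of_eq ?_))
      rw [hh']
      push_cast
      ring
    have hfin := evt_two hOK hOV' hful hC₃ hm0 hc'0 hκ hπ₀ hδ₀ hx₂0 hκf1 hκfC hg0 hgh hgC hg₁
      hg₁m hg₂ hψ hτ0 hρ₀ hτ1 hτ2 hh₁ hJ0 j3 j4 j5 j6 j7 j8 j10 hSt hsA hB'pos hPA hCh hSp hlab'
      hcl hzz hwr hrJ hwP₁ hP₀1 (show P₀ + q * h' ≤ P₂ by omega) hP₂J
      (show P₀ + q * h' + c₀ ≤ P by omega) hh'0 hXr hk8 hrow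
    refine hfin.trans ?_
    have h1 : (P₀ : ℝ) - w ≤ J := by
      have h2 : (P₀ : ℝ) ≤ J := by exact_mod_cast (by omega : P₀ ≤ J)
      have h3 : (0 : ℝ) ≤ w := Nat.cast_nonneg w
      linarith only [h2, h3]
    have h4 : ε / 8 * ((P₀ : ℝ) - w) ≤ ε / 8 * J := mul_le_mul_of_nonneg_left h1 (by positivity)
    linarith only [h4, hCX]

/-- **(OVF) with one scale**: the scale of the spread is chosen before the class. -/
theorem ovf1_of_ov0 (hOV : OV0Stmt) (m K : ℕ) (c h₁ x ε : ℝ) (hc : 0 < c) (hh₁ : 0 < h₁)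
    (hx : 0 < x) (hε : 0 < ε) :
    ∃ g : ℝ, 0 < g ∧ ∀ S : FCl m,
      (∃ ψ : ℝ, 0 < ψ ∧ Clg S (fun _ F A => Sp F (m - 2) ψ g A)) → ∀ i₁ : Fin m,
      Clg S (fun J F A => Ch F i₁ ⌊h₁ * J⌋₊ A →
        ∀ (r w P P₁ P₂ : ℕ) (G : (Fin m → ℤ) × (ℕ × F.ζ) → MvPolynomial (Fin m) ℝ)
          (H : ((Fin m → ℝ) × (Fin m → ℝ)) × F.ζ × ℕ → MvPolynomial (Fin m) ℝ),
          LabW F i₁ r K w w P G H A → w ≤ P₁ → P₁ + x * J ≤ P₂ → P₂ ≤ P → P ≤ r → r ≤ J →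
          Zm F c P₁ P₂ A →
          CH (Pool.Agent.H49.Ent.cond F.p A True)
            (fun ω => Pool.OVN.hz P₁ (Pool.OVN.pul w (bcel F i₁ w ω) (G (ptr F r ω))))
            (ptr F P₂) ≤ ε * J) := by
  obtain ⟨g, hg, h⟩ := ovf2_of_ov0 hOV m K c h₁ x ε hc hh₁ hx hε
  refine ⟨g, hg, ?_⟩
  rintro S ⟨ψ, hψ, hS⟩ i₁
  exact Clg.mono (J₂ := 0) ((h S ψ hψ i₁).and hS) fun J _ F A hA => hA.1 hA.2

/-- **(OVF)** from the abstract theorem. -/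
theorem ovf_of_ov0 (hOV : OV0Stmt) (S : FCl m) (hS : SPS S (m - 2)) : OVF S := by
  intro K c h₁ x ε hc hh₁ hx hε i₁
  obtain ⟨g, hg, h⟩ := ovf1_of_ov0 hOV m K c h₁ x ε hc hh₁ hx hε
  exact h S (hS g hg) i₁

/-- **(OVF) with one scale** from OV. -/
theorem ovf1_of_ov (hOV : OVStmt) (m K : ℕ) (c h₁ x ε : ℝ) (hc : 0 < c) (hh₁ : 0 < h₁)
    (hx : 0 < x) (hε : 0 < ε) :
    ∃ g : ℝ, 0 < g ∧ ∀ S : FCl m,
      (∃ ψ : ℝ, 0 < ψ ∧ Clg S (fun _ F A => Sp F (m - 2) ψ g A)) → ∀ i₁ : Fin m,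
      Clg S (fun J F A => Ch F i₁ ⌊h₁ * J⌋₊ A →
        ∀ (r w P P₁ P₂ : ℕ) (G : (Fin m → ℤ) × (ℕ × F.ζ) → MvPolynomial (Fin m) ℝ)
          (H : ((Fin m → ℝ) × (Fin m → ℝ)) × F.ζ × ℕ → MvPolynomial (Fin m) ℝ),
          LabW F i₁ r K w w P G H A → w ≤ P₁ → P₁ + x * J ≤ P₂ → P₂ ≤ P → P ≤ r → r ≤ J →
          Zm F c P₁ P₂ A →
          CH (Pool.Agent.H49.Ent.cond F.p A True)
            (fun ω => Pool.OVN.hz P₁ (Pool.OVN.pul w (bcel F i₁ w ω) (G (ptr F r ω))))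
            (ptr F P₂) ≤ ε * J) :=
  ovf1_of_ov0 (ov0_of hOV) m K c h₁ x ε hc hh₁ hx hε

/-- **(OVF) with one scale** from OV, with the spread as a hypothesis of the family. -/
theorem ovf2_of_ov (hOV : OVStmt) (m K : ℕ) (c h₁ x ε : ℝ) (hc : 0 < c) (hh₁ : 0 < h₁)
    (hx : 0 < x) (hε : 0 < ε) :
    ∃ g : ℝ, 0 < g ∧ ∀ (S : FCl m) (ψ : ℝ), 0 < ψ → ∀ i₁ : Fin m,
      Clg S (fun J F A => Sp F (m - 2) ψ g A → Ch F i₁ ⌊h₁ * J⌋₊ A →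
        ∀ (r w P P₁ P₂ : ℕ) (G : (Fin m → ℤ) × (ℕ × F.ζ) → MvPolynomial (Fin m) ℝ)
          (H : ((Fin m → ℝ) × (Fin m → ℝ)) × F.ζ × ℕ → MvPolynomial (Fin m) ℝ),
          LabW F i₁ r K w w P G H A → w ≤ P₁ → P₁ + x * J ≤ P₂ → P₂ ≤ P → P ≤ r → r ≤ J →
          Zm F c P₁ P₂ A →
          CH (Pool.Agent.H49.Ent.cond F.p A True)
            (fun ω => Pool.OVN.hz P₁ (Pool.OVN.pul w (bcel F i₁ w ω) (G (ptr F r ω))))
            (ptr F P₂) ≤ ε * J) :=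
  ovf2_of_ov0 (ov0_of hOV) m K c h₁ x ε hc hh₁ hx hε

/-- **(OVF)** from OV. -/
theorem ovf_of_ov (hOV : OVStmt) (S : FCl m) (hS : SPS S (m - 2)) : OVF S :=
  ovf_of_ov0 (ov0_of hOV) S hS

end Pool.OVN
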