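import Pool.Agent.H99.FLF.STH
import Pool.Agent.H82.KSP.MIXH

/-!
# Fullness of the base point given an exact label

Family side of own-visibility, hypothesis (F).
-/

set_option autoImplicit false

namespace Pool.OVN

open Finset Real
open Pool.Agent.H49.Ent Pool.Agent.H32.Dense Pool.STK Pool.KA Pool.KSAT Pool.K2S Pool.KS3
open Pool.KAL Pool.PB Pool.KST Pool.FLF

variable {m J : ℕ}

/-- The rounded base point: position with the time in the slot `i₁`. -/
theorem fl_bp (F : Fam m J) (i₁ : Fin m) {r : ℕ} (hr : r ≤ J) (ω : F.Ω) :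
    fl r (bp F i₁ ω) = Function.update (F.X r ω) i₁ (F.T1 r ω : ℤ) := by
  funext j
  unfold bp
  by_cases hj : j = i₁
  · subst hj
    rw [Function.update_self]
    change ⌊(2 : ℝ) ^ r * (Function.update (F.x ω) j (F.t ω) j)⌋ = _
    rw [Function.update_self, Int.floor_eq_iff]
    have h := T1_real F hr ω
    push_cast
    constructor <;> linarith [h.1, h.2]
  · rw [Function.update_of_ne hj]
    change ⌊(2 : ℝ) ^ r * (Function.update (F.x ω) i₁ (F.t ω) j)⌋ = _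
    rw [Function.update_of_ne hj]
    rfl

/-- The rounded base point and the digits in the cell determine each other. -/
theorem bas_eq_iff (F : Fam m J) (i₁ : Fin m) {w L P : ℕ} (h : w + L = P) (hP : P ≤ J)
    (ω ω' : F.Ω) (hT : F.T1 w ω = F.T1 w ω') (hX : F.X w ω = F.X w ω') :
    (bas (ppos L (chI i₁)) (trp F P ω) = bas (ppos L (chI i₁)) (trp F P ω')) ↔
      fl P (bp F i₁ ω) = fl P (bp F i₁ ω') := by
  rw [fl_bp F i₁ hP, fl_bp F i₁ hP]
  have key : ∀ ω : F.Ω, ∀ j, bas (ppos L (chI i₁)) (trp F P ω) j =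
      if j = i₁ then F.T1 P ω % 2 ^ L else (F.X P ω j % 2 ^ L).toNat := by
    intro ω j
    unfold bas FLF.ppos chI
    simp only [Option.elim]
    by_cases hj : j = i₁
    · simp only [if_pos hj]
      rfl
    · simp only [if_neg hj]
      rfl
  have hTP : ∀ ω : F.Ω, F.T1 P ω = 2 ^ L * F.T1 w ω + F.T1 P ω % 2 ^ L := by
    intro ω
    have h4 := T1_div F (w := w) (K := L) (by omega) ω
    rw [h] at h4
    rw [h4]
    exact (Nat.div_add_mod _ _).symm
  have hXP : ∀ (ω : F.Ω) j, F.X P ω j = 2 ^ L * F.X w ω j + ((F.X P ω j % 2 ^ L).toNat : ℕ) := by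
    intro ω j
    rw [emod_toNat, Xr_emod F h ω j]
    ring
  constructor
  · intro hb
    funext j
    have hbj := congrFun hb j
    rw [key, key] at hbj
    by_cases hj : j = i₁
    · subst hj
      rw [Function.update_self, Function.update_self]
      rw [if_pos rfl, if_pos rfl] at hbj
      rw [hTP ω, hTP ω', hT, hbj]
    · rw [Function.update_of_ne hj, Function.update_of_ne hj]
      rw [if_neg hj, if_neg hj] at hbj
      rw [hXP ω j, hXP ω' j, hX, hbj]
  · intro hb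
    funext j
    have hbj := congrFun hb j
    rw [key, key]
    by_cases hj : j = i₁
    · subst hj
      rw [Function.update_self, Function.update_self] at hbj
      rw [if_pos rfl, if_pos rfl]
      have : F.T1 P ω = F.T1 P ω' := by exact_mod_cast hbj
      rw [this]
    · rw [Function.update_of_ne hj, Function.update_of_ne hj] at hbj
      rw [if_neg hj, if_neg hj, hbj]

/-- **Fullness of the base point given an exact label.** -/
theorem full_lab (m : ℕ) : ∃ C : ℝ, 0 ≤ C ∧ ∀ (J : ℕ) (F : Fam m J) (i₁ : Fin m) (w L P : ℕ),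
    w + L = P → P ≤ J →
    ∀ (cl : ((Fin m → ℝ) × (Fin m → ℝ)) × F.ζ × ℕ → Fin m → ℤ),
    (∀ ω, F.X w ω = cl (slam F w ω)) → ∀ (Z : Type) (z : F.Ω → Z)
    (zs : ((Fin m → ℝ) × (Fin m → ℝ)) × F.ζ × ℕ → Z), (∀ ω, z ω = zs (slam F w ω)) →
    ∀ (cz : Z → ℕ × (Fin m → ℤ)), (∀ ω, cz (z ω) = (F.T1 w ω, F.X w ω)) →
    ∀ (κ γ : ℕ) (δ ε e₁ : ℝ) (e : ((Fin m → ℤ) × (ℕ × F.ζ)) × Z → ℝ), 0 < δ → (∀ ξ, 0 ≤ e ξ) →
      Ex F.p (fun ω => e (trp F P ω, z ω)) ≤ ε →
      NCF F.p (slam F w) (fun ω => (trp F P ω, z ω)) (lB (chI i₁)) δ e →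
      m.factorial * (2 : ℝ) ^ m ≤ δ ^ m * 2 ^ γ → 1 ≤ κ → F.Tm e₁ →
      m * (L * Real.log 2) - CH F.p (fun ω => fl P (bp F i₁ ω)) z ≤
        m * e₁ + C * (L / κ + γ + κ + 1 + ε * L) := by
  obtain ⟨C, hC, hful⟩ := fulh_thm m 2 (by norm_num)
  refine ⟨C, hC, ?_⟩
  intro J F i₁ w L P h hP cl hcl Z z zs hz cz hcz κ γ δ ε e₁ e hδ he hex hnc hγ hκ hT
  have hp0 := F.isLaw.nonneg
  have hleaf := leafr F h hP (chI i₁) cl hcl
  have h1 := hful F.Ω _ _ Z F.p (slam F w) (fun ω => (trp F P ω, z ω)) (fun ξ => pT L ξ.1)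
    (fun ξ => ppos L (chI i₁) ξ.1) (lA w (chI i₁) cl) (lB (chI i₁)) (fun ξ => ξ.2) zs
    L κ γ δ ε e₁ e ⟨hleaf.isLaw, hleaf.T_lt, hleaf.pos_lt, hleaf.near, hleaf.A_le, hleaf.B_le⟩
    (fun ω _ => hz ω) hδ he hex hnc hγ hκ (time_fullr F h hP hT)
  refine le_trans (le_of_eq ?_) h1
  congr 1
  refine CH_congr hp0 ?_ ?_ (fun _ _ _ _ h => h) (fun _ _ _ _ h => h)
  · intro ω ω' _ _ hh
    have a1 := (Prod.ext_iff.mp hh).1
    have a2 : z ω = z ω' := (Prod.ext_iff.mp hh).2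
    have a3 : cz (z ω) = cz (z ω') := by rw [a2]
    rw [hcz, hcz] at a3
    exact (bas_eq_iff F i₁ h hP ω ω' (Prod.ext_iff.mp a3).1 (Prod.ext_iff.mp a3).2).2 a1
  · intro ω ω' _ _ hh
    have a1 := (Prod.ext_iff.mp hh).1
    have a2 : z ω = z ω' := (Prod.ext_iff.mp hh).2
    have a3 : cz (z ω) = cz (z ω') := by rw [a2]
    rw [hcz, hcz] at a3
    exact (bas_eq_iff F i₁ h hP ω ω' (Prod.ext_iff.mp a3).1 (Prod.ext_iff.mp a3).2).1 a1

end Pool.OVN
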