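import Pool.Agent.H99.LST.Iface
import Pool.Agent.H62.OVN.Ful
import Pool.Agent.H50.PW.Det

/-!
# Exact labels and the random sheet of a family

Family side of own-visibility: from a polynomial label to `SDat`.
-/

set_option autoImplicit false

namespace Pool.OVN

open Finset Real MvPolynomial
open Pool.Agent.H49.Ent Pool.Agent.H32.Dense Pool.STK Pool.KA Pool.KSAT Pool.K2S Pool.KS3
open Pool.KAL Pool.PB Pool.KST Pool.FLF

variable {m J : ℕ}

/-- The cell of the base, from the cell in time and position. -/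
def cI (i₁ : Fin m) (c : ℕ × (Fin m → ℤ)) : Fin m → ℤ := Function.update c.2 i₁ (c.1 : ℤ)

theorem bcel_eq (F : Fam m J) (i₁ : Fin m) {w : ℕ} (hw : w ≤ J) (ω : F.Ω) :
    bcel F i₁ w ω = cI i₁ (F.T1 w ω, F.X w ω) := fl_bp F i₁ hw ω

/-- The exact label, as a function of the point. -/
noncomputable def zP (i₁ : Fin m) {ζ : Type} (J w r P : ℕ)
    (G : (Fin m → ℤ) × (ℕ × ζ) → MvPolynomial (Fin m) ℝ) (ξ : (Fin m → ℤ) × (ℕ × ζ)) :
    (ℕ × (Fin m → ℤ)) × (ζ × ((Fin m →₀ ℕ) → ℤ)) :=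
  (celx J w r ξ, (ξ.2.2, hz P (pul w (cI i₁ (celx J w r ξ)) (G ξ))))

/-- The exact label, as a function of the line and the window. -/
noncomputable def zS (i₁ : Fin m) {ζ : Type} (w P : ℕ)
    (cl : ((Fin m → ℝ) × (Fin m → ℝ)) × ζ × ℕ → Fin m → ℤ)
    (H : ((Fin m → ℝ) × (Fin m → ℝ)) × ζ × ℕ → MvPolynomial (Fin m) ℝ)
    (v : (Fin m →₀ ℕ) → ℤ) (l : ((Fin m → ℝ) × (Fin m → ℝ)) × ζ × ℕ) :
    (ℕ × (Fin m → ℤ)) × (ζ × ((Fin m →₀ ℕ) → ℤ)) :=
  ((l.2.2, cl l), (l.2.1, fun α => hz P (pul w (cI i₁ (l.2.2, cl l)) (H l)) α + v α))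

theorem eval_pul (a : ℕ) (c : Fin m → ℤ) (G : MvPolynomial (Fin m) ℝ) (y : Fin m → ℝ) :
    eval y (pul a c G) = eval (fun j => (c j : ℝ) / 2 ^ a + 1 / 2 ^ a * y j) G := by
  have h := eval_shA G (fun _ => 1 / 2 ^ a) (fun j => (c j : ℝ) / 2 ^ a) y
  exact h

theorem totalDegree_pul_le (a : ℕ) (c : Fin m → ℤ) (G : MvPolynomial (Fin m) ℝ) :
    (pul a c G).totalDegree ≤ G.totalDegree :=
  totalDegree_shA_le G (fun _ => 1 / 2 ^ a) (fun j => (c j : ℝ) / 2 ^ a)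

/-- The base point in the cell. -/
theorem bp_in_cell (F : Fam m J) (i₁ : Fin m) {w : ℕ} (hw : w ≤ J) (ω : F.Ω) (j : Fin m) :
    (cI i₁ (F.T1 w ω, F.X w ω) j : ℝ) / 2 ^ w ≤ bp F i₁ ω j ∧
      bp F i₁ ω j ≤ (cI i₁ (F.T1 w ω, F.X w ω) j : ℝ) / 2 ^ w + 1 / 2 ^ w := by
  have h := bp_cell F i₁ hw ω j
  have e : crI i₁ w (F.T1 w ω, F.X w ω) j = (cI i₁ (F.T1 w ω, F.X w ω) j : ℝ) / 2 ^ w := by
    unfold crI cI
    by_cases hj : j = i₁
    · subst hj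
      rw [Function.update_self, Function.update_self]
      push_cast
      rfl
    · rw [Function.update_of_ne hj, Function.update_of_ne hj]
  rw [e] at h
  exact h

/-- **Exact labels** from polynomial labels. -/
theorem exact_lab (m K : ℕ) : ∃ c : ℝ, 0 < c ∧
    ∀ (J : ℕ) (F : Fam m J) (i₁ : Fin m) (r w P : ℕ) (A : F.Ω → Prop)
      (G : (Fin m → ℤ) × (ℕ × F.ζ) → MvPolynomial (Fin m) ℝ)
      (H : ((Fin m → ℝ) × (Fin m → ℝ)) × F.ζ × ℕ → MvPolynomial (Fin m) ℝ), w ≤ J →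
      w ≤ r → LabW F i₁ r K w w P G H A →
      ∃ B : F.Ω → Prop, Sub B A ∧ c * Pe F.p A ≤ Pe F.p B ∧
        ∃ (cl : ((Fin m → ℝ) × (Fin m → ℝ)) × F.ζ × ℕ → Fin m → ℤ) (v : (Fin m →₀ ℕ) → ℤ),
          (∀ ω, B ω → F.X w ω = cl (slam F w ω)) ∧
          ∀ ω, B ω → zP i₁ J w r P G (ptr F r ω) = zS i₁ w P cl H v (slam F w ω) := by
  classical
  obtain ⟨c, hc, hround⟩ := round_lab m K 0
  refine ⟨c / 3 ^ m, by positivity, ?_⟩
  intro J F i₁ r w P A G H hw hwr hlab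
  have hs0 : (0 : ℝ) < 1 / 2 ^ w := by positivity
  obtain ⟨B₁, hB1, hP1, cl, hcl⟩ := cell_event F hw A
  obtain ⟨hG, hH, hGH⟩ := hlab
  have hcelx : ∀ ω, celx J w r (ptr F r ω) = (F.T1 w ω, F.X w ω) := fun ω => celx_ptr F hwr ω
  have hT : ∀ ω, (slam F w ω).2.2 = F.T1 w ω := fun _ => rfl
  obtain ⟨v, B, hBB1, hPB, hBv⟩ := hround F.Ω ((Fin m → ℤ) × (ℕ × F.ζ))
    (((Fin m → ℝ) × (Fin m → ℝ)) × F.ζ × ℕ) F.p (ptr F r) (slam F w)
    (fun ξ => pul w (cI i₁ (celx J w r ξ)) (G ξ)) (fun l => pul w (cI i₁ (l.2.2, cl l)) (H l)) P B₁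
    F.isLaw (fun ξ => (totalDegree_pul_le _ _ _).trans (hG ξ))
    (fun l => (totalDegree_pul_le _ _ _).trans (hH l))
    (by
      intro ω hω y hy
      rw [hcelx ω, hT ω, ← hcl ω hω, map_sub, eval_pul, eval_pul]
      refine ((hGH ω (hB1 ω hω)).2 _ fun j => ?_).2
      have h1 := bp_in_cell F i₁ hw ω j
      have h2 := hy j
      have h3 : 0 ≤ 1 / 2 ^ w * y j := mul_nonneg hs0.le h2.1
      have h4 : 1 / 2 ^ w * y j ≤ 1 / 2 ^ w := by
        have : y j ≤ 1 := by linarith [h2.2]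
        exact mul_le_of_le_one_right hs0.le this
      rw [abs_le]
      constructor <;> linarith [h1.1, h1.2])
  refine ⟨B, hBB1.trans hB1, ?_, cl, v, fun ω hω => hcl ω (hBB1 ω hω), fun ω hω => ?_⟩
  · refine le_trans (le_of_eq ?_) ((mul_le_mul_of_nonneg_left hP1 hc.le).trans hPB)
    ring
  · unfold zP zS
    refine Prod.ext ?_ (Prod.ext rfl ?_)
    · simp only
      rw [hcelx ω, hT ω, ← hcl ω (hBB1 ω hω)]
    · exact hBv ω hω

/-- The same digits. -/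
theorem zP_eq (F : Fam m J) (i₁ : Fin m) {w r P : ℕ} (hw : w ≤ J) (hwr : w ≤ r)
    (G : (Fin m → ℤ) × (ℕ × F.ζ) → MvPolynomial (Fin m) ℝ) {ω ω' : F.Ω}
    (h : zP i₁ J w r P G (ptr F r ω) = zP i₁ J w r P G (ptr F r ω')) :
    F.T1 w ω = F.T1 w ω' ∧ F.X w ω = F.X w ω' ∧ F.Z ω = F.Z ω' ∧
      hz P (pul w (bcel F i₁ w ω) (G (ptr F r ω))) =
        hz P (pul w (bcel F i₁ w ω') (G (ptr F r ω'))) := by
  have h1 := (Prod.ext_iff.mp h).1
  have h2 := Prod.ext_iff.mp (Prod.ext_iff.mp h).2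
  have h4 : celx J w r (ptr F r ω) = celx J w r (ptr F r ω') := h1
  have h6 : hz P (pul w (cI i₁ (celx J w r (ptr F r ω))) (G (ptr F r ω))) =
      hz P (pul w (cI i₁ (celx J w r (ptr F r ω'))) (G (ptr F r ω'))) := h2.2
  rw [celx_ptr F hwr, celx_ptr F hwr] at h4 h6
  have h5 : F.Z ω = F.Z ω' := h2.1
  rw [bcel_eq F i₁ hw, bcel_eq F i₁ hw]
  exact ⟨(Prod.ext_iff.mp h4).1, (Prod.ext_iff.mp h4).2, h5, h6⟩

theorem zP_cell (F : Fam m J) (i₁ : Fin m) {w r P : ℕ} (hwr : w ≤ r)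
    (G : (Fin m → ℤ) × (ℕ × F.ζ) → MvPolynomial (Fin m) ℝ) (ω : F.Ω) :
    (zP i₁ J w r P G (ptr F r ω)).1 = (F.T1 w ω, F.X w ω) := celx_ptr F hwr ω

/-- Fewer digits. -/
theorem hz_div (G : MvPolynomial (Fin m) ℝ) {P P' : ℕ} (h : P ≤ P') (s : Fin m →₀ ℕ) :
    hz P G s = hz P' G s / 2 ^ (P' - P) := by
  unfold hz
  have e : (2 : ℝ) ^ P * coeff s G = 2 ^ P' * coeff s G / ((2 ^ (P' - P) : ℕ) : ℝ) := by
    have : (2 : ℝ) ^ P' = 2 ^ P * 2 ^ (P' - P) := by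
      rw [← pow_add]; congr 1; omega
    rw [this]
    push_cast
    field_simp
  rw [e, Int.floor_div_natCast]
  push_cast
  rfl

open Classical in
/-- **The random sheet of a family.** The sheet of a label is the polynomial of a
representative. -/
noncomputable def sdt (F : Fam m J) (i₁ : Fin m) (w r P : ℕ)
    (G : (Fin m → ℤ) × (ℕ × F.ζ) → MvPolynomial (Fin m) ℝ) : SDat m where
  Om := F.Ω
  Lam := (ℕ × (Fin m → ℤ)) × (F.ζ × ((Fin m →₀ ℕ) → ℤ))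
  Wt := F.ζ
  fin := F.fin
  P := F.p
  L := fun ω => zP i₁ J w r P G (ptr F r ω)
  W := F.Z
  G := fun z => if h : ∃ ω, zP i₁ J w r P G (ptr F r ω) = z then G (ptr F r h.choose) else 0
  y := bp F i₁
  x := fun ω => F.x ω i₁

/-- The sheet is the polynomial of a sample with the same label. -/
theorem sdt_rep (F : Fam m J) (i₁ : Fin m) (w r P : ℕ)
    (G : (Fin m → ℤ) × (ℕ × F.ζ) → MvPolynomial (Fin m) ℝ) (ω : F.Ω) :
    ∃ ω' : F.Ω, zP i₁ J w r P G (ptr F r ω') = zP i₁ J w r P G (ptr F r ω) ∧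
      (sdt F i₁ w r P G).G ((sdt F i₁ w r P G).L ω) = G (ptr F r ω') := by
  classical
  have hex : ∃ ω', zP i₁ J w r P G (ptr F r ω') = zP i₁ J w r P G (ptr F r ω) := ⟨ω, rfl⟩
  exact ⟨hex.choose, hex.choose_spec, dif_pos hex⟩

/-- The digits of the sheet are the digits of the label. -/
theorem sdt_hz (F : Fam m J) (i₁ : Fin m) {w r P P' : ℕ} (hw : w ≤ J) (hwr : w ≤ r)
    (hP : P' ≤ P) (G : (Fin m → ℤ) × (ℕ × F.ζ) → MvPolynomial (Fin m) ℝ) (ω : F.Ω) :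
    hz P' ((sdt F i₁ w r P G).ger w ω) = hz P' (pul w (bcel F i₁ w ω) (G (ptr F r ω))) := by
  obtain ⟨ω', h1, h2⟩ := sdt_rep F i₁ w r P G ω
  have h3 : (sdt F i₁ w r P G).ger w ω = pul w (bcel F i₁ w ω) (G (ptr F r ω')) := by
    unfold SDat.ger
    rw [h2]
    rfl
  rw [h3]
  obtain ⟨a1, a2, a3, a4⟩ := zP_eq F i₁ hw hwr G h1
  have h4 : bcel F i₁ w ω' = bcel F i₁ w ω := by
    rw [bcel_eq F i₁ hw, bcel_eq F i₁ hw, a1, a2]
  rw [h4] at a4
  funext s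
  rw [hz_div _ hP s, hz_div _ hP s, a4]

/-- **The basic assumptions.** -/
theorem sdt_ok (m K : ℕ) : ∃ (D : ℝ) (c₀ : ℕ), ∀ (J : ℕ) (F : Fam m J) (i₁ : Fin m) (w r P Q : ℕ)
    (G : (Fin m → ℤ) × (ℕ × F.ζ) → MvPolynomial (Fin m) ℝ)
    (H : ((Fin m → ℝ) × (Fin m → ℝ)) × F.ζ × ℕ → MvPolynomial (Fin m) ℝ),
    LabW F i₁ r K w w P G H (fun _ => True) → w ≤ J → w ≤ r → Q + c₀ ≤ P →
      (sdt F i₁ w r P G).OK K w Q D := by
  classical
  obtain ⟨K₁, hK₁, hPsi⟩ := exists_Psi_le_sup (Fin m) K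
  obtain ⟨bx, hbx⟩ : ∃ bx, bx = expBox (Fin m) K := ⟨_, rfl⟩
  refine ⟨2 ^ K * (K₁ * (2 * m)), bx.card + 1, ?_⟩
  intro J F i₁ w r P Q G H hlab hw hwr hQ
  have hs0 : (0 : ℝ) < 1 / 2 ^ w := by positivity
  obtain ⟨hG, hH, hGH⟩ := hlab
  have hm0 : (0 : ℝ) ≤ m := Nat.cast_nonneg m
  -- the base points of two samples of one label
  have hnear : ∀ ω ω' : F.Ω, zP i₁ J w r P G (ptr F r ω') = zP i₁ J w r P G (ptr F r ω) →
      ∀ j, |bp F i₁ ω j - bp F i₁ ω' j| ≤ 1 / 2 ^ w := by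
    intro ω ω' h j
    obtain ⟨a1, a2, -, -⟩ := zP_eq F i₁ hw hwr G h
    have h1 := bp_in_cell F i₁ hw ω j
    have h2 := bp_in_cell F i₁ hw ω' j
    rw [a1, a2] at h2
    rw [abs_le]
    constructor <;> linarith [h1.1, h1.2, h2.1, h2.2]
  refine
    { law := F.isLaw
      hW := ?_
      deg := ?_
      hx := ?_
      grad := ?_ }
  · intro ω ω' _ _ h
    exact (zP_eq F i₁ hw hwr G h).2.2.1
  · intro l
    change (if h : ∃ ω, zP i₁ J w r P G (ptr F r ω) = l then G (ptr F r h.choose)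
      else 0).totalDegree ≤ K
    by_cases h : ∃ ω, zP i₁ J w r P G (ptr F r ω) = l
    · rw [dif_pos h]
      exact hG _
    · rw [dif_neg h, totalDegree_zero]
      exact Nat.zero_le _
  · intro ω _
    obtain ⟨ω', h1, h2⟩ := sdt_rep F i₁ w r P G ω
    rw [h2]
    change |F.x ω i₁ - eval (bp F i₁ ω) (G (ptr F r ω'))| ≤ 1 / 2 ^ Q
    obtain ⟨a1, a2, a3, a4⟩ := zP_eq F i₁ hw hwr G h1
    have h4 : bcel F i₁ w ω' = bcel F i₁ w ω := by
      rw [bcel_eq F i₁ hw, bcel_eq F i₁ hw, a1, a2]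
    rw [h4] at a4
    -- coordinates of the base point in the cell
    obtain ⟨y, hy⟩ : ∃ y : Fin m → ℝ, y = fun j => 2 ^ w * bp F i₁ ω j - bcel F i₁ w ω j :=
      ⟨_, rfl⟩
    have hyb : (fun j => (bcel F i₁ w ω j : ℝ) / 2 ^ w + 1 / 2 ^ w * y j) = bp F i₁ ω := by
      funext j
      rw [hy]
      field_simp
      ring
    have hy1 : ∀ j, |y j| ≤ 1 := by
      intro j
      have h5 := bp_in_cell F i₁ hw ω j
      rw [← bcel_eq F i₁ hw, div_le_iff₀ (by positivity), ← add_div,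
        le_div_iff₀ (by positivity)] at h5
      rw [hy, abs_le]
      simp only
      constructor <;> linarith [h5.1, h5.2]
    have h5 : |eval (bp F i₁ ω) (G (ptr F r ω)) - eval (bp F i₁ ω) (G (ptr F r ω'))| ≤
        bx.card * (1 / 2 ^ P) := by
      rw [← hyb, ← eval_pul, ← eval_pul, ← map_sub, hbx]
      refine eval_near_unit (K := K) ((totalDegree_sub _ _).trans (max_le
        ((totalDegree_pul_le _ _ _).trans (hG _)) ((totalDegree_pul_le _ _ _).trans (hG _)))) ?_ hy1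
      intro α _
      rw [coeff_sub]
      have h6 : ⌊(2 : ℝ) ^ P * coeff α (pul w (bcel F i₁ w ω) (G (ptr F r ω')))⌋ =
          ⌊(2 : ℝ) ^ P * coeff α (pul w (bcel F i₁ w ω) (G (ptr F r ω)))⌋ := congrFun a4 α
      have h7 := Int.abs_sub_lt_one_of_floor_eq_floor h6
      rw [← mul_sub, abs_mul, abs_of_pos (by positivity), abs_sub_comm] at h7
      rw [le_div_iff₀ (by positivity)]
      linarith
    have h6 := (hGH ω trivial).1
    have e1 : F.x ω i₁ - eval (bp F i₁ ω) (G (ptr F r ω')) =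
        (F.x ω i₁ - eval (bp F i₁ ω) (G (ptr F r ω))) +
        (eval (bp F i₁ ω) (G (ptr F r ω)) - eval (bp F i₁ ω) (G (ptr F r ω'))) := by ring
    rw [e1]
    refine (abs_add_le _ _).trans ((add_le_add h6 h5).trans ?_)
    have h7 : (1 : ℝ) / 2 ^ P + bx.card * (1 / 2 ^ P) = (bx.card + 1) / 2 ^ P := by ring
    rw [h7, div_le_div_iff₀ (by positivity) (by positivity), one_mul]
    have h8 : ((bx.card + 1 : ℕ) : ℝ) ≤ 2 ^ (bx.card + 1) := by
      exact_mod_cast Nat.lt_two_pow_self.le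
    push_cast at h8
    calc ((bx.card : ℝ) + 1) * 2 ^ Q ≤ 2 ^ (bx.card + 1) * 2 ^ Q :=
          mul_le_mul_of_nonneg_right h8 (by positivity)
      _ = 2 ^ (Q + (bx.card + 1)) := by rw [← pow_add]; congr 1; omega
      _ ≤ 2 ^ P := pow_le_pow_right₀ (by norm_num) hQ
  · intro ω _ b hb j
    obtain ⟨ω', h1, h2⟩ := sdt_rep F i₁ w r P G ω
    rw [h2]
    have hR : (pderiv j (G (ptr F r ω'))).totalDegree ≤ K := by
      refine le_trans ?_ (hG (ptr F r ω'))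
      exact Pool.Agent.H50.PW.totalDegree_pderiv_le _ _
    have h3 := hPsi (pderiv j (G (ptr F r ω'))) (1 / 2 ^ w) (bp F i₁ ω') (2 * m) hR hs0.le
      (fun b' hb' => ((hGH ω' trivial).2 b' hb').1 j)
    have h4 := Psi_radius_le (pderiv j (G (ptr F r ω'))) (1 / 2 ^ w) 2 (by norm_num) (bp F i₁ ω')
    have h5 := abs_eval_le_Psi_of_near (pderiv j (G (ptr F r ω'))) (1 / 2 ^ w * 2)
      (by positivity) (bp F i₁ ω') b (by
        intro i
        have h6 := hb i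
        have h7 := hnear ω ω' h1 i
        have e : b i - bp F i₁ ω' i = (b i - bp F i₁ ω i) + (bp F i₁ ω i - bp F i₁ ω' i) := by
          ring
        rw [e]
        refine (abs_add_le _ _).trans ?_
        have h8 : |b i - bp F i₁ ω i| ≤ 1 / 2 ^ w := h6
        linarith)
    have h6 : (2 : ℝ) ^ (pderiv j (G (ptr F r ω'))).totalDegree ≤ 2 ^ K :=
      pow_le_pow_right₀ (by norm_num) hR
    have h7 : 0 ≤ Psi (pderiv j (G (ptr F r ω'))) (1 / 2 ^ w) (bp F i₁ ω') := Psi_nonneg _ _ _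
    calc _ ≤ _ := h5
      _ ≤ _ := h4
      _ ≤ 2 ^ K * Psi (pderiv j (G (ptr F r ω'))) (1 / 2 ^ w) (bp F i₁ ω') :=
          mul_le_mul_of_nonneg_right h6 h7
      _ ≤ _ := mul_le_mul_of_nonneg_left h3 (by positivity)

end Pool.OVN
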