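import Pool.Agent.H62.OVN.Exh
import Pool.Agent.H62.OVN.Lbl
import Pool.Agent.H62.OVN.Ovc
import Pool.Agent.H1.OVN.Cell

/-!
# The trivial bound for the code of a label
-/

set_option autoImplicit false

namespace Pool.OVN

open Finset Real MvPolynomial
open Pool.Agent.H49.Ent Pool.Agent.H32.Dense Pool.STK Pool.KA Pool.KSAT Pool.K2S Pool.KS3
open Pool.KAL Pool.PB Pool.KST Pool.FLF Pool.Agent.H1.OVN

variable {m J : ℕ}

/-- On the unit cube the sheet is close to the height. -/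
theorem sheet_height {F : Fam m J} {i₁ : Fin m} {r w K P : ℕ}
    {G : (Fin m → ℤ) × (ℕ × F.ζ) → MvPolynomial (Fin m) ℝ}
    {H : ((Fin m → ℝ) × (Fin m → ℝ)) × F.ζ × ℕ → MvPolynomial (Fin m) ℝ} {B : F.Ω → Prop}
    (hlab : LabW F i₁ r K w w P G H B) (hw : w ≤ J) {ω : F.Ω} (hω : B ω) {y : Fin m → ℝ}
    (hy : y ∈ cube (fun _ : Fin m => (0 : ℝ)) 1) :
    |eval y (pul w (bcel F i₁ w ω) (G (ptr F r ω))) - F.x ω i₁| ≤ 2 * m * m + 1 := by
  have hs0 : (0 : ℝ) < 1 / 2 ^ w := by positivity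
  have hs1 : (1 : ℝ) / 2 ^ w ≤ 1 := by
    rw [div_le_one (by positivity)]
    exact one_le_pow₀ (by norm_num)
  have hm0 : (0 : ℝ) ≤ m := Nat.cast_nonneg m
  obtain ⟨hG, hH, hGH⟩ := hlab
  obtain ⟨c, hc⟩ : ∃ c, c = bcel F i₁ w ω := ⟨_, rfl⟩
  obtain ⟨y₀, hy₀⟩ : ∃ y₀ : Fin m → ℝ, y₀ = fun j => 2 ^ w * bp F i₁ ω j - c j := ⟨_, rfl⟩
  have hcell : ∀ j, 0 ≤ y₀ j ∧ y₀ j ≤ 1 := by
    intro j
    have h5 := bp_in_cell F i₁ hw ω j
    rw [← bcel_eq F i₁ hw, ← hc, div_le_iff₀ (by positivity), ← add_div,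
      le_div_iff₀ (by positivity)] at h5
    rw [hy₀]
    simp only
    constructor <;> linarith [h5.1, h5.2]
  have hyb : (fun j => (c j : ℝ) / 2 ^ w + 1 / 2 ^ w * y₀ j) = bp F i₁ ω := by
    funext j
    rw [hy₀]
    field_simp
    ring
  have h1 := (hGH ω hω).1
  rw [← hyb, ← eval_pul] at h1
  have h2 := eval_sub_le (pul w c (G (ptr F r ω))) y₀ (fun j => y j - y₀ j) (M := 2 * m) (δ := 1)
    (by positivity) (by
      intro s hs hs' j
      have e : pul w c (G (ptr F r ω)) =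
        shA (G (ptr F r ω)) (fun _ => 1 / 2 ^ w) (fun j => (c j : ℝ) / 2 ^ w) := rfl
      rw [e, eval_pderiv_shA, abs_mul, abs_of_pos hs0]
      have h3 := ((hGH ω hω).2 (fun i => (c i : ℝ) / 2 ^ w + 1 / 2 ^ w * (y₀ i + s * (y i - y₀ i)))
        (by
          intro i
          have e2 : (c i : ℝ) / 2 ^ w + 1 / 2 ^ w * y₀ i = bp F i₁ ω i := congrFun hyb i
          rw [← e2]
          have e3 : (c i : ℝ) / 2 ^ w + 1 / 2 ^ w * (y₀ i + s * (y i - y₀ i)) -
              ((c i : ℝ) / 2 ^ w + 1 / 2 ^ w * y₀ i) = 1 / 2 ^ w * (s * (y i - y₀ i)) := by ring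
          rw [e3, abs_mul, abs_of_pos hs0]
          have h4 : |s * (y i - y₀ i)| ≤ 1 := by
            rw [abs_mul, abs_of_nonneg hs]
            have h5 : |y i - y₀ i| ≤ 1 := by
              rw [abs_le]
              have h6 := hy i
              have h7 := hcell i
              constructor <;> linarith [h6.1, h6.2, h7.1, h7.2]
            exact mul_le_one₀ hs' (abs_nonneg _) h5
          exact mul_le_of_le_one_right hs0.le h4)).1 j
      calc 1 / 2 ^ w * |eval (fun i => (c i : ℝ) / 2 ^ w + 1 / 2 ^ w * (y₀ i + s * (y i - y₀ i)))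
            (pderiv j (G (ptr F r ω)))| ≤ 1 * (2 * m) :=
            mul_le_mul hs1 h3 (abs_nonneg _) zero_le_one
        _ = 2 * m := one_mul _) (by
      intro j
      rw [abs_le]
      have h6 := hy j
      have h7 := hcell j
      constructor <;> linarith [h6.1, h6.2, h7.1, h7.2])
  have e4 : (fun i => y₀ i + (y i - y₀ i)) = y := by
    funext i
    ring
  rw [e4, Fintype.card_fin] at h2
  have e5 : eval y (pul w (bcel F i₁ w ω) (G (ptr F r ω))) - F.x ω i₁ =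
      (eval y (pul w c (G (ptr F r ω))) - eval y₀ (pul w c (G (ptr F r ω)))) -
      (F.x ω i₁ - eval y₀ (pul w c (G (ptr F r ω)))) := by
    rw [hc]; ring
  rw [e5]
  have h8 : (1 : ℝ) / 2 ^ P ≤ 1 := by
    rw [div_le_one (by positivity)]
    exact one_le_pow₀ (by norm_num)
  refine (abs_sub _ _).trans ?_
  nlinarith

/-- **The trivial bound for the code of a label.** -/
theorem code_le (m K : ℕ) : ∃ C : ℝ, 0 ≤ C ∧ ∀ (J : ℕ) (F : Fam m J) (i₁ : Fin m)
    (r w P Q P₂ : ℕ) (G : (Fin m → ℤ) × (ℕ × F.ζ) → MvPolynomial (Fin m) ℝ)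
    (H : ((Fin m → ℝ) × (Fin m → ℝ)) × F.ζ × ℕ → MvPolynomial (Fin m) ℝ) (B : F.Ω → Prop),
    LabW F i₁ r K w w P G H B → w ≤ P₂ → P₂ ≤ J → 0 < Pe F.p B →
    CH (Pool.Agent.H49.Ent.cond F.p B True)
      (fun ω => hz Q (pul w (bcel F i₁ w ω) (G (ptr F r ω)))) (ptr F P₂) ≤ C * (Q + 1) := by
  classical
  obtain ⟨C₁, hC₁, hcoef⟩ := coefSum_le_unit m K
  obtain ⟨M, hM⟩ : ∃ M : ℝ, M = 2 * (2 * m * m + 1) + 1 := ⟨_, rfl⟩
  have hM0 : 1 ≤ M := by
    rw [hM]
    have : (0 : ℝ) ≤ m := Nat.cast_nonneg m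
    nlinarith
  have hCM : 0 ≤ C₁ * M := by nlinarith
  refine ⟨Fintype.card (Bx m K) * Real.log (2 * C₁ * M + 3), ?_, ?_⟩
  · have : 0 ≤ Real.log (2 * C₁ * M + 3) := Real.log_nonneg (by nlinarith)
    positivity
  intro J F i₁ r w P Q P₂ G H B hlab hwP hPJ hB
  have hw : w ≤ J := hwP.trans hPJ
  have hG := hlab.1
  have hql := isLaw_cond F.isLaw hB
  have hqB : ∀ ω, 0 < Pool.Agent.H49.Ent.cond F.p B True ω → B ω := by
    intro ω hω
    unfold Pool.Agent.H49.Ent.cond at hω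
    by_contra hcon
    rw [if_neg (fun h => hcon (of_eq_true h))] at hω
    exact lt_irrefl _ hω
  obtain ⟨V, hV⟩ : ∃ V : F.Ω → Bx m K → ℤ, V = fun ω t =>
    hz Q (pul w (bcel F i₁ w ω) (G (ptr F r ω))) (ex t) := ⟨_, rfl⟩
  have h1 := near hql.nonneg hql.sum_one V (ptr F P₂) (C₁ * M * 2 ^ Q + 1) (by
    intro ω ω' hω hω' hh k
    have hb : bcel F i₁ w ω = bcel F i₁ w ω' := by
      have hX : F.X P₂ ω = F.X P₂ ω' := (Prod.ext_iff.mp hh).1
      have hW : F.W ω = F.W ω' := (Prod.ext_iff.mp hh).2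
      have hT : F.T ω = F.T ω' := (Prod.ext_iff.mp hW).1
      rw [bcel_eq F i₁ hw, bcel_eq F i₁ hw]
      have e1 : F.X w ω = F.X w ω' := Pool.STK.B58.fl_fine hwP hX
      have e2 : F.T1 w ω = F.T1 w ω' := by
        unfold Fam.T1
        rw [hT]
      rw [e1, e2]
    have hx : |F.x ω i₁ - F.x ω' i₁| ≤ 1 := by
      have hX : F.X P₂ ω i₁ = F.X P₂ ω' i₁ := congrFun (Prod.ext_iff.mp hh).1 i₁
      have h2 : |(2 : ℝ) ^ P₂ * F.x ω i₁ - 2 ^ P₂ * F.x ω' i₁| ≤ 1 := near_floor hX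
      rw [← mul_sub, abs_mul, abs_of_pos (by positivity)] at h2
      have h3 : (1 : ℝ) ≤ 2 ^ P₂ := one_le_pow₀ (by norm_num)
      nlinarith [abs_nonneg (F.x ω i₁ - F.x ω' i₁)]
    have h2 := hcoef (pul w (bcel F i₁ w ω) (G (ptr F r ω)) -
      pul w (bcel F i₁ w ω') (G (ptr F r ω'))) M
      ((totalDegree_sub _ _).trans (max_le ((totalDegree_pul_le _ _ _).trans (hG _))
        ((totalDegree_pul_le _ _ _).trans (hG _)))) (by
        intro y hy
        have h3 := sheet_height hlab hw (hqB ω hω) hy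
        have h4 := sheet_height hlab hw (hqB ω' hω') hy
        rw [map_sub]
        rw [abs_le] at h3 h4 hx ⊢
        rw [hM]
        constructor <;> linarith [h3.1, h3.2, h4.1, h4.2, hx.1, hx.2])
    have h3 := (abs_coeff_le _ (ex k)).trans h2
    rw [hV]
    refine near_hz ?_
    rw [mul_div_assoc, div_self (by positivity), mul_one]
    exact h3)
  have h2 : CH (Pool.Agent.H49.Ent.cond F.p B True)
      (fun ω => hz Q (pul w (bcel F i₁ w ω) (G (ptr F r ω)))) (ptr F P₂) ≤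
      CH (Pool.Agent.H49.Ent.cond F.p B True) V (ptr F P₂) := by
    refine CH_mono_left hql.nonneg ?_
    intro ω ω' _ _ hh
    have hv := (Prod.ext_iff.mp hh).1
    rw [hV] at hv
    simp only at hv ⊢
    funext s
    by_cases hs : ∃ j, K < s j
    · rw [hz_zero (pul_coeff (hG _) _ _ s hs), hz_zero (pul_coeff (hG _) _ _ s hs)]
    · obtain ⟨t, rfl⟩ := ex_surj s hs
      exact congrFun hv t
  refine h2.trans (h1.trans ?_)
  rw [mul_assoc (Fintype.card (Bx m K) : ℝ)]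
  refine mul_le_mul_of_nonneg_left ?_ (Nat.cast_nonneg (α := ℝ) (Fintype.card (Bx m K)))
  have h3 : (1 : ℝ) ≤ 2 ^ Q := one_le_pow₀ (by norm_num)
  have h4 : 2 * (C₁ * M * 2 ^ Q + 1) + 1 ≤ 2 ^ Q * (2 * C₁ * M + 3) := by nlinarith
  have h5 : Real.log (2 * (C₁ * M * 2 ^ Q + 1) + 1) ≤ Real.log (2 ^ Q * (2 * C₁ * M + 3)) :=
    Real.log_le_log (by positivity) h4
  rw [Real.log_mul (by positivity) (by positivity), Real.log_pow] at h5
  have h6 : Real.log 2 ≤ Real.log (2 * C₁ * M + 3) :=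
    Real.log_le_log (by norm_num) (by nlinarith)
  have h7 : (0 : ℝ) ≤ Q := Nat.cast_nonneg Q
  nlinarith

end Pool.OVN
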