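import Pool.Agent.H62.OVN.Num

/-!
# Own-visibility of a label on an event, with the constants
-/

set_option autoImplicit false

namespace Pool.OVN

open Finset Real MvPolynomial
open Pool.Agent.H49.Ent Pool.Agent.H32.Dense Pool.STK Pool.KA Pool.KSAT Pool.K2S Pool.KS3
open Pool.KAL Pool.PB Pool.KST Pool.FLF

/-- The conclusion of `sdt_ok`. -/
def OKc (m K : ℕ) (D : ℝ) (c₀ : ℕ) : Prop :=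
  ∀ (J : ℕ) (F : Fam m J) (i₁ : Fin m) (w r P Q : ℕ)
    (G : (Fin m → ℤ) × (ℕ × F.ζ) → MvPolynomial (Fin m) ℝ)
    (H : ((Fin m → ℝ) × (Fin m → ℝ)) × F.ζ × ℕ → MvPolynomial (Fin m) ℝ),
    LabW F i₁ r K w w P G H (fun _ => True) → w ≤ J → w ≤ r → Q + c₀ ≤ P →
      (sdt F i₁ w r P G).OK K w Q D

/-- The conclusion of OV. -/
def OVc (m K : ℕ) (D κ π₀ δ₀ C ε c : ℝ) (X₀ : ℕ) : Prop :=
  ∀ (d : SDat m) (a₀ P X : ℕ), X₀ ≤ X → a₀ ≤ P → d.OK K a₀ (P + X) D →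
    d.Full a₀ (P + X) (δ₀ * X) → d.NF c ⌊κ * X⌋₊ P X π₀ →
    CH d.P (hz P ∘ d.ger a₀) (fun ω => (d.W ω, d.pnt P ω)) ≤ ε * ((P : ℝ) - a₀) + C * X

/-- The conclusion of `full_event`. -/
def FUc (m : ℕ) (C : ℝ) : Prop :=
  ∀ (J : ℕ) (F : Fam m J) (i₁ : Fin m)
    (r w Pz Q h κ γ : ℕ) (δ ψ g e e' s : ℝ) (B : F.Ω → Prop) (hB : 0 < Pe F.p B)
    (G : (Fin m → ℤ) × (ℕ × F.ζ) → MvPolynomial (Fin m) ℝ)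
    (H : ((Fin m → ℝ) × (Fin m → ℝ)) × F.ζ × ℕ → MvPolynomial (Fin m) ℝ)
    (cl : ((Fin m → ℝ) × (Fin m → ℝ)) × F.ζ × ℕ → Fin m → ℤ) (v : (Fin m →₀ ℕ) → ℤ),
    Ch F i₁ h B → Sp F (m - 2) ψ g B → 0 ≤ ψ → 0 < δ → δ < 1 / 2 →
    1 / 2 ^ h + 2 * m * δ ≤ 1 / 2 ^ ⌊g * J⌋₊ → m.factorial * (2 : ℝ) ^ m ≤ δ ^ m * 2 ^ γ →
    1 ≤ κ → F.Tr → F.Tm e' → F.Rb e → Real.exp (-s) ≤ Pe F.p B →
    (∀ ω, B ω → F.X w ω = cl (slam F w ω)) →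
    (∀ ω, B ω → zP i₁ J w r Pz G (ptr F r ω) = zS i₁ w Pz cl H v (slam F w ω)) →
    w ≤ Q → Q ≤ J → w ≤ r → r ≤ J →
    (sdt (Fam.sub F B hB) i₁ w r Pz G).Full w Q (m * (4 * e + e' + s) +
      C * (((Q : ℝ) - w) / κ + γ + κ + 1 + 2 * Real.exp (-(ψ * J / 2)) * ((Q : ℝ) - w)))

/-- **One event with an exact label.** -/
theorem evt_two {m K : ℕ} {D : ℝ} {c₀ : ℕ} (hOK : OKc m K D c₀) {κ π₀ δ₀ C ε c' : ℝ} {X₀ : ℕ}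
    (hOV : OVc m K D κ π₀ δ₀ C ε (c' / 8 / 2) X₀) {C₃ : ℝ} (hful : FUc m C₃) (hC₃ : 0 ≤ C₃)
    (hm0 : 0 < (m : ℝ)) (hc'0 : 0 < c') (hκ : 0 < κ) (hπ₀ : 0 < π₀) (hδ₀ : 0 < δ₀)
    {κf g₁ g₂ : ℕ} {g ψ τ lc x₂ h₁ ρ₀ : ℝ} (hx₂0 : 0 < x₂) (hκf1 : 1 ≤ κf)
    (hκfC : C₃ ≤ δ₀ * x₂ / 8 * κf) (hg0 : 0 < g) (hgh : g ≤ h₁ / 2)
    (hgC : C₃ * m * g ≤ δ₀ * x₂ / 8) (hg₁ : 2 ≤ g₁) (hg₁m : 4 * (m : ℝ) ≤ 2 ^ g₁)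
    (hg₂ : (m.factorial : ℝ) * 2 ^ m ≤ 2 ^ g₂) (hψ : 0 < ψ) (hτ0 : 0 < τ)
    (hρ₀ : ρ₀ = c' * κ * x₂ * Real.log 2 / 128)
    (hτ1 : 6 * m * τ ≤ δ₀ * x₂ / 8) (hτ2 : 6 * τ / π₀ ≤ ρ₀) (hh₁ : 0 < h₁)
    {J : ℕ} (hJ0 : 0 < (J : ℝ)) (j3 : X₀ / x₂ ≤ (J : ℝ)) (j4 : 4 / h₁ ≤ (J : ℝ))
    (j5 : (m * |lc| + C₃ * (m * g₁ + g₂ + κf + 1)) / (δ₀ * x₂ / 8) ≤ J)
    (j6 : 64 * C₃ / (ψ * (δ₀ * x₂)) ≤ J)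
    (j7 : ((|lc| + Real.log 2) / π₀ + 4 * cc m) / ρ₀ ≤ J) (j8 : 2 * |lc| / ψ ≤ (J : ℝ))
    (j10 : 2 / (κ * x₂) ≤ J)
    {S : FCl m} {F : Fam m J} {i₁ : Fin m} {A B : F.Ω → Prop} (hSt : S.St τ F A) (hs : Sub B A)
    (hB : 0 < Pe F.p B) (hPA : Real.exp (-lc) * Pe F.p A ≤ Pe F.p B)
    (hCh : Ch F i₁ ⌊h₁ * J⌋₊ A) (hSp : Sp F (m - 2) ψ g A) {r w P P₁ P₂ P₀ q h : ℕ}
    {G : (Fin m → ℤ) × (ℕ × F.ζ) → MvPolynomial (Fin m) ℝ}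
    {H : ((Fin m → ℝ) × (Fin m → ℝ)) × F.ζ × ℕ → MvPolynomial (Fin m) ℝ}
    {cl : ((Fin m → ℝ) × (Fin m → ℝ)) × F.ζ × ℕ → Fin m → ℤ} {v : (Fin m →₀ ℕ) → ℤ}
    (hlab : LabW F i₁ r K w w P G H B) (hcl : ∀ ω, B ω → F.X w ω = cl (slam F w ω))
    (hzz : ∀ ω, B ω → zP i₁ J w r P G (ptr F r ω) = zS i₁ w P cl H v (slam F w ω))
    (hwr : w ≤ r) (hrJ : r ≤ J) (hwP₁ : w ≤ P₁) (hP₀1 : P₁ ≤ P₀) (hP₀2 : P₀ + q * h ≤ P₂)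
    (hP₂J : P₂ ≤ J) (hP₀P : P₀ + q * h + c₀ ≤ P) (hh0 : 0 < h)
    (hXr : x₂ * J ≤ ((q * h : ℕ) : ℝ)) (hk8 : 8 * h ≤ ⌊κ * ((q * h : ℕ) : ℝ)⌋₊)
    (hrow : ∀ E : (Fam.sub F B hB).Ω → Prop, 0 < Pe (Fam.sub F B hB).p E → ∀ j < q,
      CH (Pool.Agent.H49.Ent.cond (Fam.sub F B hB).p E True)
        ((Fam.sub F B hB).X (P₀ + (j + 1) * h)) (ptr (Fam.sub F B hB) (P₀ + j * h)) ≤
        (m - c' / 8) * (h * Real.log 2)) :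
    CH (Pool.Agent.H49.Ent.cond F.p B True)
      (fun ω => hz P₁ (pul w (bcel F i₁ w ω) (G (ptr F r ω)))) (ptr F P₂) ≤
      ε * ((P₀ : ℝ) - w) + C * ((q * h : ℕ) : ℝ) := by
  have hA : 0 < Pe F.p A := lt_of_lt_of_le (Real.exp_pos _) hSt.2
  -- probabilities
  have hs1 : Real.exp (-(τ * J + lc)) ≤ Pe F.p B := by
    refine le_trans ?_ hPA
    have h1 := mul_le_mul_of_nonneg_left hSt.2 (Real.exp_pos (-lc)).le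
    refine le_trans (le_of_eq ?_) h1
    rw [neg_add, Real.exp_add]
    ring
  have hs2 : Real.exp (-(ψ / 2 * J)) * Pe F.p A ≤ Pe F.p B := by
    refine le_trans (mul_le_mul_of_nonneg_right ?_ hA.le) hPA
    rw [Real.exp_le_exp]
    rw [div_le_iff₀ hψ] at j8
    have := le_abs_self lc
    linarith
  have hSp' : Sp F (m - 2) (ψ / 2) g B := by
    have := Sp.sub hs hs2 hSp
    have e : ψ - ψ / 2 = ψ / 2 := by ring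
    rwa [e] at this
  have hCh' : Ch F i₁ ⌊h₁ * J⌋₊ B := by
    obtain ⟨nn, ss, h1⟩ := hCh
    exact ⟨nn, ss, fun ω hω => h1 ω (hs ω hω)⟩
  have hgf : ⌊g * J⌋₊ + 1 ≤ ⌊h₁ * (J : ℝ)⌋₊ := by
    refine Nat.le_floor ?_
    have h1 : (⌊g * J⌋₊ : ℝ) ≤ g * J := Nat.floor_le (by positivity)
    have h2 : g * J ≤ h₁ / 2 * J := mul_le_mul_of_nonneg_right hgh hJ0.le
    rw [div_le_iff₀ hh₁] at j4
    push_cast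
    linarith
  obtain ⟨gm1, gm2, gm3, gm4⟩ := gam m ⌊g * J⌋₊ g₁ g₂ ⌊h₁ * (J : ℝ)⌋₊ hg₁ hg₁m hg₂ hgf
  have hTr := S.tr hSt.1
  have hTm := S.tm hSt.1
  have hRb := S.rb hSt.1
  have hQJ : P₀ + q * h ≤ J := by omega
  have hκf0 : (0 : ℝ) < κf := by exact_mod_cast hκf1
  have hfe := hful J F i₁ r w P (P₀ + q * h) ⌊h₁ * (J : ℝ)⌋₊ κf (m * (⌊g * J⌋₊ + g₁) + g₂)
    (1 / 2 ^ (⌊g * J⌋₊ + g₁)) (ψ / 2) g (τ * J) (τ * J) (τ * J + lc) B hB G H cl v hCh'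
    hSp' (by positivity) gm1 gm2 gm3 gm4 hκf1 hTr hTm hRb hs1 hcl hzz (by omega) hQJ hwr hrJ
  have hTm' := Pool.STPA.sub_Tm_of_reg hTr hTm hRb hB hs1
  -- the deficit
  have hL0 : 0 ≤ ((P₀ + q * h : ℕ) : ℝ) - w := by
    have : (w : ℝ) ≤ ((P₀ + q * h : ℕ) : ℝ) := by exact_mod_cast (by omega)
    linarith
  have hLJ : ((P₀ + q * h : ℕ) : ℝ) - w ≤ J := by
    have h1 : ((P₀ + q * h : ℕ) : ℝ) ≤ J := by exact_mod_cast hQJ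
    have h2 : (0 : ℝ) ≤ w := Nat.cast_nonneg w
    linarith
  have hdef := num_def (m := m) (J := J) (g₁ := g₁) (g₂ := g₂) (κf := κf) (τ := τ) (lc := lc)
    hJ0 hm0 hC₃ hκf0 hg0 hψ hδ₀ hx₂0 hL0 hLJ hκfC hgC hτ1 hXr j5 j6
  have hfe' : (sdt (Fam.sub F B hB) i₁ w r P G).Full w (P₀ + q * h)
      (δ₀ * ((q * h : ℕ) : ℝ)) := by
    unfold SDat.Full at hfe ⊢
    linarith
  have he0 : 0 ≤ 4 * (τ * J) + τ * J + (τ * J + |lc|) := by positivity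
  have hTm'' : (Fam.sub F B hB).Tm (4 * (τ * J) + τ * J + (τ * J + |lc|)) := by
    have := le_abs_self lc
    unfold Fam.Tm at hTm' ⊢
    linarith
  have hek := num_hek (m := m) (J := J) (lc := lc) hJ0 hc'0 hκ hπ₀ hx₂0 hρ₀ hτ2 hXr j7 j10
  have hX₀ : X₀ ≤ q * h := by
    rw [div_le_iff₀ hx₂0] at j3
    have : (X₀ : ℝ) ≤ ((q * h : ℕ) : ℝ) := by linarith
    exact_mod_cast this
  exact ev_one (c := c' / 8) hOK hπ₀ (by positivity) hOV hB hlab hwr hwP₁ hP₀1 hP₀2 hP₂J hP₀P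
    hh0 hX₀ he0 hTm'' hfe' hrow hk8 hek

end Pool.OVN
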