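import Pool.Agent.H62.OVN.Tme
import Pool.Agent.H50.OVN.Pig

/-!
# The pigeonhole for the rows of a family
-/

set_option autoImplicit false

namespace Pool.OVN

open Finset Real MvPolynomial
open Pool.Agent.H49.Ent Pool.Agent.H32.Dense Pool.STK Pool.KA Pool.KSAT Pool.K2S Pool.KS3
open Pool.KAL Pool.PB Pool.KST Pool.FLF

theorem sum_blocks (f : ℕ → ℝ) (R Q : ℕ) :
    ∑ i ∈ range (R * Q), f i = ∑ ρ ∈ range R, ∑ r ∈ range Q, f (ρ * Q + r) := by
  induction R with
  | zero => simp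
  | succ R ih => rw [Nat.add_mul, Nat.one_mul, Finset.sum_range_add, ih, Finset.sum_range_succ]

/-- A subzone, a scale and a block all of whose sub-blocks are not full. -/
theorem pig_zone {m q M R u : ℕ} {c : ℝ} (hm : 0 < m) (hq : 1 ≤ q) (hR : 0 < R) (hu : 0 < u)
    (hc : 0 < c) (hM : ((q : ℝ) - 1) ^ M < c / m / 2 * (q : ℝ) ^ M) (h : ℕ → ℝ)
    (h0 : ∀ i < R * q ^ M, 0 ≤ h i)
    (hs : ∑ i ∈ range (R * q ^ M), h i ≤
      (m - c) * (((R * q ^ M : ℕ) : ℝ) * (u * Real.log 2))) :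
    ∃ ρ < R, ∃ n < M, ∃ k < q ^ (M - n - 1), ∀ j < q,
      ∑ i ∈ range (q ^ n), h (ρ * q ^ M + (k * q + j) * q ^ n + i) ≤
        (m - c / 2) * ((q : ℝ) ^ n * (u * Real.log 2)) := by
  have hl2 : 0 < Real.log 2 := Real.log_pos (by norm_num)
  have hm0 : (0 : ℝ) < m := by exact_mod_cast hm
  have hu0 : (0 : ℝ) < u := by exact_mod_cast hu
  have hq0 : (0 : ℝ) < q := by exact_mod_cast (show 0 < q by omega)
  obtain ⟨v, hv⟩ : ∃ v : ℝ, v = u * Real.log 2 := ⟨_, rfl⟩
  have hv0 : 0 < v := by rw [hv]; positivity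
  rw [← hv] at hs ⊢
  rw [sum_blocks] at hs
  obtain ⟨ρ, hρ, hsρ⟩ := Finset.exists_le_of_sum_le (s := range R)
    (f := fun ρ => ∑ r ∈ range (q ^ M), h (ρ * q ^ M + r))
    (g := fun _ => (m - c) * ((q : ℝ) ^ M * v)) ⟨0, Finset.mem_range.2 hR⟩ (by
      refine hs.trans (le_of_eq ?_)
      rw [Finset.sum_const, Finset.card_range, nsmul_eq_mul]
      push_cast
      ring)
  rw [Finset.mem_range] at hρ
  refine ⟨ρ, hρ, ?_⟩
  have hidx : ∀ r < q ^ M, ρ * q ^ M + r < R * q ^ M := by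
    intro r hr
    calc ρ * q ^ M + r < ρ * q ^ M + q ^ M := by omega
      _ = (ρ + 1) * q ^ M := by ring
      _ ≤ _ := Nat.mul_le_mul_right _ hρ
  obtain ⟨n, hn, k, hk, h2⟩ := pig_sum q hq (c / m) (by positivity) M hM
    (fun r => 1 - h (ρ * q ^ M + r) / (m * v))
    (fun r hr => by
      have := h0 _ (hidx r hr)
      have : 0 ≤ h (ρ * q ^ M + r) / (m * v) := by positivity
      linarith)
    (by
      rw [Finset.sum_sub_distrib, Finset.sum_const, Finset.card_range, nsmul_eq_mul, mul_one,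
        ← Finset.sum_div, le_sub_iff_add_le, ← le_sub_iff_add_le', div_le_iff₀ (by positivity)]
      refine hsρ.trans (le_of_eq ?_)
      push_cast
      field_simp)
  refine ⟨n, hn, k, hk, fun j hj => ?_⟩
  have h3 := h2 j hj
  have e1 : (k * q + j + 1) * q ^ n - (k * q + j) * q ^ n = q ^ n := by
    rw [Nat.add_mul (k * q + j) 1, Nat.one_mul, Nat.add_sub_cancel_left]
  rw [Finset.sum_Ico_eq_sum_range, e1, Finset.sum_sub_distrib, Finset.sum_const,
    Finset.card_range, nsmul_eq_mul, mul_one, ← Finset.sum_div, le_sub_iff_add_le,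
    ← le_sub_iff_add_le', div_le_iff₀ (by positivity)] at h3
  have e2 : ∑ i ∈ range (q ^ n), h (ρ * q ^ M + (k * q + j) * q ^ n + i) =
      ∑ i ∈ range (q ^ n), h (ρ * q ^ M + ((k * q + j) * q ^ n + i)) := by
    refine Finset.sum_congr rfl fun i _ => ?_
    rw [add_assoc]
  rw [e2]
  refine h3.trans (le_of_eq ?_)
  push_cast
  field_simp

variable {m J : ℕ}

/-- Telescoping of blocks. -/
theorem rows_sum {F : Fam m J} {q : F.Ω → ℝ} (hq : IsLaw q) (a u n : ℕ) :
    CH q (F.X (a + n * u)) (ptr F a) =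
      ∑ i ∈ range n, CH q (F.X (a + (i + 1) * u)) (ptr F (a + i * u)) := by
  induction n with
  | zero => rw [Finset.sum_range_zero, Nat.zero_mul, Nat.add_zero, CH_rows_eq hq le_rfl, sub_self]
  | succ n ih =>
    have h4 : n * u ≤ (n + 1) * u := Nat.mul_le_mul_right _ (by omega)
    rw [Finset.sum_range_succ, ← ih,
      CH_rows_eq hq (show a + n * u ≤ a + (n + 1) * u by omega),
      CH_rows_eq hq (show a ≤ a + n * u by omega),
      CH_rows_eq hq (show a ≤ a + (n + 1) * u by omega)]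
    ring

/-- Few values on the restriction. -/
theorem cn_sub {F : Fam m J} {A B : F.Ω → Prop} (hs : Sub B A) (hB : 0 < Pe F.p B) {a b : ℕ}
    {h : ℝ} (hc : Cn (F.X b) (ptr F a) h A) :
    Cn ((Fam.sub F B hB).X b) (ptr (Fam.sub F B hB) a) h (fun _ => True) := by
  intro ω _
  obtain ⟨s, h1, h2⟩ := hc ω.1 (hs ω.1 ω.2)
  exact ⟨s, h1, fun ω' _ e => h2 ω'.1 (hs ω'.1 ω'.2) e⟩

/-- The rows of the blocks on all events of the restriction. -/
theorem hrow_of_cn {F : Fam m J} {A B : F.Ω → Prop} (hs : Sub B A) (hB : 0 < Pe F.p B)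
    {P₁ u a n : ℕ} {h : ℕ → ℝ}
    (hc : ∀ i < n, Cn (F.X (P₁ + (a + i + 1) * u)) (ptr F (P₁ + (a + i) * u)) (h (a + i)) A)
    (E : (Fam.sub F B hB).Ω → Prop) (hE : 0 < Pe (Fam.sub F B hB).p E) :
    CH (Pool.Agent.H49.Ent.cond (Fam.sub F B hB).p E True)
      ((Fam.sub F B hB).X (P₁ + a * u + n * u)) (ptr (Fam.sub F B hB) (P₁ + a * u)) ≤
        ∑ i ∈ range n, h (a + i) := by
  have hql := isLaw_cond (Fam.sub F B hB).isLaw hE
  rw [rows_sum hql]
  refine Finset.sum_le_sum fun i hi => ?_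
  have h1 := cn_sub hs hB (hc i (Finset.mem_range.1 hi))
  have h2 := Cn.CH hql h1 (fun _ _ => trivial)
  have e1 : P₁ + a * u + (i + 1) * u = P₁ + (a + i + 1) * u := by ring
  have e2 : P₁ + a * u + i * u = P₁ + (a + i) * u := by ring
  rw [e1, e2]
  exact h2

end Pool.OVN
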