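import Pool.Agent.H62.OVN.Fev
import Pool.Agent.H62.OVN.Pgz
import Pool.Agent.H62.OVN.Cod

/-!
# Own-visibility of a label on an event
-/

set_option autoImplicit false

namespace Pool.OVN

open Finset Real MvPolynomial
open Pool.Agent.H49.Ent Pool.Agent.H32.Dense Pool.STK Pool.KA Pool.KSAT Pool.K2S Pool.KS3
open Pool.KAL Pool.PB Pool.KST Pool.FLF

variable {m J : ℕ}

theorem LabW.to_sub {F : Fam m J} {i₁ : Fin m} {r K a w P : ℕ}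
    {G : (Fin m → ℤ) × (ℕ × F.ζ) → MvPolynomial (Fin m) ℝ}
    {H : ((Fin m → ℝ) × (Fin m → ℝ)) × F.ζ × ℕ → MvPolynomial (Fin m) ℝ} {B : F.Ω → Prop}
    (hB : 0 < Pe F.p B) (h : LabW F i₁ r K a w P G H B) :
    LabW (Fam.sub F B hB) i₁ r K a w P G H (fun _ => True) :=
  ⟨h.1, h.2.1, fun ω _ => h.2.2 ω.1 ω.2⟩

/-- From the random sheet to the label of the family. -/
theorem transfer {F : Fam m J} {i₁ : Fin m} {w r P P₀ P₁ P₂ : ℕ}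
    {G : (Fin m → ℤ) × (ℕ × F.ζ) → MvPolynomial (Fin m) ℝ} {B : F.Ω → Prop}
    (hB : 0 < Pe F.p B) (hwJ : w ≤ J) (hwr : w ≤ r) (h01 : P₁ ≤ P₀)
    (h0P : P₀ ≤ P) (h02 : P₀ ≤ P₂) (hP₂ : P₂ ≤ J) :
    CH (Pool.Agent.H49.Ent.cond F.p B True)
      (fun ω => hz P₁ (pul w (bcel F i₁ w ω) (G (ptr F r ω)))) (ptr F P₂) ≤
    CH (sdt (Fam.sub F B hB) i₁ w r P G).P (hz P₀ ∘ (sdt (Fam.sub F B hB) i₁ w r P G).ger w)
      (fun ω => ((sdt (Fam.sub F B hB) i₁ w r P G).W ω,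
        (sdt (Fam.sub F B hB) i₁ w r P G).pnt P₀ ω)) := by
  obtain ⟨F', hF'⟩ : ∃ F', F' = Fam.sub F B hB := ⟨_, rfl⟩
  have hp := (Fam.sub F B hB).isLaw.nonneg
  have e1 : CH (Pool.Agent.H49.Ent.cond F.p B True)
      (fun ω => hz P₁ (pul w (bcel F i₁ w ω) (G (ptr F r ω)))) (ptr F P₂) =
      CH (Fam.sub F B hB).p (fun ω => hz P₁ (pul w (bcel (Fam.sub F B hB) i₁ w ω)
        (G (ptr (Fam.sub F B hB) r ω)))) (ptr (Fam.sub F B hB) P₂) :=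
    (sub_CH (hA := hB) (fun ω => hz P₁ (pul w (bcel F i₁ w ω) (G (ptr F r ω)))) (ptr F P₂)).symm
  rw [e1]
  have h1 : CH (Fam.sub F B hB).p (fun ω => hz P₁ (pul w (bcel (Fam.sub F B hB) i₁ w ω)
        (G (ptr (Fam.sub F B hB) r ω)))) (ptr (Fam.sub F B hB) P₂) ≤
      CH (Fam.sub F B hB).p (fun ω => hz P₁ (pul w (bcel (Fam.sub F B hB) i₁ w ω)
        (G (ptr (Fam.sub F B hB) r ω)))) (fun ω => ((sdt (Fam.sub F B hB) i₁ w r P G).W ω,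
        (sdt (Fam.sub F B hB) i₁ w r P G).pnt P₀ ω)) := by
    refine CH_mono_cond hp fun ω ω' _ _ hh => ?_
    have hX : (Fam.sub F B hB).X P₂ ω = (Fam.sub F B hB).X P₂ ω' := (Prod.ext_iff.mp hh).1
    have hW : (Fam.sub F B hB).W ω = (Fam.sub F B hB).W ω' := (Prod.ext_iff.mp hh).2
    have hT : (Fam.sub F B hB).T ω = (Fam.sub F B hB).T ω' := (Prod.ext_iff.mp hW).1
    have hZ : (Fam.sub F B hB).Z ω = (Fam.sub F B hB).Z ω' := (Prod.ext_iff.mp hW).2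
    refine Prod.ext hZ ?_
    refine (pnt_inj (h02.trans hP₂)).2 ⟨Pool.STK.B58.fl_fine h02 hX, ?_⟩
    unfold Fam.T1
    rw [hT]
  refine h1.trans ?_
  refine CH_mono_left hp fun ω ω' _ _ hh => ?_
  have h2 : hz P₀ ((sdt (Fam.sub F B hB) i₁ w r P G).ger w ω) =
      hz P₀ ((sdt (Fam.sub F B hB) i₁ w r P G).ger w ω') := (Prod.ext_iff.mp hh).1
  rw [sdt_hz _ i₁ hwJ hwr h0P, sdt_hz _ i₁ hwJ hwr h0P] at h2
  funext s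
  rw [hz_div _ h01 s, hz_div _ h01 s, h2]

/-- **One event, one block.** -/
theorem ev_one {K : ℕ} {D : ℝ} {c₀ : ℕ}
    (hOK : ∀ (J : ℕ) (F : Fam m J) (i₁ : Fin m) (w r P Q : ℕ)
      (G : (Fin m → ℤ) × (ℕ × F.ζ) → MvPolynomial (Fin m) ℝ)
      (H : ((Fin m → ℝ) × (Fin m → ℝ)) × F.ζ × ℕ → MvPolynomial (Fin m) ℝ),
      LabW F i₁ r K w w P G H (fun _ => True) → w ≤ J → w ≤ r → Q + c₀ ≤ P →
      (sdt F i₁ w r P G).OK K w Q D)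
    {κ π₀ δ₀ C ε c : ℝ} {X₀ : ℕ} (hπ : 0 < π₀) (hc : 0 < c)
    (hOV : ∀ (d : SDat m) (a₀ P X : ℕ), X₀ ≤ X → a₀ ≤ P → d.OK K a₀ (P + X) D →
      d.Full a₀ (P + X) (δ₀ * X) → d.NF (c / 2) ⌊κ * X⌋₊ P X π₀ →
      CH d.P (hz P ∘ d.ger a₀) (fun ω => (d.W ω, d.pnt P ω)) ≤ ε * ((P : ℝ) - a₀) + C * X)
    {F : Fam m J} {i₁ : Fin m} {r w P P₁ P₂ P₀ q h : ℕ}
    {G : (Fin m → ℤ) × (ℕ × F.ζ) → MvPolynomial (Fin m) ℝ}
    {H : ((Fin m → ℝ) × (Fin m → ℝ)) × F.ζ × ℕ → MvPolynomial (Fin m) ℝ} {B : F.Ω → Prop}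
    (hB : 0 < Pe F.p B) (hlab : LabW F i₁ r K w w P G H B) (hwr : w ≤ r) (h1 : w ≤ P₁)
    (h2 : P₁ ≤ P₀) (h3 : P₀ + q * h ≤ P₂) (hPJ : P₂ ≤ J) (h4 : P₀ + q * h + c₀ ≤ P)
    (hh : 0 < h) (hX₀ : X₀ ≤ q * h) {e₁ : ℝ} (he0 : 0 ≤ e₁) (he : (Fam.sub F B hB).Tm e₁)
    (hfull : (sdt (Fam.sub F B hB) i₁ w r P G).Full w (P₀ + q * h) (δ₀ * ((q * h : ℕ) : ℝ)))
    (hrow : ∀ E : (Fam.sub F B hB).Ω → Prop, 0 < Pe (Fam.sub F B hB).p E → ∀ j < q,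
      CH (Pool.Agent.H49.Ent.cond (Fam.sub F B hB).p E True)
        ((Fam.sub F B hB).X (P₀ + (j + 1) * h)) (ptr (Fam.sub F B hB) (P₀ + j * h)) ≤
        (m - c) * (h * Real.log 2))
    (hk : 8 * h ≤ ⌊κ * ((q * h : ℕ) : ℝ)⌋₊)
    (hek : (e₁ + Real.log 2) / π₀ + 4 * cc m ≤
      c / 4 * (⌊κ * ((q * h : ℕ) : ℝ)⌋₊ * Real.log 2)) :
    CH (Pool.Agent.H49.Ent.cond F.p B True)
      (fun ω => hz P₁ (pul w (bcel F i₁ w ω) (G (ptr F r ω)))) (ptr F P₂) ≤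
      ε * ((P₀ : ℝ) - w) + C * ((q * h : ℕ) : ℝ) := by
  have hwJ : w ≤ J := by omega
  have hT := transfer (i₁ := i₁) (G := G) (P := P) hB hwJ hwr h2 (show P₀ ≤ P by omega)
    (show P₀ ≤ P₂ by omega) hPJ
  have hok := hOK J (Fam.sub F B hB) i₁ w r P (P₀ + q * h) G H (LabW.to_sub hB hlab) hwJ hwr h4
  have hNF := sdt_nf (Fam.sub F B hB) i₁ w r P G (P := P₀) (q := q) (h := h)
    (k := ⌊κ * ((q * h : ℕ) : ℝ)⌋₊) hc hh he he0 hπ (by omega) hrow hk hek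
  exact hT.trans (hOV (sdt (Fam.sub F B hB) i₁ w r P G) w P₀ (q * h) hX₀ (h1.trans h2) hok hfull
    hNF)

end Pool.OVN
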