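import Pool.Agent.H62.OVN.Tme
import Pool.Agent.H37.STPA.Reg2
import Pool.Agent.H99.FLF.NCH
import Pool.Agent.H65.OVN.Cor

/-!
# Fullness of the base point on events
-/

set_option autoImplicit false

namespace Pool.OVN

open Finset Real MvPolynomial
open Pool.Agent.H49.Ent Pool.Agent.H32.Dense Pool.STK Pool.KA Pool.KSAT Pool.K2S Pool.KS3
open Pool.KAL Pool.PB Pool.KST Pool.FLF

/-- **(F)** for the random sheet of the restriction to an event. -/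
theorem full_event (m : ℕ) : ∃ C : ℝ, 0 ≤ C ∧ ∀ (J : ℕ) (F : Fam m J) (i₁ : Fin m)
    (r w Pz Q h κ γ : ℕ) (δ ψ g e e' s : ℝ) (B : F.Ω → Prop) (hB : 0 < Pe F.p B)
    (G : (Fin m → ℤ) × (ℕ × F.ζ) → MvPolynomial (Fin m) ℝ)
    (H : ((Fin m → ℝ) × (Fin m → ℝ)) × F.ζ × ℕ → MvPolynomial (Fin m) ℝ)
    (cl : ((Fin m → ℝ) × (Fin m → ℝ)) × F.ζ × ℕ → Fin m → ℤ) (v : (Fin m →₀ ℕ) → ℤ),
    Ch F i₁ h B → Sp F (m - 2) ψ g B → 0 ≤ ψ → 0 < δ → δ < 1 / 2 →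
    1 / 2 ^ h + 2 * m * δ ≤ 1 / 2 ^ ⌊g * J⌋₊ → m.factorial * (2 : ℝ) ^ m ≤ δ ^ m * 2 ^ γ →
    1 ≤ κ → F.Tr → F.Tm e' → F.Rb e → Real.exp (-s) ≤ Pe F.p B →
    (∀ ω, B ω → F.X w ω = cl (slam F w ω)) →
    (∀ ω, B ω → zP i₁ J w r Pz G (ptr F r ω) = zS i₁ w Pz cl H v (slam F w ω)) →
    w ≤ Q → Q ≤ J → w ≤ r → r ≤ J →
    (sdt (Fam.sub F B hB) i₁ w r Pz G).Full w Q (m * (4 * e + e' + s) +
      C * (((Q : ℝ) - w) / κ + γ + κ + 1 + 2 * Real.exp (-(ψ * J / 2)) * ((Q : ℝ) - w))) := by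
  obtain ⟨C, hC, hfull⟩ := full_lab m
  refine ⟨C, hC, ?_⟩
  intro J F i₁ r w Pz Q h κ γ δ ψ g e e' s B hB G H cl v hCh hSp hψ hδ hδ2 hδg hγ hκ hTr hTm hRb
    hs hcl hz hwQ hQJ hwr hrJ
  obtain ⟨st, hn⟩ := slb_of_sp hCh hSp hδ2 hδg hψ w
  obtain ⟨ef, hef0, hef1, -, hef2⟩ := ncf_of_stb F.isLaw hB (slam F w) (Fam.pt F) (lB (chI i₁)) st hn
  have hspl := sp_isLaw F.isLaw hB
  have hexp : 2 * Real.exp (-(ψ * J / 2)) = 2 * Real.exp (-(ψ * J / 2)) := rfl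
  obtain ⟨e2, he20, he21, he22⟩ := NCF.coarse (p := (Fam.sub F B hB).p) hspl
    (lam := fun ω : {ω // B ω} => slam F w ω.1) (x := fun ω : {ω // B ω} => Fam.pt F ω.1)
    (e := ef) (ε := 2 * Real.exp (-(ψ * J / 2))) hef0 hef2 hef1
    (x' := fun ω : {ω // B ω} => (trp F Q ω.1, zP i₁ J w r Pz G (ptr F r ω.1))) (by
      intro ω ω' _ _ hh
      have hh' : Fam.pt F ω.1 = Fam.pt F ω'.1 := hh
      have hX : F.X J ω.1 = F.X J ω'.1 := (Prod.ext_iff.mp hh').1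
      have hW : F.W ω.1 = F.W ω'.1 := (Prod.ext_iff.mp hh').2
      have hT : F.T ω.1 = F.T ω'.1 := (Prod.ext_iff.mp hW).1
      have hZ : F.Z ω.1 = F.Z ω'.1 := (Prod.ext_iff.mp hW).2
      have hXQ : F.X Q ω.1 = F.X Q ω'.1 := Pool.STK.B58.fl_fine hQJ hX
      have hXr : F.X r ω.1 = F.X r ω'.1 := Pool.STK.B58.fl_fine hrJ hX
      have h1 : trp F Q ω.1 = trp F Q ω'.1 := by
        unfold trp Fam.T1
        rw [hXQ, hT, hZ]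
      have h2 : ptr F r ω.1 = ptr F r ω'.1 := by
        unfold ptr
        rw [hXr, hW]
      simp only
      rw [h1, h2])
  obtain ⟨L, hL⟩ : ∃ L, L = Q - w := ⟨_, rfl⟩
  have hLr : (L : ℝ) = (Q : ℝ) - w := by rw [hL, Nat.cast_sub hwQ]
  have hTm' := Pool.STPA.sub_Tm_of_reg hTr hTm hRb hB hs
  have h1 := hfull J (Fam.sub F B hB) i₁ w L Q (by omega) hQJ cl (fun ω => hcl ω.1 ω.2) _
    (fun ω => zP i₁ J w r Pz G (ptr (Fam.sub F B hB) r ω)) (zS i₁ w Pz cl H v)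
    (fun ω => hz ω.1 ω.2) (fun z => z.1)
    (fun ω => zP_cell (Fam.sub F B hB) i₁ hwr G ω) κ γ δ
    (2 * Real.exp (-(ψ * J / 2))) (4 * e + e' + s) e2 hδ he20 he21 he22 hγ hκ hTm'
  rw [hLr] at h1
  unfold SDat.Full
  have h2 : CH (Fam.sub F B hB).p (fun ω => fl Q (bp (Fam.sub F B hB) i₁ ω))
      (fun ω => zP i₁ J w r Pz G (ptr (Fam.sub F B hB) r ω)) ≤
      CH (sdt (Fam.sub F B hB) i₁ w r Pz G).P ((sdt (Fam.sub F B hB) i₁ w r Pz G).cel Q)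
        (fun ω => (((sdt (Fam.sub F B hB) i₁ w r Pz G).L ω,
          (sdt (Fam.sub F B hB) i₁ w r Pz G).W ω), (sdt (Fam.sub F B hB) i₁ w r Pz G).cel w ω)) := by
    refine CH_mono_cond (Fam.sub F B hB).isLaw.nonneg fun ω ω' _ _ hh => ?_
    obtain ⟨a1, a2, a3, -⟩ := zP_eq (Fam.sub F B hB) i₁ (hwQ.trans hQJ) hwr G hh
    refine Prod.ext (Prod.ext hh a3) ?_
    change bcel (Fam.sub F B hB) i₁ w ω = bcel (Fam.sub F B hB) i₁ w ω'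
    rw [bcel_eq (Fam.sub F B hB) i₁ (hwQ.trans hQJ), bcel_eq (Fam.sub F B hB) i₁ (hwQ.trans hQJ),
      a1, a2]
  linarith

end Pool.OVN
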