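import Pool.Agent.H62.OVN.Cnt

/-!
# From zones to zones of the mesh
-/

set_option autoImplicit false

namespace Pool.OVN

open Finset Real
open Pool.Agent.H49.Ent Pool.Agent.H32.Dense Pool.STK Pool.KA Pool.KSAT Pool.K2S Pool.PB

variable {m J : ℕ}

/-- Zones inside. -/
theorem zm_mesh {F : Fam m J} {A : F.Ω → Prop} (hA : 0 < Pe F.p A) {c x : ℝ} {N c₀ P₁ P₂ : ℕ}
    (hc : 0 < c) (hcm : c ≤ m) (hx : 0 < x) (hN : 0 < N) (hN1 : 16 * m ≤ c * x * N)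
    (hN2 : 8 ≤ x * N) (hJN : 2 * N * (c₀ + 1) ≤ J) (h12 : (P₁ : ℝ) + x * J ≤ P₂) (hP₂ : P₂ ≤ J)
    (hZ : Zm F c P₁ P₂ A) :
    ∃ p₁ p₂ : ℕ, p₁ < p₂ ∧ p₂ < 2 * N ∧ P₁ ≤ p₁ * (J / N) ∧ p₂ * (J / N) + c₀ ≤ P₂ ∧
      x / 2 * J ≤ ((p₂ * (J / N) : ℕ) : ℝ) - ((p₁ * (J / N) : ℕ) : ℝ) ∧
      Zm F (c / 2) (p₁ * (J / N)) (p₂ * (J / N)) A := by
  have hl2 : 0 < Real.log 2 := Real.log_pos (by norm_num)
  have hN0 : (0 : ℝ) < N := by exact_mod_cast hN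
  obtain ⟨j, hj⟩ : ∃ j, j = J / N := ⟨_, rfl⟩
  rw [← hj]
  have hjc : c₀ + 1 ≤ j := by
    rw [hj, Nat.le_div_iff_mul_le hN]
    calc (c₀ + 1) * N ≤ 2 * N * (c₀ + 1) := by nlinarith only [hN]
      _ ≤ J := hJN
  have hj0 : 0 < j := by omega
  have hJ0 : 0 < J := by
    have : 0 < 2 * N * (c₀ + 1) := by positivity
    omega
  have hJr : (0 : ℝ) < J := by exact_mod_cast hJ0
  have hjJ : (j : ℝ) * N ≤ J := by
    have : j * N ≤ J := by rw [hj]; exact Nat.div_mul_le_self J N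
    exact_mod_cast this
  have hJj : J < 2 * N * j := by
    have h1 := Nat.lt_div_mul_add (a := J) hN
    rw [← hj] at h1
    nlinarith only [hJN, h1]
  have hjx : 8 * (j : ℝ) ≤ x * J := by
    have h1 := mul_le_mul_of_nonneg_left hjJ hx.le
    have h2 := mul_le_mul_of_nonneg_right hN2 (show (0 : ℝ) ≤ j by positivity)
    nlinarith only [h1, h2]
  have hjr : (c₀ : ℝ) + 1 ≤ j := by exact_mod_cast hjc
  have hP₂c : c₀ ≤ P₂ := by
    have h0 : (0 : ℝ) ≤ P₁ := Nat.cast_nonneg _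
    have : (c₀ : ℝ) ≤ P₂ := by linarith only [h12, hjx, hjr]
    exact_mod_cast this
  obtain ⟨p₁, hp₁⟩ : ∃ p₁, p₁ = P₁ / j + 1 := ⟨_, rfl⟩
  obtain ⟨p₂, hp₂⟩ : ∃ p₂, p₂ = (P₂ - c₀) / j := ⟨_, rfl⟩
  have a1 : P₁ ≤ p₁ * j := by
    have := Nat.lt_div_mul_add (a := P₁) hj0
    rw [hp₁, Nat.add_mul, Nat.one_mul]
    exact this.le
  have a2 : p₁ * j ≤ P₁ + j := by
    have := Nat.div_mul_le_self P₁ j
    rw [hp₁, Nat.add_mul, Nat.one_mul]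
    omega
  have a3 : p₂ * j ≤ P₂ - c₀ := by rw [hp₂]; exact Nat.div_mul_le_self _ _
  have a4 : P₂ - c₀ < p₂ * j + j := by
    rw [hp₂]
    exact Nat.lt_div_mul_add hj0
  have b2 : ((p₁ * j : ℕ) : ℝ) ≤ P₁ + j := by exact_mod_cast a2
  have b1 : (P₁ : ℝ) ≤ ((p₁ * j : ℕ) : ℝ) := by exact_mod_cast a1
  have b4 : (P₂ : ℝ) ≤ ((p₂ * j : ℕ) : ℝ) + 2 * j := by
    have : P₂ ≤ p₂ * j + 2 * j := by omega
    exact_mod_cast this
  have b3 : ((p₂ * j : ℕ) : ℝ) ≤ P₂ := by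
    have : p₂ * j ≤ P₂ := by omega
    exact_mod_cast this
  have hΔ : x / 2 * J ≤ ((p₂ * j : ℕ) : ℝ) - ((p₁ * j : ℕ) : ℝ) := by linarith only [h12, hjx, hjr, b2, b4]
  have hlt : ((p₁ * j : ℕ) : ℝ) < ((p₂ * j : ℕ) : ℝ) := by
    have : 0 < x / 2 * J := by positivity
    linarith only [h12, hjx, hjr, b2, b4]
  have hlt' : p₁ * j < p₂ * j := by exact_mod_cast hlt
  refine ⟨p₁, p₂, lt_of_mul_lt_mul_right hlt' (Nat.zero_le _), ?_, a1, by omega, hΔ, ?_⟩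
  · have : p₂ * j < 2 * N * j := by omega
    exact lt_of_mul_lt_mul_right this (Nat.zero_le _)
  · have hq := isLaw_cond F.isLaw hA
    have h1 : P₁ ≤ P₂ := by omega
    have e1 : CH (Pool.Agent.H49.Ent.cond F.p A True) (F.X P₂) (fun ω => (F.X P₁ ω, F.W ω)) =
        CH (Pool.Agent.H49.Ent.cond F.p A True) (F.X P₂) F.W -
        CH (Pool.Agent.H49.Ent.cond F.p A True) (F.X P₁) F.W := CH_rows_eq hq h1
    have e2 : CH (Pool.Agent.H49.Ent.cond F.p A True) (F.X (p₂ * j))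
        (fun ω => (F.X (p₁ * j) ω, F.W ω)) =
        CH (Pool.Agent.H49.Ent.cond F.p A True) (F.X (p₂ * j)) F.W -
        CH (Pool.Agent.H49.Ent.cond F.p A True) (F.X (p₁ * j)) F.W := CH_rows_eq hq hlt'.le
    have e3 : 0 ≤ CH (Pool.Agent.H49.Ent.cond F.p A True) (F.X P₂) F.W -
        CH (Pool.Agent.H49.Ent.cond F.p A True) (F.X (p₂ * j)) F.W := by
      rw [← CH_rows_eq hq (show p₂ * j ≤ P₂ by omega)]
      exact CH_nonneg hq.nonneg _ _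
    have e4 : 0 ≤ CH (Pool.Agent.H49.Ent.cond F.p A True) (F.X (p₁ * j)) F.W -
        CH (Pool.Agent.H49.Ent.cond F.p A True) (F.X P₁) F.W := by
      rw [← CH_rows_eq hq a1]
      exact CH_nonneg hq.nonneg _ _
    unfold Zm at hZ ⊢
    rw [e1] at hZ
    rw [e2]
    have h5 : (m - c) * (((P₂ : ℝ) - P₁) * Real.log 2) ≤
        (m - c / 2) * ((((p₂ * j : ℕ) : ℝ) - ((p₁ * j : ℕ) : ℝ)) * Real.log 2) := by
      rw [← mul_assoc, ← mul_assoc]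
      refine mul_le_mul_of_nonneg_right ?_ hl2.le
      obtain ⟨Δ, hΔe⟩ : ∃ Δ, Δ = ((p₂ * j : ℕ) : ℝ) - ((p₁ * j : ℕ) : ℝ) := ⟨_, rfl⟩
      rw [← hΔe] at hΔ ⊢
      have h6 : (P₂ : ℝ) - P₁ ≤ Δ + 3 * j := by linarith only [b2, b4, hΔe]
      have h7 : 0 ≤ (m : ℝ) - c := by linarith only [hcm]
      have h8 : (m - c) * ((P₂ : ℝ) - P₁) ≤ (m - c) * (Δ + 3 * j) :=
        mul_le_mul_of_nonneg_left h6 h7
      have h9 : c / 2 * (x / 2 * J) ≤ c / 2 * Δ := mul_le_mul_of_nonneg_left hΔ (by positivity)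
      have h10 : 16 * (m : ℝ) * j ≤ c * x * J := by
        have h11 := mul_le_mul_of_nonneg_right hN1 (show (0 : ℝ) ≤ j by positivity)
        have h12 := mul_le_mul_of_nonneg_left hjJ (show 0 ≤ c * x by positivity)
        nlinarith only [h11, h12]
      have h13 : (m - c) * (3 * (j : ℝ)) ≤ 3 * m * j := by
        have : 0 ≤ c * (3 * (j : ℝ)) := by positivity
        nlinarith only [this]
      nlinarith only [h8, h9, h10, h13]
    linarith only [hZ, e3, e4, h5]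

end Pool.OVN
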