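import Pool.Agent.H62.OVN.Evt
import Pool.Agent.H62.OVN.Msh

/-!
# The constants
-/

set_option autoImplicit false

namespace Pool.OVN

open Finset Real MvPolynomial
open Pool.Agent.H49.Ent Pool.Agent.H32.Dense Pool.STK Pool.KA Pool.KSAT Pool.K2S Pool.KS3
open Pool.KAL Pool.PB Pool.KST Pool.FLF

/-- The constants of the nonconcentration. -/
theorem gam (m a c₁ c₂ h : ℕ) (h1 : 2 ≤ c₁) (h2 : 4 * (m : ℝ) ≤ 2 ^ c₁)
    (h3 : (m.factorial : ℝ) * 2 ^ m ≤ 2 ^ c₂) (h4 : a + 1 ≤ h) :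
    (0 : ℝ) < 1 / 2 ^ (a + c₁) ∧ (1 : ℝ) / 2 ^ (a + c₁) < 1 / 2 ∧
      (1 : ℝ) / 2 ^ h + 2 * m * (1 / 2 ^ (a + c₁)) ≤ 1 / 2 ^ a ∧
      (m.factorial : ℝ) * 2 ^ m ≤ (1 / 2 ^ (a + c₁)) ^ m * 2 ^ (m * (a + c₁) + c₂) := by
  have ha : (0 : ℝ) < 2 ^ a := by positivity
  refine ⟨by positivity, ?_, ?_, ?_⟩
  · rw [div_lt_div_iff₀ (by positivity) (by norm_num), one_mul, one_mul]
    calc (2 : ℝ) < 2 ^ 2 := by norm_num
      _ ≤ 2 ^ (a + c₁) := pow_le_pow_right₀ (by norm_num) (by omega)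
  · have e1 : (1 : ℝ) / 2 ^ h ≤ 1 / 2 ^ (a + 1) :=
      one_div_le_one_div_of_le (by positivity) (pow_le_pow_right₀ (by norm_num) h4)
    have e2 : 2 * (m : ℝ) * (1 / 2 ^ (a + c₁)) ≤ 1 / 2 ^ (a + 1) := by
      rw [mul_one_div, div_le_div_iff₀ (by positivity) (by positivity), one_mul, pow_add, pow_add]
      nlinarith
    have e3 : (1 : ℝ) / 2 ^ a = 1 / 2 ^ (a + 1) + 1 / 2 ^ (a + 1) := by
      rw [pow_succ]
      field_simp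
      norm_num
    linarith
  · rw [one_div, inv_pow, ← pow_mul, pow_add, mul_comm (a + c₁) m, ← mul_assoc,
      inv_mul_cancel₀ (by positivity), one_mul]
    exact h3

/-- The position of the blocks. -/
theorem blk_le {q M R n k ρ Q₁ Q₂ u : ℕ} (hn : n < M) (hk : k < q ^ (M - n - 1)) (hρ : ρ < R)
    (hu : R * q ^ M * u ≤ Q₂ - Q₁) (hQ : Q₁ ≤ Q₂) :
    Q₁ + (ρ * q ^ M + k * q * q ^ n) * u + q * (q ^ n * u) ≤ Q₂ := by
  have e1 : q ^ (M - n - 1) * (q * q ^ n) = q ^ M := by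
    rw [← pow_succ', ← pow_add]
    congr 1
    omega
  have h1 : (k + 1) * (q * q ^ n) ≤ q ^ M := by
    rw [← e1]
    exact Nat.mul_le_mul_right _ hk
  have h2 : (ρ + 1) * q ^ M ≤ R * q ^ M := Nat.mul_le_mul_right _ hρ
  have h3 : (ρ * q ^ M + (k + 1) * (q * q ^ n)) * u ≤ R * q ^ M * u := by
    refine Nat.mul_le_mul_right _ ?_
    calc ρ * q ^ M + (k + 1) * (q * q ^ n) ≤ ρ * q ^ M + q ^ M := by omega
      _ = (ρ + 1) * q ^ M := by ring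
      _ ≤ _ := h2
  have e2 : (ρ * q ^ M + k * q * q ^ n) * u + q * (q ^ n * u) =
      (ρ * q ^ M + (k + 1) * (q * q ^ n)) * u := by ring
  rw [Nat.add_assoc, e2]
  omega

theorem len_le {q M R n u : ℕ} (hn : n < M) (hq : 1 ≤ q) :
    R * (q * (q ^ n * u)) ≤ R * q ^ M * u := by
  have h1 : q * q ^ n ≤ q ^ M := by
    rw [← pow_succ']
    exact Nat.pow_le_pow_right hq hn
  calc R * (q * (q ^ n * u)) = R * (q * q ^ n) * u := by ring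
    _ ≤ _ := Nat.mul_le_mul_right _ (Nat.mul_le_mul_left _ h1)

theorem idx_lt {q M R n k ρ j i : ℕ} (hn : n < M) (hk : k < q ^ (M - n - 1)) (hρ : ρ < R)
    (hj : j < q) (hi : i < q ^ n) : (ρ * q ^ M + (k * q + j) * q ^ n) + i < R * q ^ M := by
  have e1 : q ^ (M - n - 1) * (q * q ^ n) = q ^ M := by
    rw [← pow_succ', ← pow_add]
    congr 1
    omega
  have h1 : (k + 1) * (q * q ^ n) ≤ q ^ M := by
    rw [← e1]
    exact Nat.mul_le_mul_right _ hk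
  have h2 : (ρ + 1) * q ^ M ≤ R * q ^ M := Nat.mul_le_mul_right _ hρ
  have h3 : (k * q + j + 1) * q ^ n ≤ (k + 1) * (q * q ^ n) := by
    have : k * q + j + 1 ≤ (k + 1) * q := by nlinarith
    calc _ ≤ (k + 1) * q * q ^ n := Nat.mul_le_mul_right _ this
      _ = _ := by ring
  have h4 : (k * q + j + 1) * q ^ n = (k * q + j) * q ^ n + q ^ n := by ring
  have h5 : (ρ + 1) * q ^ M = ρ * q ^ M + q ^ M := by ring
  omega

/-- The deficit. -/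
theorem num_def {m J g₁ g₂ κf : ℕ} {τ lc C₃ L g ψ δ₀ x₂ X : ℝ} (hJ0 : 0 < (J : ℝ))
    (hm0 : 0 < (m : ℝ)) (hC₃ : 0 ≤ C₃) (hκf0 : 0 < (κf : ℝ)) (hg0 : 0 < g) (hψ : 0 < ψ)
    (hδ₀ : 0 < δ₀) (hx₂0 : 0 < x₂) (hL0 : 0 ≤ L) (hLJ : L ≤ J)
    (hκfC : C₃ ≤ δ₀ * x₂ / 8 * κf) (hgC : C₃ * m * g ≤ δ₀ * x₂ / 8)
    (hτ1 : 6 * m * τ ≤ δ₀ * x₂ / 8) (hXr : x₂ * J ≤ X)
    (j5 : (m * |lc| + C₃ * (m * g₁ + g₂ + κf + 1)) / (δ₀ * x₂ / 8) ≤ J)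
    (j6 : 64 * C₃ / (ψ * (δ₀ * x₂)) ≤ J) :
    m * (4 * (τ * J) + τ * J + (τ * J + lc)) +
      C₃ * (L / κf + ((m * (⌊g * J⌋₊ + g₁) + g₂ : ℕ) : ℝ) + κf + 1 +
      2 * Real.exp (-(ψ / 2 * J / 2)) * L) ≤ δ₀ * X := by
  have b1 : C₃ * (L / κf) ≤ δ₀ * x₂ / 8 * J := by
    have h1 : C₃ * L ≤ δ₀ * x₂ / 8 * κf * J :=
      mul_le_mul hκfC hLJ hL0 (by positivity)
    rw [← mul_div_assoc, div_le_iff₀ hκf0]
    linarith
  have b2 : C₃ * ((m * (⌊g * J⌋₊ + g₁) + g₂ : ℕ) : ℝ) ≤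
      δ₀ * x₂ / 8 * J + C₃ * (m * g₁ + g₂) := by
    have h1 : (⌊g * J⌋₊ : ℝ) ≤ g * J := Nat.floor_le (by positivity)
    have h2 : C₃ * m * ⌊g * J⌋₊ ≤ C₃ * m * (g * J) :=
      mul_le_mul_of_nonneg_left h1 (by positivity)
    have h3 : C₃ * m * g * J ≤ δ₀ * x₂ / 8 * J := mul_le_mul_of_nonneg_right hgC hJ0.le
    push_cast
    nlinarith only [h2, h3]
  obtain ⟨ex, hex'⟩ : ∃ ex, ex = Real.exp (-(ψ / 2 * J / 2)) := ⟨_, rfl⟩
  have hex0 : 0 < ex := by rw [hex']; exact Real.exp_pos _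
  have b3 : C₃ * (2 * ex * L) ≤ δ₀ * x₂ / 8 * J := by
    have h1 : ex * (ψ / 4 * J) ≤ 1 := by
      have h2 : ψ / 4 * J ≤ Real.exp (ψ / 4 * J) := by
        have := Real.add_one_le_exp (ψ / 4 * J)
        linarith
      have e : -(ψ / 2 * (J : ℝ) / 2) = -(ψ / 4 * J) := by ring
      rw [hex', e]
      calc Real.exp (-(ψ / 4 * J)) * (ψ / 4 * J) ≤
            Real.exp (-(ψ / 4 * J)) * Real.exp (ψ / 4 * J) :=
            mul_le_mul_of_nonneg_left h2 (Real.exp_pos _).le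
        _ = 1 := by rw [← Real.exp_add]; simp
    have h3 : 64 * C₃ ≤ J * (ψ * (δ₀ * x₂)) := by
      rw [div_le_iff₀ (by positivity)] at j6
      exact j6
    have h4 : C₃ * (2 * ex * L) ≤ C₃ * (2 * ex * J) := by
      refine mul_le_mul_of_nonneg_left (mul_le_mul_of_nonneg_left hLJ (by positivity)) hC₃
    have h5 : 64 * C₃ * (2 * ex) ≤ J * (ψ * (δ₀ * x₂)) * (2 * ex) :=
      mul_le_mul_of_nonneg_right h3 (by positivity)
    have h6 : ex * (ψ / 4 * J) * (8 * (δ₀ * x₂)) ≤ 1 * (8 * (δ₀ * x₂)) :=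
      mul_le_mul_of_nonneg_right h1 (by positivity)
    have h7 : 64 * (C₃ * (2 * ex)) ≤ 8 * (δ₀ * x₂) := by nlinarith only [h5, h6]
    have h8 : 64 * (C₃ * (2 * ex)) * J ≤ 8 * (δ₀ * x₂) * J :=
      mul_le_mul_of_nonneg_right h7 hJ0.le
    nlinarith only [h4, h8]
  have b4 : m * |lc| + C₃ * (m * g₁ + g₂ + κf + 1) ≤ δ₀ * x₂ / 8 * J := by
    rw [div_le_iff₀ (by positivity)] at j5
    linarith
  have b5 : m * (6 * (τ * J)) ≤ δ₀ * x₂ / 8 * J := by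
    have := mul_le_mul_of_nonneg_right hτ1 hJ0.le
    nlinarith only [this]
  have b6 : (m : ℝ) * lc ≤ m * |lc| := mul_le_mul_of_nonneg_left (le_abs_self _) hm0.le
  have b7 : δ₀ * (x₂ * J) ≤ δ₀ * X := mul_le_mul_of_nonneg_left hXr hδ₀.le
  have b8 : 0 < δ₀ * x₂ * J := by positivity
  rw [← hex']
  nlinarith only [b1, b2, b3, b4, b5, b6, b7, b8]

/-- The time. -/
theorem num_hek {m J : ℕ} {τ lc π₀ ρ₀ c' κ x₂ X : ℝ} (hJ0 : 0 < (J : ℝ)) (hc'0 : 0 < c')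
    (hκ : 0 < κ) (hπ₀ : 0 < π₀) (hx₂0 : 0 < x₂) (hρ₀ : ρ₀ = c' * κ * x₂ * Real.log 2 / 128)
    (hτ2 : 6 * τ / π₀ ≤ ρ₀) (hXr : x₂ * J ≤ X)
    (j7 : ((|lc| + Real.log 2) / π₀ + 4 * cc m) / ρ₀ ≤ J)
    (j10 : 2 / (κ * x₂) ≤ J) :
    (4 * (τ * J) + τ * J + (τ * J + |lc|) + Real.log 2) / π₀ + 4 * cc m ≤
      c' / 8 / 4 * (⌊κ * X⌋₊ * Real.log 2) := by
  have hl2 : 0 < Real.log 2 := Real.log_pos (by norm_num)
  have hρ₀0 : 0 < ρ₀ := by rw [hρ₀]; positivity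
  have hκX : κ * X / 2 ≤ (⌊κ * (X : ℝ)⌋₊ : ℝ) := by
    have h1 : κ * (X : ℝ) < ⌊κ * (X : ℝ)⌋₊ + 1 := Nat.lt_floor_add_one _
    have h2 : 2 ≤ κ * X := by
      rw [div_le_iff₀ (by positivity)] at j10
      have := mul_le_mul_of_nonneg_left hXr hκ.le
      nlinarith only [this, j10]
    linarith
  have h1 : c' / 8 / 4 * (κ * X / 2 * Real.log 2) ≤
      c' / 8 / 4 * (⌊κ * (X : ℝ)⌋₊ * Real.log 2) :=
    mul_le_mul_of_nonneg_left (mul_le_mul_of_nonneg_right hκX hl2.le) (by positivity)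
  have h2 : 2 * ρ₀ * J ≤ c' / 8 / 4 * (κ * X / 2 * Real.log 2) := by
    have h3 := mul_le_mul_of_nonneg_left hXr (show 0 ≤ c' * κ * Real.log 2 / 64 by positivity)
    rw [hρ₀]
    nlinarith only [h3]
  have h3 : (|lc| + Real.log 2) / π₀ + 4 * cc m ≤ ρ₀ * J := by
    rw [div_le_iff₀ hρ₀0] at j7
    linarith
  have h4 : 6 * τ / π₀ * J ≤ ρ₀ * J := mul_le_mul_of_nonneg_right hτ2 hJ0.le
  have e : (4 * (τ * J) + τ * J + (τ * J + |lc|) + Real.log 2) / π₀ =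
      6 * τ / π₀ * J + (|lc| + Real.log 2) / π₀ := by
    field_simp
    ring
  rw [e]
  linarith

/-- The unit. -/
theorem num_u {J n Q₁ Q₂ u : ℕ} {x x₂ : ℝ} (hx : 0 < x) (hn0 : 0 < n)
    (hx₂ : x₂ = x / (4 * n)) (hu : u = (Q₂ - Q₁) / n) (hQ12 : Q₁ ≤ Q₂)
    (hΔ : x / 2 * J ≤ (Q₂ : ℝ) - Q₁) (j2 : 4 * n / x ≤ (J : ℝ)) : x₂ * J ≤ u := by
  have hnr : (0 : ℝ) < n := by exact_mod_cast hn0
  have h1 : Q₂ - Q₁ < u * n + n := by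
    rw [hu]
    exact Nat.lt_div_mul_add hn0
  have h2 : (Q₂ : ℝ) - Q₁ < u * n + n := by
    have : ((Q₂ - Q₁ : ℕ) : ℝ) < ((u * n + n : ℕ) : ℝ) := by exact_mod_cast h1
    rw [Nat.cast_sub hQ12] at this
    push_cast at this
    exact this
  rw [div_le_iff₀ hx] at j2
  have h4 : x₂ * J * n = x / 4 * J := by rw [hx₂]; field_simp
  have h5 : x₂ * J * n < u * n := by
    rw [h4]
    nlinarith only [h2, j2, hΔ]
  exact (lt_of_mul_lt_mul_right h5 hnr.le).le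

end Pool.OVN
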